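import Pool.Agent.Q73.NL.F2

/-!
# Closed surfaces
-/

set_option autoImplicit false
open MeasureTheory Filter Topology Complex Metric
open scoped ContDiff ENNReal ComplexConjugate

namespace Pool.Agent.Q73.NL

section

variable {M ι : Type*} [TopologicalSpace M] [T2Space M] [SecondCountableTopology M]
  [MeasurableSpace M] [BorelSpace M]

/-- an isothermal atlas: charts `φ i : U i → M`, the metric is `ρ i |dz|²` in the `i`-th chart, `area`
and `len` are the area and the length -/
structure Atl (U : ι → Set ℂ) (φ : ι → ℂ → M) (ρ : ι → ℂ → ℝ) (area len : Measure M) : Prop where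
  op : ∀ i, IsOpen (U i)
  cont : ∀ i, ContinuousOn (φ i) (U i)
  inj : ∀ i, Set.InjOn (φ i) (U i)
  opm : ∀ i (S : Set ℂ), IsOpen S → S ⊆ U i → IsOpen (φ i '' S)
  cov : ∀ x : M, ∃ i, x ∈ φ i '' U i
  pos : ∀ i, ∀ z ∈ U i, 0 < ρ i z
  rcont : ∀ i, ContinuousOn (ρ i) (U i)
  harea : ∀ i (S : Set ℂ), MeasurableSet S → S ⊆ U i →
    area (φ i '' S) = ∫⁻ z in S, ENNReal.ofReal (ρ i z)
  hlen : ∀ i (S : Set ℂ), MeasurableSet S → S ⊆ U i →
    len (φ i '' S) = ∫⁻ z in S, ENNReal.ofReal (Real.sqrt (ρ i z)) ∂(μH[1] : Measure ℂ)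

/-- the zeros of `u` in `D` -/
def zs (D : Set M) (u : M → ℝ) : Set M := {x | x ∈ D ∧ u x = 0}

omit [TopologicalSpace M] [T2Space M] [SecondCountableTopology M] [MeasurableSpace M]
  [BorelSpace M] in
theorem zs_mono {D D' : Set M} (h : D ⊆ D') (u : M → ℝ) : zs D u ⊆ zs D' u :=
  fun _ hx => ⟨h hx.1, hx.2⟩

/-- the discs -/
structure Disc (U : ι → Set ℂ) where
  i : ι
  z : ℂ
  r : ℝ
  hr : 0 < r
  sub : closedBall z r ⊆ U i

omit [T2Space M] [BorelSpace M] in
theorem exists_discs {U : ι → Set ℂ} {φ : ι → ℂ → M} {ρ : ι → ℂ → ℝ} {area len : Measure M}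
    (h : Atl U φ ρ area len) [Nonempty M] : ∃ d : ℕ → Disc U,
      (⋃ j, φ (d j).i '' ball (d j).z (d j).r) = Set.univ := by
  have h1 : ∀ x : M, ∃ e : Disc U, x ∈ φ e.i '' ball e.z e.r := by
    intro x
    obtain ⟨i, z, hz, rfl⟩ := h.cov x
    obtain ⟨r, hr, hr2⟩ := Metric.isOpen_iff.1 (h.op i) z hz
    exact ⟨⟨i, z, r / 2, by positivity, (closedBall_subset_ball (by linarith)).trans hr2⟩, z,
      mem_ball_self (by positivity), rfl⟩
  choose e he using h1
  have ho : ∀ x, IsOpen (φ (e x).i '' ball (e x).z (e x).r) := fun x =>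
    h.opm _ _ isOpen_ball (ball_subset_closedBall.trans (e x).sub)
  obtain ⟨T, hT, hTu⟩ := TopologicalSpace.isOpen_iUnion_countable _ ho
  have hall : (⋃ x, φ (e x).i '' ball (e x).z (e x).r) = Set.univ :=
    Set.eq_univ_of_forall fun x => Set.mem_iUnion.2 ⟨x, he x⟩
  rw [hall] at hTu
  have hTne : T.Nonempty := by
    by_contra hne
    rw [Set.not_nonempty_iff_eq_empty] at hne
    rw [hne] at hTu
    simp only [Set.mem_empty_iff_false, Set.iUnion_of_empty, Set.iUnion_empty] at hTu
    obtain ⟨x⟩ := (inferInstance : Nonempty M)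
    have hx : x ∈ (Set.univ : Set M) := trivial
    rw [← hTu] at hx
    exact hx
  obtain ⟨f, hf⟩ := hT.exists_eq_range hTne
  refine ⟨fun j => e (f j), ?_⟩
  rw [← hTu, hf]
  ext x
  simp

omit [T2Space M] [SecondCountableTopology M] [BorelSpace M] in
/-- a piece inside one chart -/
theorem chart_piece (hU3 : U3) {U : ι → Set ℂ} {φ : ι → ℂ → M} {ρ : ι → ℂ → ℝ}
    {area len : Measure M} (h : Atl U φ ρ area len) {lam : ℕ → ℝ} (hl : Tendsto lam atTop atTop)
    {u : ℕ → M → ℝ} (hu : ∀ n i, Sol (U i) (fun z => lam n * ρ i z) (fun z => u n (φ i z)))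
    {Q : Set M} (hQ : IsOpen Q) {i : ι} (hQi : Q ⊆ φ i '' U i) :
    ENNReal.ofReal (1 / Real.pi) * area Q ≤
      liminf (fun n => len (zs Q (u n)) / ENNReal.ofReal (Real.sqrt (lam n))) atTop := by
  set W : Set ℂ := U i ∩ φ i ⁻¹' Q with hW
  have hWo : IsOpen W := (h.cont i).isOpen_inter_preimage (h.op i) hQ
  have hWsub : W ⊆ U i := Set.inter_subset_left
  have hWQ : φ i '' W = Q := by
    ext x
    constructor
    · rintro ⟨z, hz, rfl⟩
      exact hz.2
    · intro hx
      obtain ⟨z, hz, rfl⟩ := hQi hx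
      exact ⟨z, ⟨hz, hx⟩, rfl⟩
  have h1 := surf hU3 hWo (fun z hz => h.pos i z (hWsub hz)) ((h.rcont i).mono hWsub) hl
    (fun n => (hu n i).mono hWsub)
  rw [← h.harea i W hWo.measurableSet hWsub, hWQ] at h1
  refine h1.trans (liminf_le_liminf (Eventually.of_forall fun n => ?_))
  have h2 : zs Q (u n) = φ i '' nod W (fun z => u n (φ i z)) := by
    ext x
    constructor
    · rintro ⟨hx, hx0⟩
      rw [← hWQ] at hx
      obtain ⟨z, hz, rfl⟩ := hx
      exact ⟨z, ⟨hz, hx0⟩, rfl⟩
    · rintro ⟨z, ⟨hz, hz0⟩, rfl⟩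
      exact ⟨hz.2, hz0⟩
  rw [h2, h.hlen i _ (nod_meas hWo ((hu n i).mono hWsub)) fun z hz => hWsub hz.1]
  exact le_rfl

omit [T2Space M] [SecondCountableTopology M] [BorelSpace M] in
theorem zs_meas {U : ι → Set ℂ} {φ : ι → ℂ → M} {ρ : ι → ℂ → ℝ}
    {area len : Measure M} (h : Atl U φ ρ area len) {lam : ℝ}
    {u : M → ℝ} (hu : ∀ i, Sol (U i) (fun z => lam * ρ i z) (fun z => u (φ i z))) :
    IsClosed {x | u x = 0} := by
  rw [← isOpen_compl_iff, isOpen_iff_mem_nhds]
  intro x hx
  obtain ⟨i, z, hz, rfl⟩ := h.cov x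
  have h1 : IsOpen {w | w ∈ U i ∧ u (φ i w) ≠ 0} := isOpen_compl_A (h.op i) (hu i)
  refine mem_of_superset ((h.opm i _ h1 fun w hw => hw.1).mem_nhds ⟨z, ⟨hz, hx⟩, rfl⟩) ?_
  rintro y ⟨w, hw, rfl⟩
  exact hw.2

theorem surface (hU3 : U3) {U : ι → Set ℂ} {φ : ι → ℂ → M} {ρ : ι → ℂ → ℝ}
    {area len : Measure M} (h : Atl U φ ρ area len) {lam : ℕ → ℝ} (hl : Tendsto lam atTop atTop)
    {u : ℕ → M → ℝ} (hu : ∀ n i, Sol (U i) (fun z => lam n * ρ i z) (fun z => u n (φ i z)))
    {D : Set M} (hD : IsOpen D) :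
    ENNReal.ofReal (1 / Real.pi) * area D ≤
      liminf (fun n => len (zs D (u n)) / ENNReal.ofReal (Real.sqrt (lam n))) atTop := by
  rcases isEmpty_or_nonempty M with hM | hM
  · have : D = ∅ := Set.eq_empty_of_isEmpty D
    rw [this]; simp
  obtain ⟨d, hd⟩ := exists_discs h
  set B : ℕ → Set M := fun j => φ (d j).i '' ball (d j).z (d j).r with hB
  set K : ℕ → Set M := fun j => φ (d j).i '' closedBall (d j).z (d j).r with hK
  have hBK : ∀ j, B j ⊆ K j := fun j => Set.image_mono ball_subset_closedBall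
  have hKc : ∀ j, IsClosed (K j) := fun j =>
    ((isCompact_closedBall _ _).image_of_continuousOn ((h.cont _).mono (d j).sub)).isClosed
  have hBo : ∀ j, IsOpen (B j) := fun j =>
    h.opm _ _ isOpen_ball (ball_subset_closedBall.trans (d j).sub)
  set Q : ℕ → Set M := fun j => D ∩ (B j \ ⋃ k ∈ Finset.range j, K k) with hQ
  have hQo : ∀ j, IsOpen (Q j) := fun j =>
    hD.inter ((hBo j).sdiff ((Finset.range j).finite_toSet.isClosed_biUnion fun k _ => hKc k))
  have hQD : ∀ j, Q j ⊆ D := fun j => Set.inter_subset_left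
  have hQd : Pairwise (Function.onFun Disjoint Q) := by
    have key : ∀ i j : ℕ, i < j → Disjoint (Q i) (Q j) := by
      intro i j hij
      rw [Set.disjoint_left]
      intro x hx hx'
      refine hx'.2.2 ?_
      simp only [Set.mem_iUnion, Finset.mem_range]
      exact ⟨i, hij, hBK i hx.2.1⟩
    intro i j hij
    rcases lt_or_gt_of_ne hij with h | h
    · exact key i j h
    · exact (key j i h).symm
  have hnull : ∀ j, area (K j \ B j) = 0 := by
    intro j
    have h1 : K j \ B j ⊆ φ (d j).i '' sphere (d j).z (d j).r := by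
      rintro x ⟨⟨z, hz, rfl⟩, hxB⟩
      refine ⟨z, ?_, rfl⟩
      rw [mem_sphere]
      refine le_antisymm hz (not_lt.1 fun hlt => hxB ⟨z, hlt, rfl⟩)
    refine measure_mono_null h1 ?_
    rw [h.harea _ _ isClosed_sphere.measurableSet (sphere_subset_closedBall.trans (d j).sub)]
    exact setLIntegral_measure_zero _ _ (Measure.addHaar_sphere_of_ne_zero volume _ (d j).hr.ne')
  have hcov : D ⊆ (⋃ j, Q j) ∪ ⋃ j, (K j \ B j) := by
    intro x hx
    have hex : ∃ j, x ∈ K j := by
      have : x ∈ ⋃ j, φ (d j).i '' ball (d j).z (d j).r := by rw [hd]; trivial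
      obtain ⟨j, hj⟩ := Set.mem_iUnion.1 this
      exact ⟨j, hBK j hj⟩
    classical
    have h1 := Nat.find_spec hex
    have h2 : ∀ k < Nat.find hex, x ∉ K k := fun k hk => Nat.find_min hex hk
    by_cases hxB : x ∈ B (Nat.find hex)
    · left
      refine Set.mem_iUnion.2 ⟨Nat.find hex, hx, hxB, ?_⟩
      simp only [Set.mem_iUnion, Finset.mem_range, not_exists]
      exact fun k hk => h2 k hk
    · right
      exact Set.mem_iUnion.2 ⟨Nat.find hex, h1, hxB⟩
  have hA : area D ≤ ∑' j, area (Q j) := by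
    refine (measure_mono hcov).trans ((measure_union_le _ _).trans ?_)
    rw [measure_iUnion_null hnull, add_zero]
    exact measure_iUnion_le _
  have hI2 : ∀ j, ENNReal.ofReal (1 / Real.pi) * area (Q j) ≤
      liminf (fun n => len (zs (Q j) (u n)) / ENNReal.ofReal (Real.sqrt (lam n))) atTop := by
    intro j
    refine chart_piece hU3 h hl hu (hQo j) (i := (d j).i) fun x hx => ?_
    exact Set.image_mono (ball_subset_closedBall.trans (d j).sub) hx.2.1
  have hI3 : ∑' j, liminf (fun n => len (zs (Q j) (u n)) / ENNReal.ofReal (Real.sqrt (lam n))) atTop ≤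
      liminf (fun n => len (zs D (u n)) / ENNReal.ofReal (Real.sqrt (lam n))) atTop := by
    have h1 := lintegral_liminf_le (μ := (Measure.count : Measure ℕ)) (u := (atTop : Filter ℕ))
      (f := fun n j => len (zs (Q j) (u n)) / ENNReal.ofReal (Real.sqrt (lam n)))
      (fun n => measurable_of_countable _)
    rw [lintegral_count] at h1
    refine h1.trans (liminf_le_liminf (Eventually.of_forall fun n => ?_))
    rw [lintegral_count]
    simp only [div_eq_mul_inv]
    rw [ENNReal.tsum_mul_right]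
    refine mul_le_mul' ?_ le_rfl
    have hm : ∀ j, MeasurableSet (zs (Q j) (u n)) := fun j =>
      (hQo j).measurableSet.inter (zs_meas h (hu n)).measurableSet
    rw [← measure_iUnion _ hm]
    · exact measure_mono (Set.iUnion_subset fun j => zs_mono (hQD j) _)
    · intro i j hij
      exact (hQd hij).mono (fun z hz => hz.1) (fun z hz => hz.1)
  calc ENNReal.ofReal (1 / Real.pi) * area D ≤ ENNReal.ofReal (1 / Real.pi) * ∑' j, area (Q j) :=
      mul_le_mul' le_rfl hA
    _ = ∑' j, ENNReal.ofReal (1 / Real.pi) * area (Q j) := ENNReal.tsum_mul_left.symm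
    _ ≤ _ := ENNReal.tsum_le_tsum hI2
    _ ≤ _ := hI3

/-- sequences with the smallest possible nodal length are equidistributed -/
theorem surface_equi (hU3 : U3) {U : ι → Set ℂ} {φ : ι → ℂ → M} {ρ : ι → ℂ → ℝ}
    {area len : Measure M} (h : Atl U φ ρ area len) {lam : ℕ → ℝ} (hl : Tendsto lam atTop atTop)
    {u : ℕ → M → ℝ} (hu : ∀ n i, Sol (U i) (fun z => lam n * ρ i z) (fun z => u n (φ i z)))
    (hfin : area Set.univ ≠ ⊤)
    (hmin : limsup (fun n => len (zs Set.univ (u n)) / ENNReal.ofReal (Real.sqrt (lam n))) atTop ≤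
      ENNReal.ofReal (1 / Real.pi) * area Set.univ)
    {D : Set M} (hD : IsOpen D) (hfr : area (frontier D) = 0) :
    Tendsto (fun n => len (zs D (u n)) / ENNReal.ofReal (Real.sqrt (lam n))) atTop
      (𝓝 (ENNReal.ofReal (1 / Real.pi) * area D)) := by
  set E : Set M := (closure D)ᶜ with hE
  have hEo : IsOpen E := isClosed_closure.isOpen_compl
  have hDE : Disjoint D E := Set.disjoint_left.2 fun x hx hx' => hx' (subset_closure hx)
  have hareaE : area Set.univ ≤ area D + area E := by
    have h1 : (Set.univ : Set M) ⊆ (D ∪ E) ∪ frontier D := by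
      intro x _
      by_cases hx : x ∈ closure D
      · by_cases hxD : x ∈ D
        · exact Or.inl (Or.inl hxD)
        · right
          rw [hD.frontier_eq]
          exact ⟨hx, hxD⟩
      · exact Or.inl (Or.inr hx)
    refine (measure_mono h1).trans ((measure_union_le _ _).trans ?_)
    rw [hfr, add_zero]
    exact measure_union_le _ _
  have hfinE : area E ≠ ⊤ := ne_top_of_le_ne_top hfin (measure_mono (Set.subset_univ _))
  have hlD := surface hU3 h hl hu hD
  have hlE := surface hU3 h hl hu hEo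
  set c := ENNReal.ofReal (1 / Real.pi) with hc
  have hcE : c * area E ≠ ⊤ := ENNReal.mul_ne_top ENNReal.ofReal_ne_top hfinE
  have hcU : c * area Set.univ ≠ ⊤ := ENNReal.mul_ne_top ENNReal.ofReal_ne_top hfin
  refine tendsto_of_le_liminf_of_limsup_le hlD ?_
  refine ENNReal.le_of_forall_pos_le_add fun ε hε _ => ?_
  have hε0 : (0 : ℝ≥0∞) < ε / 2 := by
    have : (ε : ℝ≥0∞) ≠ 0 := by exact_mod_cast hε.ne'
    exact ENNReal.half_pos this
  have e1 : ∀ᶠ n in atTop, len (zs Set.univ (u n)) / ENNReal.ofReal (Real.sqrt (lam n)) <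
      c * area Set.univ + ε / 2 :=
    eventually_lt_of_limsup_lt (lt_of_le_of_lt hmin (ENNReal.lt_add_right hcU hε0.ne'))
  have e2 : ∀ᶠ n in atTop, c * area E ≤
      len (zs E (u n)) / ENNReal.ofReal (Real.sqrt (lam n)) + ε / 2 := by
    by_cases h0 : c * area E = 0
    · rw [h0]; exact Eventually.of_forall fun _ => zero_le
    · have h1 : c * area E - ε / 2 < liminf (fun n => len (zs E (u n)) /
          ENNReal.ofReal (Real.sqrt (lam n))) atTop :=
        lt_of_lt_of_le (ENNReal.sub_lt_self hcE h0 hε0.ne') hlE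
      filter_upwards [eventually_lt_of_lt_liminf h1] with n hn
      exact tsub_le_iff_right.1 hn.le
  refine limsup_le_of_le (by isBoundedDefault) ?_
  filter_upwards [e1, e2] with n h1 h2
  set s := ENNReal.ofReal (Real.sqrt (lam n))
  have h3 : len (zs D (u n)) / s + len (zs E (u n)) / s ≤ len (zs Set.univ (u n)) / s := by
    rw [← ENNReal.add_div]
    refine ENNReal.div_le_div_right ?_ _
    have hd : Disjoint (zs D (u n)) (zs E (u n)) :=
      Set.disjoint_left.2 fun x hx hx' => Set.disjoint_left.1 hDE hx.1 hx'.1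
    have hm : MeasurableSet (zs E (u n)) := hEo.measurableSet.inter (zs_meas h (hu n)).measurableSet
    rw [← measure_union hd hm]
    refine measure_mono (Set.union_subset (zs_mono (Set.subset_univ _) _)
      (zs_mono (Set.subset_univ _) _))
  have h4 : len (zs D (u n)) / s + c * area E ≤ (c * area D + ε) + c * area E := by
    calc len (zs D (u n)) / s + c * area E ≤
        len (zs D (u n)) / s + (len (zs E (u n)) / s + ε / 2) := by gcongr
      _ = (len (zs D (u n)) / s + len (zs E (u n)) / s) + ε / 2 := by rw [add_assoc]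
      _ ≤ (c * area Set.univ + ε / 2) + ε / 2 := add_le_add (h3.trans h1.le) le_rfl
      _ = c * area Set.univ + ε := by rw [add_assoc, ENNReal.add_halves]
      _ ≤ c * (area D + area E) + ε := by gcongr
      _ = (c * area D + ε) + c * area E := by ring
  exact (ENNReal.add_le_add_iff_right hcE).1 h4

end

end Pool.Agent.Q73.NL
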