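import Pool.Agent.Q73.NL.StmD

/-!
# D2: the length of a compact set of regular zeros
-/

set_option autoImplicit false
open MeasureTheory Filter Topology Complex Metric
open scoped ContDiff ENNReal

namespace Pool.Agent.Q73.NL

/-- the local form of the claim -/
def Loc (u : ℂ → ℝ) (z₀ : ℂ) (η ρ : ℝ) : Prop :=
  (μH[1] : Measure ℂ) (ball z₀ ρ ∩ {z | u z = 0}) < ⊤ ∧
  ∀ A W : Set ℂ, IsCompact A → A ⊆ ball z₀ ρ ∩ {z | u z = 0} → IsOpen W → A ⊆ W →
    ∀ᶠ ε in 𝓝[>] (0 : ℝ), (μH[1] : Measure ℂ) A ≤ ENNReal.ofReal (1 + η) * lev u W ε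

theorem fd_eq (v : ℂ → ℝ) (z h : ℂ) : fderiv ℝ v z h = h.re * dx v z + h.im * dy v z := by
  have hv : h = h.re • (1 : ℂ) + h.im • I := by
    apply Complex.ext <;> simp
  conv_lhs => rw [hv]
  rw [map_add, map_smul, map_smul, smul_eq_mul, smul_eq_mul]
  rfl

theorem dx_le_gr (v : ℂ → ℝ) (z : ℂ) : dx v z ≤ gr v z := by
  unfold gr
  refine le_trans (le_abs_self _) ?_
  rw [← Real.sqrt_sq_eq_abs]
  exact Real.sqrt_le_sqrt (by nlinarith [sq_nonneg (dy v z)])

theorem gr_cont {v : ℂ → ℝ} (hv : ContDiff ℝ ∞ v) : Continuous (gr v) := by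
  have cdx : Continuous (dx v) := (hv.continuous_fderiv (by simp)).clm_apply continuous_const
  have cdy : Continuous (dy v) := (hv.continuous_fderiv (by simp)).clm_apply continuous_const
  unfold gr
  fun_prop

/-- near a regular zero with horizontal gradient the zero set is a graph over the `y`-axis -/
theorem graph_zero {v : ℂ → ℝ} (hv : ContDiff ℝ ∞ v) {z₀ : ℂ} {η ρ : ℝ}
    (hb : ∀ w ∈ ball z₀ ρ, 0 < dx v w ∧ |dy v w| ≤ η * dx v w) {w w' : ℂ} (hw : w ∈ ball z₀ ρ)
    (hw' : w' ∈ ball z₀ ρ) (h0 : v w = 0) (h0' : v w' = 0) : |w.re - w'.re| ≤ η * |w.im - w'.im| := by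
  have hd : ∀ t : ℝ, HasDerivAt (fun t : ℝ => v (w' + t * (w - w')))
      (fderiv ℝ v (w' + t * (w - w')) (w - w')) t := by
    intro t
    have h1 : HasDerivAt (fun t : ℝ => w' + (t : ℂ) * (w - w')) (w - w') t := by
      have := ((Complex.ofRealCLM.hasDerivAt (x := t)).mul_const (w - w')).const_add w'
      simpa using this
    exact (((hv.differentiable (by simp)) _).hasFDerivAt).comp_hasDerivAt t h1
  obtain ⟨c, hc, h1⟩ := exists_hasDerivAt_eq_zero (f := fun t : ℝ => v (w' + t * (w - w')))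
    (a := 0) (b := 1) one_pos (fun t _ => (hd t).continuousAt.continuousWithinAt)
    (by simp [h0, h0']) fun t _ => hd t
  have hmem : w' + c * (w - w') ∈ ball z₀ ρ := by
    have := (convex_ball z₀ ρ) hw' hw (sub_nonneg.2 hc.2.le) hc.1.le (by ring)
    have h2 : w' + c * (w - w') = (1 - c) • w' + c • w := by
      simp only [real_smul]
      push_cast
      ring
    rwa [h2]
  obtain ⟨h2, h3⟩ := hb _ hmem
  rw [fd_eq] at h1
  set X := dx v (w' + c * (w - w'))
  set Y := dy v (w' + c * (w - w'))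
  rw [sub_re, sub_im] at h1
  have h4 : |w.re - w'.re| * X = |w.im - w'.im| * |Y| := by
    have h6 : (w.re - w'.re) * X = -((w.im - w'.im) * Y) := by linarith
    calc |w.re - w'.re| * X = |(w.re - w'.re) * X| := by rw [abs_mul, abs_of_pos h2]
      _ = |w.im - w'.im| * |Y| := by rw [h6, abs_neg, abs_mul]
  have h5 : |w.re - w'.re| * X ≤ (η * |w.im - w'.im|) * X := by
    rw [h4]
    nlinarith [abs_nonneg (w.im - w'.im)]
  exact le_of_mul_le_mul_right h5 h2

theorem H1_le {S : Set ℂ} {η : ℝ} (hη : 0 ≤ η)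
    (h : ∀ w ∈ S, ∀ w' ∈ S, |w.re - w'.re| ≤ η * |w.im - w'.im|) :
    (μH[1] : Measure ℂ) S ≤ ENNReal.ofReal (1 + η) * volume (Complex.im '' S) := by
  classical
  set g := Function.invFunOn Complex.im S with hg
  have hgS : ∀ x ∈ Complex.im '' S, g x ∈ S := fun x hx => Function.invFunOn_mem hx
  have hgi : ∀ x ∈ Complex.im '' S, (g x).im = x := fun x hx => Function.invFunOn_eq hx
  have hlip : LipschitzOnWith (Real.toNNReal (1 + η)) g (Complex.im '' S) := by
    refine LipschitzOnWith.of_dist_le_mul fun x hx y hy => ?_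
    rw [Real.coe_toNNReal _ (by linarith), dist_eq_norm, Real.dist_eq]
    refine (norm_le_abs_re_add_abs_im _).trans ?_
    rw [sub_re, sub_im]
    have h1 := h _ (hgS x hx) _ (hgS y hy)
    rw [hgi x hx, hgi y hy] at h1 ⊢
    linarith
  have himg : S ⊆ g '' (Complex.im '' S) := by
    intro w hw
    have hx : w.im ∈ Complex.im '' S := ⟨w, hw, rfl⟩
    refine ⟨w.im, hx, ?_⟩
    have h1 := h _ (hgS _ hx) _ hw
    rw [hgi _ hx, sub_self, abs_zero, mul_zero] at h1
    have h2 : (g w.im).re - w.re = 0 := abs_nonpos_iff.1 h1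
    apply Complex.ext
    · linarith
    · exact hgi _ hx
  refine (measure_mono himg).trans ((hlip.hausdorffMeasure_image_le zero_le_one).trans ?_)
  rw [hausdorffMeasure_real, ENNReal.rpow_one]
  rfl

theorem inner_int {v : ℂ → ℝ} (hv : ContDiff ℝ ∞ v) {W : Set ℂ} {w : ℂ} {s c ε : ℝ} (hs : 0 < s)
    (hW : ∀ t : ℝ, |t| ≤ s → w + t ∈ W ∧ 0 < dx v (w + t)) (hc : 0 < ε) (hε : ε ≤ c) (h1 : c ≤ v (w + s))
    (h2 : v (w - s) ≤ -c) :
    ENNReal.ofReal (2 * ε) ≤ ∫⁻ x : ℝ, {z | z ∈ W ∧ |v z| ≤ ε}.indicator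
      (fun z => ENNReal.ofReal (gr v z)) ((x : ℂ) + w.im * I) := by
  set φ : ℝ → ℝ := fun t => v (w + t) with hφ
  have hd : ∀ t : ℝ, HasDerivAt φ (dx v (w + t)) t := by
    intro t
    have h1 : HasDerivAt (fun t : ℝ => w + (t : ℂ)) 1 t := by
      have := (Complex.ofRealCLM.hasDerivAt (x := t)).const_add w
      simpa using this
    exact (((hv.differentiable (by simp)) (w + t)).hasFDerivAt).comp_hasDerivAt t h1
  have hcont : Continuous φ := continuous_iff_continuousAt.2 fun t => (hd t).continuousAt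
  have hmono : StrictMonoOn φ (Set.Icc (-s) s) := by
    refine strictMonoOn_of_deriv_pos (convex_Icc _ _) hcont.continuousOn fun t ht => ?_
    rw [interior_Icc] at ht
    rw [(hd t).deriv]
    exact (hW t (abs_le.2 ⟨ht.1.le, ht.2.le⟩)).2
  have hIcc : Set.Icc (φ (-s)) (φ s) ⊆ φ '' Set.Icc (-s) s :=
    intermediate_value_Icc (by linarith) hcont.continuousOn
  have e1 : φ (-s) ≤ -c := by
    simp only [hφ]
    push_cast
    rw [← sub_eq_add_neg]
    exact h2
  have e2 : c ≤ φ s := h1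
  obtain ⟨s1, hs1, hs1'⟩ := hIcc (show -ε ∈ Set.Icc (φ (-s)) (φ s) from ⟨by linarith, by linarith⟩)
  obtain ⟨s2, hs2, hs2'⟩ := hIcc (show ε ∈ Set.Icc (φ (-s)) (φ s) from ⟨by linarith, by linarith⟩)
  have h12 : s1 < s2 := by
    rw [← hmono.lt_iff_lt hs1 hs2, hs1', hs2']
    linarith
  have hsub : ∀ t ∈ Set.Icc s1 s2, t ∈ Set.Icc (-s) s := fun t ht =>
    ⟨hs1.1.trans ht.1, ht.2.trans hs2.2⟩
  have hcd : Continuous fun t : ℝ => dx v (w + t) :=
    ((hv.continuous_fderiv (by simp)).clm_apply continuous_const).comp (by fun_prop)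
  have hint : ∫ t in s1..s2, dx v (w + t) = 2 * ε := by
    rw [intervalIntegral.integral_eq_sub_of_hasDerivAt (fun t _ => hd t)
      (hcd.intervalIntegrable _ _), hs2', hs1']
    ring
  rw [intervalIntegral.integral_of_le h12.le] at hint
  have hI : IntegrableOn (fun t : ℝ => dx v (w + t)) (Set.Ioc s1 s2) :=
    (hcd.integrableOn_Icc (a := s1) (b := s2)).mono_set Set.Ioc_subset_Icc_self
  have hnn : 0 ≤ᵐ[volume.restrict (Set.Ioc s1 s2)] fun t : ℝ => dx v (w + t) := by
    refine (ae_restrict_iff' measurableSet_Ioc).2 (Eventually.of_forall fun t ht => ?_)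
    have := hsub t (Set.Ioc_subset_Icc_self ht)
    exact (hW t (abs_le.2 ⟨this.1, this.2⟩)).2.le
  rw [← hint, ofReal_integral_eq_lintegral_ofReal hI hnn]
  have htr : ∫⁻ x : ℝ, {z | z ∈ W ∧ |v z| ≤ ε}.indicator
      (fun z => ENNReal.ofReal (gr v z)) ((x : ℂ) + w.im * I) =
      ∫⁻ x : ℝ, {z | z ∈ W ∧ |v z| ≤ ε}.indicator
      (fun z => ENNReal.ofReal (gr v z)) (w + x) := by
    rw [← lintegral_add_right_eq_self (fun x : ℝ => {z | z ∈ W ∧ |v z| ≤ ε}.indicator
      (fun z => ENNReal.ofReal (gr v z)) ((x : ℂ) + w.im * I)) w.re]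
    refine lintegral_congr fun x => ?_
    congr 1
    apply Complex.ext
    · simp
      ring
    · simp
  rw [htr, ← lintegral_indicator measurableSet_Ioc]
  refine lintegral_mono fun t => ?_
  by_cases ht : t ∈ Set.Ioc s1 s2
  · rw [Set.indicator_of_mem ht]
    have ht' := Set.Ioc_subset_Icc_self ht
    have h3 := hsub t ht'
    have h4 : |φ t| ≤ ε := by
      rw [abs_le]
      constructor
      · rw [← hs1']
        exact hmono.monotoneOn hs1 h3 ht'.1
      · rw [← hs2']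
        exact hmono.monotoneOn h3 hs2 ht'.2
    have h5 : w + t ∈ {z | z ∈ W ∧ |v z| ≤ ε} := ⟨(hW t (abs_le.2 ⟨h3.1, h3.2⟩)).1, h4⟩
    simp only [Set.indicator_of_mem h5]
    exact ENNReal.ofReal_le_ofReal (dx_le_gr v _)
  · rw [Set.indicator_of_notMem ht]
    exact zero_le

theorem fubini_le {F : ℂ → ℝ≥0∞} (hF : Measurable F) {T : Set ℝ} (hT : MeasurableSet T) {c : ℝ≥0∞}
    (h : ∀ y ∈ T, c ≤ ∫⁻ x : ℝ, F ((x : ℂ) + y * I)) : c * volume T ≤ ∫⁻ z, F z := by
  have h1 := Complex.volume_preserving_equiv_real_prod.symm.lintegral_comp_emb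
    Complex.measurableEquivRealProd.symm.measurableEmbedding F
  rw [← h1, Measure.volume_eq_prod, lintegral_prod_symm]
  · have h2 : ∀ y x : ℝ, F (Complex.measurableEquivRealProd.symm (x, y)) = F ((x : ℂ) + y * I) := by
      intro y x
      congr 1
      exact Complex.mk_eq_add_mul_I x y
    simp only [h2]
    rw [← setLIntegral_const, ← lintegral_indicator hT]
    refine lintegral_mono fun y => ?_
    by_cases hy : y ∈ T
    · rw [Set.indicator_of_mem hy]
      exact h y hy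
    · rw [Set.indicator_of_notMem hy]
      exact zero_le
  · exact (hF.comp Complex.measurableEquivRealProd.symm.measurable).aemeasurable

theorem loc0 {v : ℂ → ℝ} (hv : ContDiff ℝ ∞ v) {z₀ : ℂ} (h1 : 0 < dx v z₀) (h2 : dy v z₀ = 0) {η : ℝ}
    (hη : 0 < η) : ∃ ρ : ℝ, 0 < ρ ∧ Loc v z₀ η ρ := by
  have cdx : Continuous (dx v) := (hv.continuous_fderiv (by simp)).clm_apply continuous_const
  have cdy : Continuous (dy v) := (hv.continuous_fderiv (by simp)).clm_apply continuous_const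
  have hopen : IsOpen {w | 0 < dx v w ∧ |dy v w| < η * dx v w} :=
    (isOpen_lt continuous_const cdx).inter (isOpen_lt cdy.abs (cdx.const_mul η))
  obtain ⟨ρ, hρ, hb⟩ := Metric.isOpen_iff.1 hopen z₀ ⟨h1, by rw [h2, abs_zero]; positivity⟩
  have hb' : ∀ w ∈ ball z₀ ρ, 0 < dx v w ∧ |dy v w| ≤ η * dx v w := fun w hw =>
    ⟨(hb hw).1, (hb hw).2.le⟩
  refine ⟨ρ, hρ, ?_, ?_⟩
  · refine (H1_le hη.le fun w hw w' hw' => graph_zero hv hb' hw.1 hw'.1 hw.2 hw'.2).trans_lt ?_
    refine ENNReal.mul_lt_top ENNReal.ofReal_lt_top ?_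
    have : Complex.im '' (ball z₀ ρ ∩ {z | v z = 0}) ⊆ Set.Icc (z₀.im - ρ) (z₀.im + ρ) := by
      rintro x ⟨w, hw, rfl⟩
      have h3 : |w.im - z₀.im| ≤ ρ := by
        rw [← sub_im]
        have h4 := hw.1
        rw [mem_ball, dist_eq_norm] at h4
        exact (abs_im_le_norm _).trans h4.le
      rw [abs_le] at h3
      exact ⟨by linarith [h3.1], by linarith [h3.2]⟩
    refine (measure_mono this).trans_lt ?_
    rw [Real.volume_Icc]
    exact ENNReal.ofReal_lt_top
  · intro A W hA hAs hW hAW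
    obtain ⟨δ, hδ, hth⟩ := hA.exists_thickening_subset_open (hW.inter isOpen_ball)
      (Set.subset_inter hAW fun w hw => (hAs hw).1)
    set s := δ / 2 with hs
    have hs0 : 0 < s := by positivity
    have hin : ∀ w ∈ A, ∀ t : ℝ, |t| ≤ s → w + t ∈ W ∩ ball z₀ ρ := by
      intro w hw t ht
      apply hth
      rw [mem_thickening_iff]
      refine ⟨w, hw, ?_⟩
      rw [dist_eq_norm, add_sub_cancel_left, norm_real, Real.norm_eq_abs]
      linarith
    have hpos : ∀ w ∈ A, 0 < min (v (w + s)) (-v (w - s)) := by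
      intro w hw
      have hd : ∀ t : ℝ, HasDerivAt (fun t : ℝ => v (w + t)) (dx v (w + t)) t := by
        intro t
        have h1 : HasDerivAt (fun t : ℝ => w + (t : ℂ)) 1 t := by
          have := (Complex.ofRealCLM.hasDerivAt (x := t)).const_add w
          simpa using this
        exact (((hv.differentiable (by simp)) (w + t)).hasFDerivAt).comp_hasDerivAt t h1
      have hmono : StrictMonoOn (fun t : ℝ => v (w + t)) (Set.Icc (-s) s) := by
        refine strictMonoOn_of_deriv_pos (convex_Icc _ _)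
          (fun t _ => (hd t).continuousAt.continuousWithinAt) fun t ht => ?_
        rw [interior_Icc] at ht
        rw [(hd t).deriv]
        exact (hb' _ (hin w hw t (abs_le.2 ⟨ht.1.le, ht.2.le⟩)).2).1
      have hv0 : v w = 0 := (hAs hw).2
      have h3 := hmono (show (-s) ∈ Set.Icc (-s) s from ⟨le_rfl, by linarith⟩)
        (show (0 : ℝ) ∈ Set.Icc (-s) s from ⟨by linarith, by linarith⟩) (by linarith)
      have h4 := hmono (show (0 : ℝ) ∈ Set.Icc (-s) s from ⟨by linarith, by linarith⟩)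
        (show s ∈ Set.Icc (-s) s from ⟨by linarith, le_rfl⟩) (by linarith)
      simp only [ofReal_zero, add_zero, hv0, ofReal_neg, ← sub_eq_add_neg] at h3 h4
      exact lt_min h4 (by linarith)
    obtain ⟨c, hc, hcA⟩ : ∃ c : ℝ, 0 < c ∧ ∀ w ∈ A, c ≤ min (v (w + s)) (-v (w - s)) := by
      rcases A.eq_empty_or_nonempty with h3 | h3
      · exact ⟨1, one_pos, fun w hw => by rw [h3] at hw; exact absurd hw (Set.notMem_empty w)⟩
      · obtain ⟨w₀, hw₀, hmin⟩ := hA.exists_isMinOn h3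
          (f := fun w => min (v (w + s)) (-v (w - s))) (by
            have := hv.continuous
            exact (Continuous.min (this.comp (by fun_prop)) (this.comp (by fun_prop)).neg).continuousOn)
        exact ⟨_, hpos w₀ hw₀, fun w hw => hmin hw⟩
    have hev : ∀ᶠ ε in 𝓝[>] (0 : ℝ), ε ∈ Set.Ioo 0 c := Ioo_mem_nhdsGT hc
    filter_upwards [hev] with ε hε
    refine (H1_le hη.le fun w hw w' hw' => graph_zero hv hb' (hAs hw).1 (hAs hw').1 (hAs hw).2
      (hAs hw').2).trans ?_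
    refine mul_le_mul_right ?_ _
    unfold lev
    have hm : MeasurableSet {z | z ∈ W ∧ |v z| ≤ ε} :=
      hW.measurableSet.inter (isClosed_le hv.continuous.abs continuous_const).measurableSet
    have hε2 : 0 < 2 * ε := by linarith [hε.1]
    rw [ENNReal.le_div_iff_mul_le (Or.inl (by simpa using hε.1)) (Or.inl ENNReal.ofReal_ne_top),
      ← lintegral_indicator hm, mul_comm]
    refine fubini_le ?_ (hA.image continuous_im).measurableSet ?_
    · exact Measurable.indicator (gr_cont hv).measurable.ennreal_ofReal hm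
    · rintro y ⟨w, hw, rfl⟩
      have h3 := hcA w hw
      rw [le_min_iff] at h3
      exact inner_int hv hs0 (fun t ht => ⟨(hin w hw t ht).1, (hb' _ (hin w hw t ht).2).1⟩) hε.1 hε.2.le
        h3.1 (by linarith [h3.2])

theorem rot_der {u : ℂ → ℝ} (hu : ContDiff ℝ ∞ u) (a : Circle) (z : ℂ) :
    dx (fun z => u (a * z)) z = (a : ℂ).re * dx u (a * z) + (a : ℂ).im * dy u (a * z) ∧
    dy (fun z => u (a * z)) z = -(a : ℂ).im * dx u (a * z) + (a : ℂ).re * dy u (a * z) := by
  have hd : HasFDerivAt (fun z => u (a * z))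
      ((fderiv ℝ u (a * z)).comp ((rotation a).toContinuousLinearEquiv : ℂ →L[ℝ] ℂ)) z :=
    ((hu.differentiable (by simp) _).hasFDerivAt).comp z
      ((rotation a).toContinuousLinearEquiv : ℂ →L[ℝ] ℂ).hasFDerivAt
  constructor
  · unfold dx
    rw [hd.fderiv]
    change fderiv ℝ u (a * z) (a * 1) = _
    rw [fd_eq, mul_one]
    rfl
  · have h1 : dy (fun z => u (a * z)) z = fderiv ℝ u (a * z) (a * I) := by
      unfold dy
      rw [hd.fderiv]
      rfl
    rw [h1, fd_eq]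
    simp

theorem circle_sq (a : Circle) : (a : ℂ).re ^ 2 + (a : ℂ).im ^ 2 = 1 := by
  have := Circle.normSq_coe a
  rw [normSq_apply] at this
  nlinarith

theorem lev_rot {u : ℂ → ℝ} (hu : ContDiff ℝ ∞ u) (a : Circle) (W : Set ℂ) (ε : ℝ) :
    lev (fun z => u (a * z)) ((fun z => (a : ℂ) * z) ⁻¹' W) ε = lev u W ε := by
  have hgr : ∀ z, gr (fun z => u (a * z)) z = gr u (a * z) := by
    intro z
    unfold gr
    rw [(rot_der hu a z).1, (rot_der hu a z).2]
    congr 1
    linear_combination (dx u (a * z) ^ 2 + dy u (a * z) ^ 2) * circle_sq a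
  unfold lev
  congr 1
  have hmp := (rotation a).measurePreserving
  have h1 := hmp.setLIntegral_comp_preimage_emb
    (rotation a).toHomeomorph.measurableEmbedding (fun z => ENNReal.ofReal (gr u z))
    {z | z ∈ W ∧ |u z| ≤ ε}
  rw [← h1]
  refine lintegral_congr_ae ?_
  refine Eventually.of_forall fun z => ?_
  simp only [hgr]
  rfl

theorem loc {u : ℂ → ℝ} (hu : ContDiff ℝ ∞ u) {z₀ : ℂ} (h : dx u z₀ ≠ 0 ∨ dy u z₀ ≠ 0) {η : ℝ}
    (hη : 0 < η) : ∃ ρ : ℝ, 0 < ρ ∧ Loc u z₀ η ρ := by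
  set q : ℂ := (dx u z₀ : ℂ) + I * (dy u z₀ : ℂ) with hq
  have hq0 : q ≠ 0 := by
    intro h1
    have h2 := congrArg Complex.re h1
    have h3 := congrArg Complex.im h1
    simp [hq] at h2 h3
    rcases h with h | h
    · exact h h2
    · exact h h3
  have hqn : 0 < ‖q‖ := norm_pos_iff.2 hq0
  set a : Circle := Circle.exp (arg q) with ha0
  have haq : (‖q‖ : ℂ) * (a : ℂ) = q := by
    rw [ha0, Circle.coe_exp]
    exact norm_mul_exp_arg_mul_I q
  have hre : dx u z₀ = ‖q‖ * (a : ℂ).re := by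
    have := congrArg Complex.re haq
    simp [hq] at this
    linarith
  have him : dy u z₀ = ‖q‖ * (a : ℂ).im := by
    have := congrArg Complex.im haq
    simp [hq] at this
    linarith
  set v : ℂ → ℝ := fun z => u (a * z) with hv
  have hvs : ContDiff ℝ ∞ v := hu.comp ((rotation a).toContinuousLinearEquiv : ℂ →L[ℝ] ℂ).contDiff
  set z₁ : ℂ := (a⁻¹ : Circle) * z₀ with hz₁
  have haz : (a : ℂ) * z₁ = z₀ := by
    rw [hz₁, ← mul_assoc, ← Circle.coe_mul, mul_inv_cancel]
    simp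
  have h1 : 0 < dx v z₁ := by
    rw [(rot_der hu a z₁).1, haz, hre, him]
    have := circle_sq a
    nlinarith
  have h2 : dy v z₁ = 0 := by
    rw [(rot_der hu a z₁).2, haz, hre, him]
    ring
  obtain ⟨ρ, hρ, hfin, hloc⟩ := loc0 hvs h1 h2 hη
  have himg : ∀ S : Set ℂ, (rotation a) '' ((rotation a) ⁻¹' S) = S := fun S =>
    Set.image_preimage_eq _ (rotation a).surjective
  have hH : ∀ S : Set ℂ, (μH[1] : Measure ℂ) ((rotation a) ⁻¹' S) = (μH[1] : Measure ℂ) S := by
    intro S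
    conv_rhs => rw [← himg S]
    exact ((rotation a).isometry.hausdorffMeasure_image (Or.inl zero_le_one) _).symm
  have hball : (rotation a) ⁻¹' (ball z₀ ρ ∩ {z | u z = 0}) = ball z₁ ρ ∩ {z | v z = 0} := by
    ext z
    simp only [Set.mem_preimage, Set.mem_inter_iff, mem_ball, Set.mem_ofPred_eq]
    have h3 : dist ((rotation a) z) z₀ = dist z z₁ := by
      rw [← haz]
      exact (rotation a).dist_map z z₁
    rw [h3]
    rfl
  refine ⟨ρ, hρ, ?_, ?_⟩
  · rw [← hH, hball]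
    exact hfin
  · intro A W hA hAs hW hAW
    have hcont : Continuous (rotation a) := (rotation a).continuous
    have h4 := hloc ((rotation a) ⁻¹' A) ((rotation a) ⁻¹' W)
      ((rotation a).toHomeomorph.isCompact_preimage.2 hA)
      (by rw [← hball]; exact Set.preimage_mono hAs) (hW.preimage hcont) (Set.preimage_mono hAW)
    filter_upwards [h4] with ε hε
    rw [hH] at hε
    refine hε.trans (le_of_eq ?_)
    congr 1
    exact lev_rot hu a W ε

theorem lev_add {u : ℂ → ℝ} (hu : Continuous u) {W₁ W₂ W : Set ℂ} (_h1 : IsOpen W₁) (h2 : IsOpen W₂)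
    (hd : Disjoint W₁ W₂) (hs : W₁ ∪ W₂ ⊆ W) (ε : ℝ) : lev u W₁ ε + lev u W₂ ε ≤ lev u W ε := by
  unfold lev
  rw [← ENNReal.add_div]
  refine ENNReal.div_le_div_right ?_ _
  have hm : MeasurableSet {z | z ∈ W₂ ∧ |u z| ≤ ε} :=
    h2.measurableSet.inter (isClosed_le hu.abs continuous_const).measurableSet
  rw [← lintegral_union hm]
  · refine lintegral_mono_set ?_
    rintro z (hz | hz)
    · exact ⟨hs (Or.inl hz.1), hz.2⟩
    · exact ⟨hs (Or.inr hz.1), hz.2⟩
  · exact Set.disjoint_left.2 fun z hz hz' => Set.disjoint_left.1 hd hz.1 hz'.1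

theorem glob {u : ℂ → ℝ} (hu : ContDiff ℝ ∞ u) {η : ℝ} (ρ : ℂ → ℝ) (t : Finset ℂ) :
    (∀ z ∈ t, Loc u z η (ρ z)) → ∀ A W : Set ℂ, IsCompact A → IsOpen W → A ⊆ W → A ⊆ {z | u z = 0} →
      A ⊆ ⋃ z ∈ t, ball z (ρ z) → ∀ δ : ℝ≥0∞, 0 < δ → δ ≠ ⊤ →
        ∀ᶠ ε in 𝓝[>] (0 : ℝ), (μH[1] : Measure ℂ) A ≤ ENNReal.ofReal (1 + η) * lev u W ε + δ := by
  classical
  induction t using Finset.induction_on with
  | empty =>
    intro _ A W _ _ _ _ hAc δ _ _
    have : A = ∅ := by
      simpa using hAc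
    rw [this]
    simp
  | insert z t hz ih =>
    intro hL A W hA hW hAW hA0 hAc δ hδ hδ'
    have ih' := ih fun w hw => hL w (Finset.mem_insert_of_mem hw)
    obtain ⟨hfin, hloc⟩ := hL z (Finset.mem_insert_self _ _)
    set S := ball z (ρ z) ∩ {z | u z = 0} with hS
    set μ : Measure ℂ := (μH[1] : Measure ℂ).restrict S with hμ
    have : IsFiniteMeasure μ := ⟨by rw [hμ, Measure.restrict_apply_univ]; exact hfin⟩
    have hδ2 : 0 < δ / 2 := ENNReal.half_pos hδ.ne'
    have hAB : MeasurableSet (A ∩ ball z (ρ z)) := hA.measurableSet.inter isOpen_ball.measurableSet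
    obtain ⟨A₁, hA₁s, hA₁c, hA₁m⟩ := hAB.exists_isCompact_lt_add (μ := μ) (measure_ne_top _ _) hδ2.ne'
    have hsub1 : A ∩ ball z (ρ z) ⊆ S := fun w hw => ⟨hw.2, hA0 hw.1⟩
    have e1 : μ (A ∩ ball z (ρ z)) = (μH[1] : Measure ℂ) (A ∩ ball z (ρ z)) := by
      rw [hμ, Measure.restrict_eq_self _ hsub1]
    have e2 : μ A₁ = (μH[1] : Measure ℂ) A₁ := by
      rw [hμ, Measure.restrict_eq_self _ (hA₁s.trans hsub1)]
    rw [e1, e2] at hA₁m
    set A₂ := A \ ball z (ρ z) with hA₂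
    have hA₂c : IsCompact A₂ := hA.diff isOpen_ball
    have hdis : Disjoint A₁ A₂ := by
      rw [Set.disjoint_left]
      intro w hw hw'
      exact hw'.2 (hA₁s hw).2
    obtain ⟨U₁, U₂, hU₁, hU₂, hAU₁, hAU₂, hUd⟩ := SeparatedNhds.of_isCompact_isCompact hA₁c hA₂c hdis
    have hA₁A : A₁ ⊆ A := fun w hw => (hA₁s hw).1
    have h1 := hloc A₁ (W ∩ U₁) hA₁c (hA₁s.trans hsub1) (hW.inter hU₁)
      (Set.subset_inter (hA₁A.trans hAW) hAU₁)
    have h2 := ih' A₂ (W ∩ U₂) hA₂c (hW.inter hU₂)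
      (Set.subset_inter ((Set.sdiff_subset).trans hAW) hAU₂) ((Set.sdiff_subset).trans hA0) (by
        rintro w ⟨hwA, hwB⟩
        obtain ⟨z', hz', hw'⟩ := Set.mem_iUnion₂.1 (hAc hwA)
        rcases Finset.mem_insert.1 hz' with rfl | hz''
        · exact absurd hw' hwB
        · exact Set.mem_iUnion₂.2 ⟨z', hz'', hw'⟩) (δ / 2) hδ2 (ENNReal.div_ne_top hδ' (by norm_num))
    filter_upwards [h1, h2] with ε hε1 hε2
    have h3 : (μH[1] : Measure ℂ) A ≤ (μH[1] : Measure ℂ) (A ∩ ball z (ρ z)) + (μH[1] : Measure ℂ) A₂ := by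
      refine le_trans (measure_mono ?_) (measure_union_le _ _)
      intro w hw
      by_cases hwB : w ∈ ball z (ρ z)
      · exact Or.inl ⟨hw, hwB⟩
      · exact Or.inr ⟨hw, hwB⟩
    have h4 : lev u (W ∩ U₁) ε + lev u (W ∩ U₂) ε ≤ lev u W ε :=
      lev_add hu.continuous (hW.inter hU₁) (hW.inter hU₂)
        (hUd.mono Set.inter_subset_right Set.inter_subset_right)
        (Set.union_subset Set.inter_subset_left Set.inter_subset_left) ε
    calc (μH[1] : Measure ℂ) A ≤ (μH[1] : Measure ℂ) (A ∩ ball z (ρ z)) + (μH[1] : Measure ℂ) A₂ := h3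
      _ ≤ ((μH[1] : Measure ℂ) A₁ + δ / 2) +
          (ENNReal.ofReal (1 + η) * lev u (W ∩ U₂) ε + δ / 2) := add_le_add hA₁m.le hε2
      _ ≤ (ENNReal.ofReal (1 + η) * lev u (W ∩ U₁) ε + δ / 2) +
          (ENNReal.ofReal (1 + η) * lev u (W ∩ U₂) ε + δ / 2) := by gcongr
      _ = ENNReal.ofReal (1 + η) * (lev u (W ∩ U₁) ε + lev u (W ∩ U₂) ε) + (δ / 2 + δ / 2) := by ring
      _ ≤ ENNReal.ofReal (1 + η) * lev u W ε + δ := by
          rw [ENNReal.add_halves]
          gcongr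

theorem td2 : D2 := by
  classical
  intro u K W hu hK hW hKW hreg
  set L := liminf (fun ε => lev u W ε) (𝓝[>] (0 : ℝ)) with hL
  have key : ∀ η : ℝ, 0 < η → ∀ δ : ℝ≥0∞, 0 < δ → δ ≠ ⊤ →
      (μH[1] : Measure ℂ) K ≤ ENNReal.ofReal (1 + η) * L + δ := by
    intro η hη δ hδ hδ'
    have hex : ∀ z, ∃ ρ : ℝ, z ∈ K → 0 < ρ ∧ Loc u z η ρ := by
      intro z
      by_cases hz : z ∈ K
      · obtain ⟨ρ, h⟩ := loc hu (hreg z hz).2 hη
        exact ⟨ρ, fun _ => h⟩
      · exact ⟨1, fun h => absurd h hz⟩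
    choose ρ hρ using hex
    obtain ⟨t, htK, htc⟩ := hK.elim_nhds_subcover (fun z => ball z (ρ z)) fun z hz =>
      ball_mem_nhds z (hρ z hz).1
    have h1 := glob hu ρ t (fun z hz => (hρ z (htK z hz)).2) K W hK hW hKW (fun z hz => (hreg z hz).1)
      htc δ hδ hδ'
    have hη0 : ENNReal.ofReal (1 + η) ≠ 0 := by
      rw [Ne, ENNReal.ofReal_eq_zero]
      linarith
    have h2 : ((μH[1] : Measure ℂ) K - δ) / ENNReal.ofReal (1 + η) ≤ L := by
      refine le_liminf_of_le (by isBoundedDefault) ?_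
      filter_upwards [h1] with ε hε
      rw [ENNReal.div_le_iff' hη0 ENNReal.ofReal_ne_top]
      exact tsub_le_iff_right.2 hε
    rw [ENNReal.div_le_iff' hη0 ENNReal.ofReal_ne_top] at h2
    exact tsub_le_iff_right.1 h2
  by_cases hLt : L = ⊤
  · rw [hLt]
    exact le_top
  · refine ENNReal.le_of_forall_pos_le_add fun ε hε _ => ?_
    set η : ℝ := ε / (2 * (L.toReal + 1)) with hη
    have hη0 : 0 < η := by positivity
    refine (key η hη0 (ε / 2 : NNReal) (by exact_mod_cast half_pos hε) ENNReal.coe_ne_top).trans ?_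
    rw [ENNReal.ofReal_add zero_le_one hη0.le, ENNReal.ofReal_one, add_mul, one_mul, add_assoc]
    refine add_le_add_right ?_ _
    have h1 : ENNReal.ofReal η * L ≤ ((ε / 2 : NNReal) : ℝ≥0∞) := by
      rw [← ENNReal.ofReal_toReal hLt, ← ENNReal.ofReal_mul hη0.le, ENNReal.ofReal_le_iff_le_toReal
        ENNReal.coe_ne_top, ENNReal.coe_toReal]
      rw [hη]
      push_cast
      rw [div_mul_eq_mul_div, div_le_div_iff₀ (by positivity) (by norm_num)]
      nlinarith [ENNReal.toReal_nonneg (a := L), NNReal.coe_nonneg ε]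
    calc ENNReal.ofReal η * L + ((ε / 2 : NNReal) : ℝ≥0∞) ≤
          ((ε / 2 : NNReal) : ℝ≥0∞) + ((ε / 2 : NNReal) : ℝ≥0∞) := add_le_add_left h1 _
      _ = ε := by rw [← ENNReal.coe_add, add_halves]

end Pool.Agent.Q73.NL
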