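import Pool.Agent.Q73.NL.Stm

/-!
The zero set of a smooth function without zeros of infinite order is locally almost straight.
-/

set_option autoImplicit false
open MeasureTheory Filter Topology Complex Set
open scoped ContDiff ENNReal ComplexConjugate

namespace Pool.Agent.Q73.NL

noncomputable section

/-- the iterated partial derivatives -/
def Gd (u : ℂ → ℝ) (ι : Σ m : ℕ, (Fin m → Fin 2)) (w : ℂ) : ℝ :=
  iteratedFDeriv ℝ ι.1 u w (fun i => basisOneI (ι.2 i))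

theorem Gd_contDiffAt {Ω : Set ℂ} {u : ℂ → ℝ} (hΩ : IsOpen Ω) (hu : ContDiffOn ℝ ∞ u Ω)
    (ι : Σ m : ℕ, (Fin m → Fin 2)) {z : ℂ} (hz : z ∈ Ω) : ContDiffAt ℝ 2 (Gd u ι) z := by
  have h1 : ContDiffAt ℝ ∞ u z := hu.contDiffAt (hΩ.mem_nhds hz)
  have h2 : ContDiffAt ℝ 2 (iteratedFDeriv ℝ ι.1 u) z := by
    refine h1.iteratedFDeriv_right ?_
    have h3 : ((2 : WithTop ℕ∞) + (ι.1 : WithTop ℕ∞)) = ((2 + ι.1 : ℕ) : WithTop ℕ∞) := by
      push_cast
      rfl
    rw [h3]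
    exact WithTop.coe_le_coe.2 (le_top : ((2 + ι.1 : ℕ) : ℕ∞) ≤ ⊤)
  exact (ContinuousMultilinearMap.apply ℝ (fun _ : Fin ι.1 => ℂ) ℝ
    (fun i => basisOneI (ι.2 i))).contDiff.contDiffAt.comp z h2

/-- a zero of finite order is a regular zero of an iterated partial derivative -/
theorem exists_Gd {Ω : Set ℂ} {u : ℂ → ℝ} (hΩ : IsOpen Ω) (hu : ContDiffOn ℝ ∞ u Ω)
    (hn : NoFlat Ω u) {z : ℂ} (hz : z ∈ nod Ω u) :
    ∃ ι, Gd u ι z = 0 ∧ fderiv ℝ (Gd u ι) z ≠ 0 := by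
  classical
  have hex := hn z hz.1
  have hN := Nat.find_spec hex
  set N := Nat.find hex with hNd
  have hmin : ∀ m < N, iteratedFDeriv ℝ m u z = 0 := fun m hm => not_not.1 (Nat.find_min hex hm)
  rcases hN0 : N with _ | m
  · exfalso
    apply hN
    rw [hN0]
    ext v
    rw [iteratedFDeriv_zero_apply, hz.2]
    rfl
  · rw [hN0] at hN
    have h1 : ∃ v : Fin (m + 1) → Fin 2,
        iteratedFDeriv ℝ (m + 1) u z (fun i => basisOneI (v i)) ≠ 0 := by
      by_contra h2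
      push Not at h2
      apply hN
      have h3 : (iteratedFDeriv ℝ (m + 1) u z).toMultilinearMap = 0 :=
        Module.Basis.ext_multilinear (fun _ => basisOneI) (fun v => h2 v)
      ext v
      exact congrFun (congrArg DFunLike.coe h3) v
    obtain ⟨v, hv⟩ := h1
    refine ⟨⟨m, Fin.tail v⟩, ?_, ?_⟩
    · unfold Gd
      simp only
      rw [hmin m (by omega)]
      rfl
    · have h2 : DifferentiableAt ℝ (iteratedFDeriv ℝ m u) z := by
        have h1 : ContDiffAt ℝ ∞ u z := hu.contDiffAt (hΩ.mem_nhds hz.1)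
        have h2 : ContDiffAt ℝ 1 (iteratedFDeriv ℝ m u) z := by
          refine h1.iteratedFDeriv_right ?_
          have h3 : ((1 : WithTop ℕ∞) + (m : WithTop ℕ∞)) = ((1 + m : ℕ) : WithTop ℕ∞) := by
            push_cast
            rfl
          rw [h3]
          exact_mod_cast le_top
        exact h2.differentiableAt one_ne_zero
      rw [h2.iteratedFDeriv_succ_apply_left'] at hv
      intro h3
      apply hv
      have h4 : (fun y => iteratedFDeriv ℝ m u y (Fin.tail fun i => basisOneI (v i))) =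
          Gd u ⟨m, Fin.tail v⟩ := rfl
      rw [h4, h3]
      rfl

/-- the local statement -/
theorem exists_ball {Ω : Set ℂ} {G : ℂ → ℝ} (hΩ : IsOpen Ω) {z : ℂ} (hz : z ∈ Ω)
    (hG : ∀ w ∈ Ω, ContDiffAt ℝ 2 G w) (hd : fderiv ℝ G z ≠ 0) {η : ℝ} (hη : 0 < η) :
    ∃ r : ℝ, 0 < r ∧ 2 * r ≤ η ∧ Metric.ball z r ⊆ Ω ∧ ∃ a : ℂ, ‖a‖ = 1 ∧
      Flat η a (Metric.ball z r ∩ {w | G w = 0}) := by
  set L := fderiv ℝ G z with hL
  set q : ℂ := (L 1 : ℂ) + I * (L I : ℂ) with hq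
  have hLq : ∀ v : ℂ, (conj q * v).re = L v := by
    intro v
    have h1 : v = v.re • (1 : ℂ) + v.im • I := by
      apply Complex.ext <;> simp
    have h2 : L v = v.re * L 1 + v.im * L I := by
      conv_lhs => rw [h1]
      rw [map_add, map_smul, map_smul, smul_eq_mul, smul_eq_mul]
    rw [h2, hq]
    simp
    ring
  have hq0 : q ≠ 0 := by
    intro h1
    apply hd
    ext v
    rw [← hLq, h1]
    simp
  have hqn : 0 < ‖q‖ := norm_pos_iff.2 hq0
  have hc : ContinuousAt (fderiv ℝ G) z := by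
    have h1 : ContDiffAt ℝ 1 (fderiv ℝ G) z := (hG z hz).fderiv_right (by norm_num [one_add_one_eq_two])
    exact h1.continuousAt
  have h1 : ∀ᶠ w in 𝓝 z, ‖fderiv ℝ G w - L‖ < η * ‖q‖ := by
    have h2 := Metric.continuousAt_iff'.1 hc (η * ‖q‖) (by positivity)
    filter_upwards [h2] with w hw
    rwa [dist_eq_norm] at hw
  obtain ⟨r1, hr1, hb1⟩ := Metric.eventually_nhds_iff_ball.1 h1
  obtain ⟨r2, hr2, hb2⟩ := Metric.isOpen_iff.1 hΩ z hz
  refine ⟨min (η / 2) (min r1 r2), by positivity, ?_, ?_, q / ‖q‖, ?_, ?_⟩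
  · have := min_le_left (η / 2) (min r1 r2)
    linarith
  · exact (Metric.ball_subset_ball ((min_le_right _ _).trans (min_le_right _ _))).trans hb2
  · rw [norm_div, norm_real, norm_norm, div_self hqn.ne']
  · rintro y ⟨hy, hy0⟩ y' ⟨hy', hy0'⟩
    have h2 : ‖G y - G y' - L (y - y')‖ ≤ η * ‖q‖ * ‖y - y'‖ := by
      refine (convex_ball z (min (η / 2) (min r1 r2))).norm_image_sub_le_of_norm_fderiv_le'
        (𝕜 := ℝ) ?_ ?_ hy' hy
      · intro w hw
        refine (hG w (hb2 ?_)).differentiableAt two_ne_zero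
        exact Metric.ball_subset_ball ((min_le_right _ _).trans (min_le_right _ _)) hw
      · intro w hw
        exact (hb1 w (Metric.ball_subset_ball ((min_le_right _ _).trans (min_le_left _ _)) hw)).le
    have h3 : G y = 0 := hy0
    have h4 : G y' = 0 := hy0'
    rw [h3, h4, sub_self, zero_sub, norm_neg, Real.norm_eq_abs, ← hLq] at h2
    have h5 : (conj (q / ‖q‖) * (y - y')).re = (conj q * (y - y')).re / ‖q‖ := by
      rw [map_div₀, conj_ofReal, div_mul_eq_mul_div, div_ofReal_re]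
    rw [h5, abs_div, abs_of_pos hqn, div_le_iff₀ hqn]
    linarith

theorem t3 : S3 := by
  classical
  intro Ω u hΩ hu hn η hη
  have hG : ∀ ι, ∀ w ∈ Ω, ContDiffAt ℝ 2 (Gd u ι) w := fun ι w hw => Gd_contDiffAt hΩ hu ι hw
  set Z : (Σ m : ℕ, (Fin m → Fin 2)) → Set ℂ :=
    fun ι => {z | z ∈ Ω ∧ Gd u ι z = 0 ∧ fderiv ℝ (Gd u ι) z ≠ 0} with hZ
  have hex : ∀ ι, ∀ z, ∃ r : ℝ, z ∈ Z ι → 0 < r ∧ 2 * r ≤ η ∧ Metric.ball z r ⊆ Ω ∧
      ∃ a : ℂ, ‖a‖ = 1 ∧ Flat η a (Metric.ball z r ∩ {w | Gd u ι w = 0}) := by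
    intro ι z
    by_cases hz : z ∈ Z ι
    · obtain ⟨r, hr⟩ := exists_ball hΩ hz.1 (hG ι) hz.2.2 hη
      exact ⟨r, fun _ => hr⟩
    · exact ⟨1, fun h => absurd h hz⟩
  choose r hr using hex
  have hcov : ∀ ι, ∃ t ⊆ Z ι, t.Countable ∧ Z ι ⊆ ⋃ z ∈ t, Metric.ball z (r ι z) := by
    intro ι
    refine TopologicalSpace.countable_cover_nhdsWithin fun z hz => ?_
    exact mem_nhdsWithin_of_mem_nhds (Metric.ball_mem_nhds z (hr ι z hz).1)
  choose t htZ htc htU using hcov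
  set 𝓕 : Set (Set ℂ) := ⋃ ι, (fun z => Metric.ball z (r ι z) ∩ {w | Gd u ι w = 0}) '' t ι with h𝓕
  have h𝓕c : 𝓕.Countable := countable_iUnion fun ι => (htc ι).image _
  obtain ⟨C, hC⟩ := (h𝓕c.insert ∅).exists_eq_range (insert_nonempty _ _)
  have hCi : ∀ i, C i = ∅ ∨ ∃ ι, ∃ z ∈ t ι, C i = Metric.ball z (r ι z) ∩ {w | Gd u ι w = 0} := by
    intro i
    have h1 : C i ∈ insert ∅ 𝓕 := by rw [hC]; exact mem_range_self i
    rcases h1 with h1 | h1
    · exact Or.inl h1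
    · obtain ⟨ι, h1⟩ := mem_iUnion.1 h1
      obtain ⟨z, hz, h1⟩ := h1
      exact Or.inr ⟨ι, z, hz, h1.symm⟩
  refine ⟨C, ?_, ?_, ?_⟩
  · intro i
    rcases hCi i with h1 | ⟨ι, z, hz, h1⟩
    · rw [h1]; exact MeasurableSet.empty
    · rw [h1]
      have h2 := hr ι z (htZ ι hz)
      have h3 : ContinuousOn (Gd u ι) (Metric.ball z (r ι z)) := fun w hw =>
        (hG ι w (h2.2.2.1 hw)).continuousAt.continuousWithinAt
      have h4 := h3.isOpen_inter_preimage Metric.isOpen_ball (isOpen_compl_singleton (x := (0 : ℝ)))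
      have h5 : Metric.ball z (r ι z) ∩ {w | Gd u ι w = 0} = Metric.ball z (r ι z) \
          (Metric.ball z (r ι z) ∩ Gd u ι ⁻¹' {0}ᶜ) := by
        ext w
        simp only [mem_inter_iff, mem_ofPred_eq, Set.mem_sdiff, mem_preimage, mem_compl_iff,
          mem_singleton_iff, not_and, not_not]
        tauto
      rw [h5]
      exact Metric.isOpen_ball.measurableSet.diff h4.measurableSet
  · intro z hz
    obtain ⟨ι, h1, h2⟩ := exists_Gd hΩ hu hn hz
    have h3 : z ∈ Z ι := ⟨hz.1, h1, h2⟩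
    obtain ⟨z0, hz0, h4⟩ := mem_iUnion₂.1 (htU ι h3)
    have h5 : Metric.ball z0 (r ι z0) ∩ {w | Gd u ι w = 0} ∈ insert ∅ 𝓕 :=
      Or.inr (mem_iUnion.2 ⟨ι, mem_image_of_mem _ hz0⟩)
    rw [hC] at h5
    obtain ⟨i, hi⟩ := h5
    refine mem_iUnion.2 ⟨i, ?_⟩
    rw [hi]
    exact ⟨h4, h1⟩
  · intro i
    rcases hCi i with h1 | ⟨ι, z, hz, h1⟩
    · rw [h1]
      refine ⟨by simp, 1, by simp, ?_⟩
      intro y hy
      simp at hy
    · have h2 := hr ι z (htZ ι hz)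
      obtain ⟨a, ha, hF⟩ := h2.2.2.2
      refine ⟨?_, a, ha, ?_⟩
      · rw [h1]
        refine (Metric.ediam_mono inter_subset_left).trans ?_
        rw [← Metric.eball_ofReal]
        refine Metric.ediam_eball_le.trans ?_
        rw [← ENNReal.ofReal_ofNat, ← ENNReal.ofReal_mul (by norm_num)]
        exact ENNReal.ofReal_le_ofReal h2.2.1
      · rw [h1]
        intro y hy y' hy'
        exact hF y hy.1 y' hy'.1

end

end Pool.Agent.Q73.NL
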