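import Pool.Agent.Q73.NL.Stm

/-!
# S7: the energy inequality for test functions supported off the nodal set
-/

set_option autoImplicit false
open MeasureTheory Filter Topology Complex
open scoped ContDiff ENNReal ComplexConjugate

namespace Pool.Agent.Q73.NL

theorem int_der {X : ℂ → ℝ} (hX : ContDiff ℝ 1 X) (hc : HasCompactSupport X) (v : ℂ) :
    Integrable (fun z => fderiv ℝ X z v) ∧ ∫ z, fderiv ℝ X z v = 0 := by
  have hcont : Continuous fun z => fderiv ℝ X z v :=
    (hX.continuous_fderiv one_ne_zero).clm_apply continuous_const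
  have hcs : HasCompactSupport fun z => fderiv ℝ X z v := hc.fderiv_apply ℝ v
  have hi := hcont.integrable_of_hasCompactSupport hcs (μ := volume)
  refine ⟨hi, ?_⟩
  have h1 := integral_mul_fderiv_eq_neg_fderiv_mul_of_integrable (𝕜 := ℝ) (μ := (volume : Measure ℂ))
    (f := fun _ : ℂ => (1 : ℝ)) (g := X) (v := v) (by simp) (by simpa using hi)
    (by simpa using hX.continuous.integrable_of_hasCompactSupport hc)
    (fun _ _ => differentiableAt_const _) (fun x _ => hX.differentiable one_ne_zero x)
  simpa using h1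

theorem off_supp {f : ℂ → ℝ} {z : ℂ} (hz : z ∉ tsupport f) (g : ℂ → ℝ) :
    (fun w => f w ^ 2 / g w) =ᶠ[𝓝 z] fun _ => 0 := by
  have h1 := notMem_tsupport_iff_eventuallyEq.1 hz
  filter_upwards [h1] with w hw
  rw [hw]
  simp

theorem t7 : S7 := by
  intro Ω V u f hΩ hs hf hfc hsub
  -- smoothness of the fields
  have hX : ∀ v : ℂ, ContDiff ℝ 1 (fun z => f z ^ 2 / u z * fderiv ℝ u z v) := by
    intro v
    rw [contDiff_iff_contDiffAt]
    intro z
    by_cases hz : z ∈ tsupport f
    · obtain ⟨hzΩ, hz0⟩ := hsub hz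
      have hu : ContDiffAt ℝ ∞ u z := hs.smooth.contDiffAt (hΩ.mem_nhds hzΩ)
      have hu1 : ContDiffAt ℝ 1 (fderiv ℝ u) z := hu.fderiv_right (by norm_cast)
      exact (((hf.contDiffAt.of_le (by norm_cast)).pow 2).div
        (hu.of_le (by norm_cast)) hz0).mul (hu1.clm_apply contDiffAt_const)
    · have h1 : (fun z => f z ^ 2 / u z * fderiv ℝ u z v) =ᶠ[𝓝 z] fun _ => 0 := by
        filter_upwards [off_supp hz u] with w hw
        rw [hw, zero_mul]
      exact contDiffAt_const.congr_of_eventuallyEq h1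
  have hXc : ∀ v : ℂ, HasCompactSupport (fun z => f z ^ 2 / u z * fderiv ℝ u z v) := by
    intro v
    refine hfc.mono fun z hz => ?_
    rw [Function.mem_support] at hz ⊢
    intro h0
    apply hz
    rw [h0]
    simp
  set X1 : ℂ → ℝ := fun z => f z ^ 2 / u z * fderiv ℝ u z 1 with hX1
  set X2 : ℂ → ℝ := fun z => f z ^ 2 / u z * fderiv ℝ u z I with hX2
  obtain ⟨i1, i1'⟩ := int_der (hX 1) (hXc 1) 1
  obtain ⟨i2, i2'⟩ := int_der (hX I) (hXc I) I
  -- integrability of the right side
  have hfd : Continuous (fderiv ℝ f) := hf.continuous_fderiv (by simp)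
  have hint : Integrable fun z => dx f z ^ 2 + dy f z ^ 2 := by
    have hc : Continuous fun z => dx f z ^ 2 + dy f z ^ 2 :=
      ((hfd.clm_apply continuous_const).pow 2).add ((hfd.clm_apply continuous_const).pow 2)
    refine hc.integrable_of_hasCompactSupport ?_
    refine (hfc.fderiv (𝕜 := ℝ)).mono fun z hz => ?_
    rw [Function.mem_support] at hz ⊢
    intro h0
    apply hz
    simp [dx, dy, h0]
  by_cases hV : Integrable fun z => V z * f z ^ 2
  swap
  · rw [integral_undef hV]
    exact integral_nonneg fun z => by positivity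
  -- the pointwise inequality
  have hpt : ∀ z, V z * f z ^ 2 ≤
      dx f z ^ 2 + dy f z ^ 2 - (fderiv ℝ X1 z 1 + fderiv ℝ X2 z I) := by
    intro z
    by_cases hz : z ∈ tsupport f
    · obtain ⟨hzΩ, hz0⟩ := hsub hz
      have hu : ContDiffAt ℝ ∞ u z := hs.smooth.contDiffAt (hΩ.mem_nhds hzΩ)
      have hu1 : ContDiffAt ℝ 1 (fderiv ℝ u) z := hu.fderiv_right (by norm_cast)
      have hdu : HasFDerivAt u (fderiv ℝ u z) z := (hu.differentiableAt (by simp)).hasFDerivAt
      have hdf : HasFDerivAt f (fderiv ℝ f z) z :=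
        (hf.differentiable (by simp)).differentiableAt.hasFDerivAt
      have hddu : ∀ v : ℂ, HasFDerivAt (fun w => fderiv ℝ u w v)
          (fderiv ℝ (fun w => fderiv ℝ u w v) z) z := fun v =>
        ((hu1.differentiableAt (by simp)).clm_apply (differentiableAt_const _)).hasFDerivAt
      have hXd : ∀ v : ℂ, fderiv ℝ (fun z => f z ^ 2 / u z * fderiv ℝ u z v) z v =
          (2 * f z * fderiv ℝ f z v / u z - f z ^ 2 / u z ^ 2 * fderiv ℝ u z v) * fderiv ℝ u z v +
          f z ^ 2 / u z * fderiv ℝ (fun w => fderiv ℝ u w v) z v := by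
        intro v
        have hl : ∀ {F : ℂ → ℝ} {F' : ℂ →L[ℝ] ℝ}, HasFDerivAt F F' z →
            HasDerivAt (fun s : ℝ => F (z + s • v)) (F' v) 0 := by
          intro F F' hF
          have h1 : HasFDerivAt F F' (z + (0 : ℝ) • v) := by simpa using hF
          have h2 : HasDerivAt (fun s : ℝ => z + s • v) v 0 := by
            have := ((hasDerivAt_id (0 : ℝ)).smul_const v).const_add z
            simpa using this
          exact h1.comp_hasDerivAt (0 : ℝ) h2
        have hz0' : u (z + (0 : ℝ) • v) ≠ 0 := by simpa using hz0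
        have h1 := ((((hl hdf).pow 2).div (hl hdu) hz0').mul (hl (hddu v)))
        have h2 := hl ((hX v).differentiable one_ne_zero z).hasFDerivAt
        have h3 := h2.unique h1
        rw [h3]
        simp only [Pi.pow_apply, Pi.div_apply, zero_smul, add_zero, Nat.cast_ofNat]
        rw [show (2 : ℕ) - 1 = 1 from rfl, pow_one]
        field_simp
      have hl := hs.eq z hzΩ
      have hlap : lap u z = fderiv ℝ (fun w => fderiv ℝ u w 1) z 1 +
        fderiv ℝ (fun w => fderiv ℝ u w I) z I := rfl
      have e1 := hXd 1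
      have e2 := hXd I
      rw [← hX1] at e1
      rw [← hX2] at e2
      rw [e1, e2]
      have hkey : dx f z ^ 2 + dy f z ^ 2 -
          (((2 * f z * fderiv ℝ f z 1 / u z - f z ^ 2 / u z ^ 2 * fderiv ℝ u z 1) *
            fderiv ℝ u z 1 + f z ^ 2 / u z * fderiv ℝ (fun w => fderiv ℝ u w 1) z 1) +
          ((2 * f z * fderiv ℝ f z I / u z - f z ^ 2 / u z ^ 2 * fderiv ℝ u z I) *
            fderiv ℝ u z I + f z ^ 2 / u z * fderiv ℝ (fun w => fderiv ℝ u w I) z I)) =
          (fderiv ℝ f z 1 - f z / u z * fderiv ℝ u z 1) ^ 2 +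
            (fderiv ℝ f z I - f z / u z * fderiv ℝ u z I) ^ 2 - f z ^ 2 / u z * lap u z := by
        rw [hlap]
        simp only [dx, dy]
        field_simp
        ring
      rw [hkey]
      have h3 : f z ^ 2 / u z * lap u z = -(V z * f z ^ 2) := by
        have h4 : lap u z = -(V z * u z) := by linarith
        rw [h4]
        field_simp
      rw [h3]
      nlinarith [sq_nonneg (fderiv ℝ f z 1 - f z / u z * fderiv ℝ u z 1),
        sq_nonneg (fderiv ℝ f z I - f z / u z * fderiv ℝ u z I)]
    · have h0 : ∀ v : ℂ, fderiv ℝ (fun z => f z ^ 2 / u z * fderiv ℝ u z v) z = 0 := by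
        intro v
        have h1 : (fun z => f z ^ 2 / u z * fderiv ℝ u z v) =ᶠ[𝓝 z] fun _ => 0 := by
          filter_upwards [off_supp hz u] with w hw
          rw [hw, zero_mul]
        rw [h1.fderiv_eq]
        simp
      have h2 : f z = 0 := image_eq_zero_of_notMem_tsupport hz
      have e1 := h0 1
      have e2 := h0 I
      rw [← hX1] at e1
      rw [← hX2] at e2
      rw [e1, e2, h2]
      simp only [ContinuousLinearMap.zero_apply]
      nlinarith [sq_nonneg (dx f z), sq_nonneg (dy f z)]
  have i3 : Integrable fun z => fderiv ℝ X1 z 1 + fderiv ℝ X2 z I := i1.add i2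
  have hmono := integral_mono hV (hint.sub i3) hpt
  have hsub' : ∫ z, (dx f z ^ 2 + dy f z ^ 2 - (fderiv ℝ X1 z 1 + fderiv ℝ X2 z I)) =
      ∫ z, (dx f z ^ 2 + dy f z ^ 2) := by
    have h1 : ∫ z, (fderiv ℝ X1 z 1 + fderiv ℝ X2 z I) = 0 := by
      have := integral_add i1 i2
      rw [i1', i2', add_zero] at this
      exact this
    rw [integral_sub hint i3, h1, sub_zero]
  rw [← hsub']
  exact hmono

end Pool.Agent.Q73.NL
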