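import Pool.Agent.Q73.NL.StmU
import Pool.Agent.Q73.NL.T7

/-!
# U1: `‖g‖ ≤ 4 r ‖∂̄ g‖` in `L²`
-/

set_option autoImplicit false
open MeasureTheory Filter Topology Complex
open scoped ContDiff ENNReal ComplexConjugate

namespace Pool.Agent.Q73.NL

theorem dd_symm {a : ℂ → ℝ} (ha : ContDiff ℝ ∞ a) (z v w : ℂ) :
    fderiv ℝ (fun x => fderiv ℝ a x v) z w = fderiv ℝ (fun x => fderiv ℝ a x w) z v := by
  have h1 : ContDiff ℝ 1 (fderiv ℝ a) := ha.fderiv_right (by norm_cast)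
  have h2 : ∀ v w : ℂ, fderiv ℝ (fun x => fderiv ℝ a x v) z w = fderiv ℝ (fderiv ℝ a) z w v := by
    intro v w
    have h3 : HasFDerivAt (fun x => fderiv ℝ a x v)
        ((ContinuousLinearMap.apply ℝ ℝ v).comp (fderiv ℝ (fderiv ℝ a) z)) z :=
      (ContinuousLinearMap.apply ℝ ℝ v).hasFDerivAt.comp z
        (h1.differentiable one_ne_zero z).hasFDerivAt
    rw [h3.fderiv]
    rfl
  rw [h2, h2]
  have h4 : IsSymmSndFDerivAt ℝ a z := (ha.contDiffAt).isSymmSndFDerivAt (by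
    rw [minSmoothness_of_isRCLikeNormedField]
    norm_cast)
  exact h4 w v

theorem poinc {a : ℂ → ℝ} {r : ℝ} (hr : 0 < r) (ha : ContDiff ℝ ∞ a) (hc : HasCompactSupport a)
    (hs : ∀ z, a z ≠ 0 → ‖z‖ ≤ r) :
    ∫ z, a z ^ 2 ≤ 4 * r ^ 2 * ∫ z, fderiv ℝ a z 1 ^ 2 := by
  have hcd : Continuous (fderiv ℝ a) := ha.continuous_fderiv (by simp)
  have i1 : Integrable fun z => a z ^ 2 := by
    refine (ha.continuous.pow 2).integrable_of_hasCompactSupport (hc.mono fun z hz => ?_)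
    rw [Function.mem_support] at hz ⊢
    intro h0
    apply hz
    show a z ^ 2 = 0
    rw [h0]
    norm_num
  have i2 : Integrable fun z => fderiv ℝ a z 1 ^ 2 := by
    refine ((hcd.clm_apply continuous_const).pow 2).integrable_of_hasCompactSupport
      ((hc.fderiv (𝕜 := ℝ)).mono fun z hz => ?_)
    rw [Function.mem_support] at hz ⊢
    intro h0
    apply hz
    show fderiv ℝ a z 1 ^ 2 = 0
    rw [h0]
    simp
  have hX : ContDiff ℝ 1 fun z : ℂ => z.re * a z ^ 2 :=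
    (reCLM.contDiff).mul ((ha.of_le (by norm_cast)).pow 2)
  have hXc : HasCompactSupport fun z : ℂ => z.re * a z ^ 2 := by
    refine hc.mono fun z hz => ?_
    rw [Function.mem_support] at hz ⊢
    intro h0
    apply hz
    show z.re * a z ^ 2 = 0
    rw [h0]
    simp
  obtain ⟨i3, i3'⟩ := int_der hX hXc 1
  have hder : ∀ z, fderiv ℝ (fun z : ℂ => z.re * a z ^ 2) z 1 =
      a z ^ 2 + 2 * z.re * a z * fderiv ℝ a z 1 := by
    intro z
    have h1 : HasFDerivAt (fun z : ℂ => z.re * a z ^ 2) _ z :=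
      (reCLM.hasFDerivAt (x := z)).mul (((ha.differentiable (by simp)) z).hasFDerivAt.pow 2)
    rw [h1.fderiv]
    simp
    ring
  have hpt : ∀ z, a z ^ 2 ≤ 2 * fderiv ℝ (fun z : ℂ => z.re * a z ^ 2) z 1 +
      4 * r ^ 2 * fderiv ℝ a z 1 ^ 2 := by
    intro z
    rw [hder]
    by_cases h0 : a z = 0
    · rw [h0]
      have : 0 ≤ 4 * r ^ 2 * fderiv ℝ a z 1 ^ 2 := by positivity
      norm_num
      positivity
    · have h1 : |z.re| ≤ r := (abs_re_le_norm z).trans (hs z h0)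
      have h2 : |z.re * fderiv ℝ a z 1| ≤ r * |fderiv ℝ a z 1| := by
        rw [abs_mul]
        exact mul_le_mul_of_nonneg_right h1 (abs_nonneg _)
      have h3 : (z.re * fderiv ℝ a z 1) ^ 2 ≤ r ^ 2 * fderiv ℝ a z 1 ^ 2 := by
        rw [← sq_abs (z.re * _), ← sq_abs (fderiv ℝ a z 1), ← mul_pow]
        exact pow_le_pow_left₀ (abs_nonneg _) h2 2
      nlinarith [sq_nonneg (a z + 2 * (z.re * fderiv ℝ a z 1))]
  have h1 := integral_mono i1 ((i3.const_mul 2).add (i2.const_mul (4 * r ^ 2))) hpt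
  have h2 : ∫ z, (2 * fderiv ℝ (fun z : ℂ => z.re * a z ^ 2) z 1 +
      4 * r ^ 2 * fderiv ℝ a z 1 ^ 2) = 4 * r ^ 2 * ∫ z, fderiv ℝ a z 1 ^ 2 := by
    rw [integral_add (i3.const_mul 2) (i2.const_mul (4 * r ^ 2)), integral_const_mul,
      integral_const_mul, i3', mul_zero, zero_add]
  rw [← h2]
  exact h1

theorem tu1 : U1 := by
  intro r g hr hg hsup
  have hgc : HasCompactSupport g :=
    (isCompact_closedBall (0 : ℂ) r).of_isClosed_subset (isClosed_tsupport g)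
      (hsup.trans Metric.ball_subset_closedBall)
  set a : ℂ → ℝ := fun z => (g z).re with ha
  set b : ℂ → ℝ := fun z => (g z).im with hb
  have hac : ContDiff ℝ ∞ a := reCLM.contDiff.comp hg
  have hbc : ContDiff ℝ ∞ b := imCLM.contDiff.comp hg
  have has : HasCompactSupport a := hgc.mono fun z hz => by
    rw [Function.mem_support] at hz ⊢
    intro h0
    apply hz
    show (g z).re = 0
    rw [h0]
    rfl
  have hbs : HasCompactSupport b := hgc.mono fun z hz => by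
    rw [Function.mem_support] at hz ⊢
    intro h0
    apply hz
    show (g z).im = 0
    rw [h0]
    rfl
  have hnorm : ∀ z, g z ≠ 0 → ‖z‖ ≤ r := by
    intro z hz
    have h1 : z ∈ Metric.ball (0 : ℂ) r := hsup (subset_tsupport g hz)
    rw [mem_ball_zero_iff] at h1
    exact h1.le
  have hA := poinc hr hac has fun z hz => hnorm z fun h0 => hz (by
    show (g z).re = 0
    rw [h0]
    rfl)
  have hB := poinc hr hbc hbs fun z hz => hnorm z fun h0 => hz (by
    show (g z).im = 0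
    rw [h0]
    rfl)
  have hda : Continuous (fderiv ℝ a) := hac.continuous_fderiv (by simp)
  have hdb : Continuous (fderiv ℝ b) := hbc.continuous_fderiv (by simp)
  have isq : ∀ {k : ℂ → ℝ}, Continuous k → HasCompactSupport k → Integrable fun z => k z ^ 2 := by
    intro k hk hkc
    refine (hk.pow 2).integrable_of_hasCompactSupport (hkc.mono fun z hz => ?_)
    rw [Function.mem_support] at hz ⊢
    intro h0
    apply hz
    show k z ^ 2 = 0
    rw [h0]
    norm_num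
  have ia := isq hac.continuous has
  have ib := isq hbc.continuous hbs
  have iax := isq (hda.clm_apply continuous_const) (has.fderiv_apply ℝ (1 : ℂ))
  have ibx := isq (hdb.clm_apply continuous_const) (hbs.fderiv_apply ℝ (1 : ℂ))
  -- the divergence
  have hX : ∀ v : ℂ, ContDiff ℝ 1 fun z => b z * fderiv ℝ a z v := by
    intro v
    have h1 : ContDiff ℝ 1 (fderiv ℝ a) := hac.fderiv_right (by norm_cast)
    exact (hbc.of_le (by norm_cast)).mul (h1.clm_apply contDiff_const)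
  have hXc : ∀ v : ℂ, HasCompactSupport fun z => b z * fderiv ℝ a z v := fun v => hbs.mul_right
  obtain ⟨i1, i1'⟩ := int_der (hX I) (hXc I) 1
  obtain ⟨i2, i2'⟩ := int_der (hX 1) (hXc 1) I
  have hXd : ∀ z v w, fderiv ℝ (fun z => b z * fderiv ℝ a z v) z w =
      fderiv ℝ b z w * fderiv ℝ a z v + b z * fderiv ℝ (fun x => fderiv ℝ a x v) z w := by
    intro z v w
    have h1 : ContDiff ℝ 1 (fderiv ℝ a) := hac.fderiv_right (by norm_cast)
    have h2 : HasFDerivAt (fun x => fderiv ℝ a x v) (fderiv ℝ (fun x => fderiv ℝ a x v) z) z :=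
      (((h1.differentiable one_ne_zero) z).clm_apply (differentiableAt_const _)).hasFDerivAt
    have h3 : HasFDerivAt (fun z => b z * fderiv ℝ a z v) _ z :=
      ((hbc.differentiable (by simp)) z).hasFDerivAt.mul h2
    rw [h3.fderiv]
    simp
    ring
  have hgd : ∀ z v, fderiv ℝ g z v = (fderiv ℝ a z v : ℂ) + (fderiv ℝ b z v : ℂ) * I := by
    intro z v
    have h1 : HasFDerivAt g (fderiv ℝ g z) z := ((hg.differentiable (by simp)) z).hasFDerivAt
    have h2 : HasFDerivAt a (reCLM.comp (fderiv ℝ g z)) z := reCLM.hasFDerivAt.comp z h1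
    have h3 : HasFDerivAt b (imCLM.comp (fderiv ℝ g z)) z := imCLM.hasFDerivAt.comp z h1
    rw [h2.fderiv, h3.fderiv]
    exact (re_add_im _).symm
  have hdbn : ∀ z, 4 * ‖db g z‖ ^ 2 = (fderiv ℝ a z 1 - fderiv ℝ b z I) ^ 2 +
      (fderiv ℝ b z 1 + fderiv ℝ a z I) ^ 2 := by
    intro z
    have h1 : db g z = (((fderiv ℝ a z 1 - fderiv ℝ b z I) / 2 : ℝ) : ℂ) +
        (((fderiv ℝ b z 1 + fderiv ℝ a z I) / 2 : ℝ) : ℂ) * I := by
      unfold db
      rw [hgd, hgd]
      push_cast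
      linear_combination (fderiv ℝ b z I : ℂ) / 2 * I_sq
    rw [h1, ← Complex.normSq_eq_norm_sq, Complex.normSq_add_mul_I]
    ring
  have idb : Integrable fun z => ‖db g z‖ ^ 2 := by
    have h1 : (fun z => ‖db g z‖ ^ 2) = fun z => ((fderiv ℝ a z 1 - fderiv ℝ b z I) ^ 2 +
      (fderiv ℝ b z 1 + fderiv ℝ a z I) ^ 2) / 4 := by
      funext z
      rw [← hdbn]
      ring
    rw [h1]
    refine Integrable.div_const (Integrable.add ?_ ?_) 4
    · exact isq ((hda.clm_apply continuous_const).sub (hdb.clm_apply continuous_const))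
        ((has.fderiv_apply ℝ (1 : ℂ)).sub (hbs.fderiv_apply ℝ I))
    · exact isq ((hdb.clm_apply continuous_const).add (hda.clm_apply continuous_const))
        ((hbs.fderiv_apply ℝ (1 : ℂ)).add (has.fderiv_apply ℝ I))
  have hpt : ∀ z, fderiv ℝ a z 1 ^ 2 + fderiv ℝ b z 1 ^ 2 ≤ 4 * ‖db g z‖ ^ 2 -
      2 * (fderiv ℝ (fun z => b z * fderiv ℝ a z I) z 1 -
        fderiv ℝ (fun z => b z * fderiv ℝ a z 1) z I) := by
    intro z
    rw [hdbn, hXd, hXd, dd_symm hac z I 1]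
    nlinarith [sq_nonneg (fderiv ℝ a z I), sq_nonneg (fderiv ℝ b z I)]
  have i3 : Integrable fun z => fderiv ℝ (fun z => b z * fderiv ℝ a z I) z 1 -
        fderiv ℝ (fun z => b z * fderiv ℝ a z 1) z I := i1.sub i2
  have h1 := integral_mono (iax.add ibx) ((idb.const_mul 4).sub (i3.const_mul 2)) hpt
  have h2 : ∫ z, (4 * ‖db g z‖ ^ 2 -
      2 * (fderiv ℝ (fun z => b z * fderiv ℝ a z I) z 1 -
        fderiv ℝ (fun z => b z * fderiv ℝ a z 1) z I)) = 4 * ∫ z, ‖db g z‖ ^ 2 := by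
    rw [integral_sub (idb.const_mul 4) (i3.const_mul 2), integral_const_mul, integral_const_mul,
      integral_sub i1 i2, i1', i2']
    ring
  have h3 : (∫ z, fderiv ℝ a z 1 ^ 2) + ∫ z, fderiv ℝ b z 1 ^ 2 ≤ 4 * ∫ z, ‖db g z‖ ^ 2 := by
    rw [← h2, ← integral_add iax ibx]
    exact h1
  have h4 : ∫ z, ‖g z‖ ^ 2 = (∫ z, a z ^ 2) + ∫ z, b z ^ 2 := by
    rw [← integral_add ia ib]
    refine integral_congr_ae (Eventually.of_forall fun z => ?_)
    show ‖g z‖ ^ 2 = (g z).re ^ 2 + (g z).im ^ 2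
    rw [← Complex.normSq_eq_norm_sq, Complex.normSq_apply]
    ring
  rw [h4]
  have hr2 : 0 ≤ 4 * r ^ 2 := by positivity
  calc (∫ z, a z ^ 2) + ∫ z, b z ^ 2
      ≤ (4 * r ^ 2 * ∫ z, fderiv ℝ a z 1 ^ 2) + 4 * r ^ 2 * ∫ z, fderiv ℝ b z 1 ^ 2 :=
        add_le_add hA hB
    _ = 4 * r ^ 2 * ((∫ z, fderiv ℝ a z 1 ^ 2) + ∫ z, fderiv ℝ b z 1 ^ 2) := by ring
    _ ≤ 4 * r ^ 2 * (4 * ∫ z, ‖db g z‖ ^ 2) := mul_le_mul_of_nonneg_left h3 hr2
    _ = 16 * r ^ 2 * ∫ z, ‖db g z‖ ^ 2 := by ring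

end Pool.Agent.Q73.NL
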