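import Pool.Agent.Q73.NL.StmD
import Pool.Agent.Q73.NL.T3
import Pool.Agent.Q73.NL.TU1

/-!
# D1: the singular zeros are countable
-/

set_option autoImplicit false
open MeasureTheory Filter Topology Complex
open scoped ContDiff ENNReal

namespace Pool.Agent.Q73.NL

theorem dd_smooth {f : ℂ → ℝ} (hf : ContDiff ℝ ∞ f) (v : ℂ) : ContDiff ℝ ∞ fun z => fderiv ℝ f z v :=
  (hf.fderiv_right (m := ∞) (by simp)).clm_apply contDiff_const

theorem dx_smooth {f : ℂ → ℝ} (hf : ContDiff ℝ ∞ f) : ContDiff ℝ ∞ (dx f) := dd_smooth hf 1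

theorem dy_smooth {f : ℂ → ℝ} (hf : ContDiff ℝ ∞ f) : ContDiff ℝ ∞ (dy f) := dd_smooth hf I

theorem dx_dy {f : ℂ → ℝ} (hf : ContDiff ℝ ∞ f) (z : ℂ) : dx (dy f) z = dy (dx f) z :=
  dd_symm hf z I 1

/-- the iterated `x`-derivatives -/
noncomputable def Vn (u : ℂ → ℝ) (n : ℕ) : ℂ → ℝ := dx^[n] u

theorem Vn_succ (u : ℂ → ℝ) (n : ℕ) : Vn u (n + 1) = dx (Vn u n) := Function.iterate_succ_apply' dx n u

theorem Vn_smooth {u : ℂ → ℝ} (hu : ContDiff ℝ ∞ u) (n : ℕ) : ContDiff ℝ ∞ (Vn u n) := by
  induction n with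
  | zero => exact hu
  | succ n ih => rw [Vn_succ]; exact dx_smooth ih

theorem Vn_eq {u : ℂ → ℝ} {lam : ℝ} (hu : ContDiff ℝ ∞ u) (he : ∀ z, lap u z + lam * u z = 0) (n : ℕ) :
    ∀ z, dy (dy (Vn u n)) z = -Vn u (n + 2) z - lam * Vn u n z := by
  induction n with
  | zero =>
    intro z
    have h1 := he z
    unfold lap at h1
    have h2 : Vn u (0 + 2) z = dx (dx u) z := rfl
    have h3 : Vn u 0 = u := rfl
    rw [h2, h3]
    linarith
  | succ n ih =>
    intro z
    have hV := Vn_smooth hu n
    have h1 : dy (dy (Vn u (n + 1))) z = dx (dy (dy (Vn u n))) z := by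
      rw [Vn_succ]
      have h2 : dy (dx (Vn u n)) = dx (dy (Vn u n)) := by
        funext w
        exact (dx_dy hV w).symm
      rw [h2, dx_dy (dy_smooth hV)]
    rw [h1]
    have h3 : dy (dy (Vn u n)) = fun z => -Vn u (n + 2) z - lam * Vn u n z := funext ih
    rw [h3]
    have d1 : DifferentiableAt ℝ (Vn u (n + 2)) z := (Vn_smooth hu _).differentiable (by simp) z
    have d2 : DifferentiableAt ℝ (Vn u n) z := (Vn_smooth hu _).differentiable (by simp) z
    have h4 : dx (fun z => -Vn u (n + 2) z - lam * Vn u n z) z =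
        -dx (Vn u (n + 2)) z - lam * dx (Vn u n) z := by
      unfold dx
      have h5 : HasFDerivAt (fun z => -Vn u (n + 2) z - lam * Vn u n z)
          (-fderiv ℝ (Vn u (n + 2)) z - lam • fderiv ℝ (Vn u n) z) z :=
        d1.hasFDerivAt.fun_neg.fun_sub (d2.hasFDerivAt.const_mul lam)
      rw [h5.fderiv]
      rfl
    rw [h4, ← Vn_succ, ← Vn_succ]

/-- the span of the derivatives `Vn`, `dy Vn` -/
noncomputable def SpV (u : ℂ → ℝ) : Submodule ℝ (ℂ → ℝ) :=
  Submodule.span ℝ (Set.range (Vn u) ∪ Set.range fun n => dy (Vn u n))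

theorem SpV_closed {u : ℂ → ℝ} {lam : ℝ} (hu : ContDiff ℝ ∞ u) (he : ∀ z, lap u z + lam * u z = 0)
    {f : ℂ → ℝ} (hf : f ∈ SpV u) : ContDiff ℝ ∞ f ∧ dx f ∈ SpV u ∧ dy f ∈ SpV u := by
  have hV : ∀ n, Vn u n ∈ SpV u := fun n => Submodule.subset_span (Or.inl ⟨n, rfl⟩)
  have hW : ∀ n, dy (Vn u n) ∈ SpV u := fun n => Submodule.subset_span (Or.inr ⟨n, rfl⟩)
  refine Submodule.span_induction ?_ ?_ ?_ ?_ hf
  · rintro g (⟨n, rfl⟩ | ⟨n, rfl⟩)
    · refine ⟨Vn_smooth hu n, ?_, hW n⟩
      rw [← Vn_succ]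
      exact hV _
    · refine ⟨dy_smooth (Vn_smooth hu n), ?_, ?_⟩
      · have h1 : dx (dy (Vn u n)) = dy (Vn u (n + 1)) := by
          rw [Vn_succ]
          exact funext fun z => dx_dy (Vn_smooth hu n) z
        simp only [h1]
        exact hW _
      · have h1 : dy (dy (Vn u n)) = -Vn u (n + 2) - lam • Vn u n := by
          funext z
          rw [Vn_eq hu he n z]
          simp
        simp only [h1]
        exact Submodule.sub_mem _ (Submodule.neg_mem _ (hV _)) (Submodule.smul_mem _ _ (hV _))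
  · refine ⟨contDiff_const, ?_, ?_⟩
    · have : dx (0 : ℂ → ℝ) = 0 := by
        funext z
        simp [dx]
      rw [this]
      exact Submodule.zero_mem _
    · have : dy (0 : ℂ → ℝ) = 0 := by
        funext z
        simp [dy]
      rw [this]
      exact Submodule.zero_mem _
  · rintro f g - - ⟨h1, h2, h3⟩ ⟨h4, h5, h6⟩
    refine ⟨h1.add h4, ?_, ?_⟩
    · have : dx (f + g) = dx f + dx g := by
        funext z
        simp only [dx, Pi.add_apply]
        rw [fderiv_add (h1.differentiable (by simp) z) (h4.differentiable (by simp) z)]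
        rfl
      rw [this]
      exact Submodule.add_mem _ h2 h5
    · have : dy (f + g) = dy f + dy g := by
        funext z
        simp only [dy, Pi.add_apply]
        rw [fderiv_add (h1.differentiable (by simp) z) (h4.differentiable (by simp) z)]
        rfl
      rw [this]
      exact Submodule.add_mem _ h3 h6
  · rintro c f - ⟨h1, h2, h3⟩
    refine ⟨h1.const_smul c, ?_, ?_⟩
    · have : dx (c • f) = c • dx f := by
        funext z
        simp only [dx, Pi.smul_apply]
        rw [fderiv_const_smul (h1.differentiable (by simp) z)]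
        rfl
      rw [this]
      exact Submodule.smul_mem _ _ h2
    · have : dy (c • f) = c • dy f := by
        funext z
        simp only [dy, Pi.smul_apply]
        rw [fderiv_const_smul (h1.differentiable (by simp) z)]
        rfl
      rw [this]
      exact Submodule.smul_mem _ _ h3

theorem Gd_mem {u : ℂ → ℝ} {lam : ℝ} (hu : ContDiff ℝ ∞ u) (he : ∀ z, lap u z + lam * u z = 0) (m : ℕ) :
    ∀ v : Fin m → Fin 2, (fun w => iteratedFDeriv ℝ m u w fun i => basisOneI (v i)) ∈ SpV u := by
  induction m with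
  | zero =>
    intro v
    have : (fun w => iteratedFDeriv ℝ 0 u w fun i => basisOneI (v i)) = Vn u 0 := by
      funext w
      rw [iteratedFDeriv_zero_apply]
      rfl
    rw [this]
    exact Submodule.subset_span (Or.inl ⟨0, rfl⟩)
  | succ m ih =>
    intro v
    have h1 := ih (Fin.tail v)
    have hd : ∀ z, DifferentiableAt ℝ (iteratedFDeriv ℝ m u) z := fun z =>
      (hu.differentiable_iteratedFDeriv (by exact_mod_cast WithTop.coe_lt_top m)) z
    have h2 : (fun w => iteratedFDeriv ℝ (m + 1) u w fun i => basisOneI (v i)) =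
        fun w => fderiv ℝ (fun y => iteratedFDeriv ℝ m u y fun i => basisOneI (Fin.tail v i)) w
          (basisOneI (v 0)) := by
      funext w
      rw [(hd w).iteratedFDeriv_succ_apply_left']
      rfl
    rw [h2]
    have h3 := SpV_closed hu he h1
    rcases Fin.exists_fin_two.1 ⟨v 0, rfl⟩ with h | h
    · rw [h]
      have h4 : basisOneI (0 : Fin 2) = (1 : ℂ) := by simp
      rw [h4]
      exact h3.2.1
    · rw [h]
      have h4 : basisOneI (1 : Fin 2) = I := by simp
      rw [h4]
      exact h3.2.2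

theorem exists_V {u : ℂ → ℝ} {lam : ℝ} (hu : ContDiff ℝ ∞ u) (he : ∀ z, lap u z + lam * u z = 0)
    (hn : NoFlat Set.univ u) (z : ℂ) : ∃ n, Vn u n z ≠ 0 ∨ dy (Vn u n) z ≠ 0 := by
  by_contra hc
  push Not at hc
  obtain ⟨n, h⟩ := hn z trivial
  apply h
  have h0 : ∀ f ∈ SpV u, f z = 0 := by
    intro f hf
    refine Submodule.span_induction (p := fun f _ => f z = 0) ?_ rfl ?_ ?_ hf
    · rintro g (⟨n, rfl⟩ | ⟨n, rfl⟩)
      · exact (hc n).1
      · exact (hc n).2
    · intro f g _ _ h1 h2
      rw [Pi.add_apply, h1, h2, add_zero]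
    · intro c f _ h1
      rw [Pi.smul_apply, h1, smul_zero]
  have h3 : (iteratedFDeriv ℝ n u z).toMultilinearMap = 0 :=
    Module.Basis.ext_multilinear (fun _ => basisOneI) (fun v => h0 _ (Gd_mem hu he n v))
  ext v
  exact congrFun (congrArg DFunLike.coe h3) v

theorem td1 : D1 := by
  classical
  intro u lam hu he hn
  set S : ℕ → Set ℂ := fun N => {z | Vn u (N + 1) z = 0 ∧ dy (Vn u N) z = 0 ∧ Vn u N z = 0 ∧
    (Vn u (N + 2) z ≠ 0 ∨ dy (Vn u (N + 1)) z ≠ 0)} with hS
  have hsub : {z | u z = 0 ∧ dx u z = 0 ∧ dy u z = 0} ⊆ ⋃ N, S N := by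
    rintro z ⟨h0, h1, h2⟩
    have hex : ∃ n, Vn u (n + 1) z ≠ 0 ∨ dy (Vn u n) z ≠ 0 := by
      obtain ⟨n, h | h⟩ := exists_V hu he hn z
      · rcases n with _ | n
        · exact absurd h0 h
        · exact ⟨n, Or.inl h⟩
      · exact ⟨n, Or.inr h⟩
    have hN := Nat.find_spec hex
    have hmin : ∀ m < Nat.find hex, Vn u (m + 1) z = 0 ∧ dy (Vn u m) z = 0 := fun m hm => by
      have := Nat.find_min hex hm
      push Not at this
      exact this
    rcases hf : Nat.find hex with _ | N
    · rw [hf] at hN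
      exfalso
      rcases hN with h | h
      · exact h h1
      · exact h h2
    · rw [hf] at hN hmin
      refine Set.mem_iUnion.2 ⟨N, (hmin N (Nat.lt_succ_self N)).1, (hmin N (Nat.lt_succ_self N)).2, ?_, hN⟩
      rcases N with _ | N
      · exact h0
      · exact (hmin N (by omega)).1
  refine (Set.countable_iUnion fun N => ?_).mono hsub
  have hd : DiscreteTopology (S N) := by
    rw [discreteTopology_subtype_iff]
    intro z hz
    obtain ⟨h1, h2, h3, h4⟩ := hz
    set A := Vn u (N + 2) z with hA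
    set B := dy (Vn u (N + 1)) z with hB
    have hc : (A : ℂ) - I * B ≠ 0 := by
      intro h
      have h5 := congrArg Complex.re h
      have h6 := congrArg Complex.im h
      simp at h5 h6
      rcases h4 with h4 | h4
      · exact h4 h5
      · exact h4 h6
    have hder : HasDerivAt (fun w => (Vn u (N + 1) w : ℂ) - I * (dy (Vn u N) w : ℂ)) ((A : ℂ) - I * B) z := by
      have d1 : HasFDerivAt (Vn u (N + 1)) (fderiv ℝ (Vn u (N + 1)) z) z :=
        ((Vn_smooth hu _).differentiable (by simp) z).hasFDerivAt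
      have d2 : HasFDerivAt (dy (Vn u N)) (fderiv ℝ (dy (Vn u N)) z) z :=
        ((dy_smooth (Vn_smooth hu _)).differentiable (by simp) z).hasFDerivAt
      have d3 := (ofRealCLM.hasFDerivAt.comp z d1).sub ((ofRealCLM.hasFDerivAt.comp z d2).const_mul I)
      rw [hasDerivAt_iff_hasFDerivAt]
      refine (hasFDerivAt_of_restrictScalars ℝ d3 ?_)
      ext v
      have hv : v = v.re • (1 : ℂ) + v.im • I := by
        apply Complex.ext <;> simp
      have e1 : fderiv ℝ (Vn u (N + 1)) z v = v.re * A + v.im * B := by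
        conv_lhs => rw [hv]
        rw [map_add, map_smul, map_smul, smul_eq_mul, smul_eq_mul]
        have e3 : fderiv ℝ (Vn u (N + 1)) z 1 = A := by
          rw [hA, Vn_succ u (N + 1)]
          rfl
        have e4 : fderiv ℝ (Vn u (N + 1)) z I = B := rfl
        rw [e3, e4]
      have e2 : fderiv ℝ (dy (Vn u N)) z v = v.re * B - v.im * A := by
        conv_lhs => rw [hv]
        rw [map_add, map_smul, map_smul, smul_eq_mul, smul_eq_mul]
        have e3 : fderiv ℝ (dy (Vn u N)) z 1 = B := by
          rw [hB, Vn_succ u N]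
          exact dx_dy (Vn_smooth hu N) z
        have e4 : fderiv ℝ (dy (Vn u N)) z I = -A := by
          have := Vn_eq hu he N z
          rw [h3, mul_zero, sub_zero] at this
          exact this
        rw [e3, e4]
        ring
      simp [e1, e2]
      apply Complex.ext
      · simp
      · simp
        ring
    have hev := hder.eventually_ne (c := 0) hc
    rw [← disjoint_iff]
    rw [disjoint_principal_right]
    filter_upwards [hev] with w hw hwS
    apply hw
    rw [hwS.1, hwS.2.1]
    simp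
  exact Set.countable_coe_iff.1 (countable_of_Lindelof_of_discrete (X := S N))

end Pool.Agent.Q73.NL
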