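import Pool.Agent.Q73.NL.StmU

/-!
# U2: bounds near a zero of infinite order
-/

set_option autoImplicit false
open MeasureTheory Filter Topology Complex
open scoped ContDiff ENNReal ComplexConjugate

namespace Pool.Agent.Q73.NL

theorem diff_iter {u : ℂ → ℝ} {p : ℂ} (hu : ContDiffAt ℝ ∞ u p) (k : ℕ) :
    ∀ᶠ z in 𝓝 p, DifferentiableAt ℝ (iteratedFDeriv ℝ k u) z := by
  have h1 : ContDiffAt ℝ ((k + 1 : ℕ) : WithTop ℕ∞) u p := hu.of_le (by
    exact_mod_cast le_top)
  have h2 : ∀ᶠ z in 𝓝 p, ContDiffAt ℝ ((k + 1 : ℕ) : WithTop ℕ∞) u z := h1.eventually (by simp)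
  filter_upwards [h2] with z hz
  exact hz.differentiableAt_iteratedFDeriv (by exact_mod_cast Nat.lt_succ_self k)

theorem tu2 : U2 := by
  intro u p hu h0 n
  induction n with
  | zero =>
    intro k
    have h1 := (diff_iter hu k).self_of_nhds.continuousAt
    have h2 : ∀ᶠ z in 𝓝 p, ‖iteratedFDeriv ℝ k u z‖ < 1 := by
      have h3 := h1.norm
      rw [ContinuousAt, h0 k, norm_zero] at h3
      exact h3.eventually (gt_mem_nhds one_pos)
    obtain ⟨r, hr, h4⟩ := Metric.eventually_nhds_iff_ball.1 h2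
    exact ⟨1, r, one_pos, hr, fun z hz => by
      rw [pow_zero, mul_one]
      exact (h4 z hz).le⟩
  | succ n ih =>
    intro k
    obtain ⟨C, r, hC, hr, hb⟩ := ih (k + 1)
    obtain ⟨r', hr', hd⟩ := Metric.eventually_nhds_iff_ball.1 (diff_iter hu k)
    refine ⟨C, min r r', hC, lt_min hr hr', fun z hz => ?_⟩
    have hz1 : ‖z - p‖ < min r r' := by rwa [← dist_eq_norm]
    have h1 := (convex_closedBall p ‖z - p‖).norm_image_sub_le_of_norm_fderiv_le (𝕜 := ℝ)
      (f := iteratedFDeriv ℝ k u) (C := C * ‖z - p‖ ^ n) (x := p) (y := z) (fun w hw => by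
        refine hd w ?_
        rw [Metric.mem_closedBall] at hw
        rw [Metric.mem_ball]
        exact hw.trans_lt (hz1.trans_le (min_le_right _ _))) (fun w hw => by
        rw [Metric.mem_closedBall] at hw
        rw [norm_fderiv_iteratedFDeriv]
        refine (hb w ?_).trans ?_
        · rw [Metric.mem_ball]
          exact hw.trans_lt (hz1.trans_le (min_le_left _ _))
        · rw [dist_eq_norm] at hw
          exact mul_le_mul_of_nonneg_left (pow_le_pow_left₀ (norm_nonneg _) hw n) hC.le)
      (Metric.mem_closedBall_self (norm_nonneg _)) (by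
        rw [Metric.mem_closedBall, dist_eq_norm])
    rw [h0 k, sub_zero] at h1
    rw [pow_succ, ← mul_assoc]
    exact h1

end Pool.Agent.Q73.NL
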