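import Pool.Agent.Q73.NL.TU1
import Pool.Agent.Q73.NL.TU2

/-!
# U3: strong unique continuation
-/

set_option autoImplicit false
open MeasureTheory Filter Topology Complex
open scoped ContDiff ENNReal ComplexConjugate

namespace Pool.Agent.Q73.NL

/-! ### The operator `∂̄` -/

theorem db_mul {f g : ℂ → ℂ} {z : ℂ} (hf : DifferentiableAt ℝ f z) (hg : DifferentiableAt ℝ g z) :
    db (fun w => f w * g w) z = f z * db g z + db f z * g z := by
  unfold db
  rw [fderiv_fun_mul hf hg]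
  simp only [ContinuousLinearMap.add_apply, ContinuousLinearMap.smul_apply, smul_eq_mul]
  ring

theorem db_hol {g : ℂ → ℂ} {z : ℂ} (hg : DifferentiableAt ℂ g z) : db g z = 0 := by
  unfold db
  rw [hg.fderiv_restrictScalars ℝ]
  simp only [ContinuousLinearMap.coe_restrictScalars']
  have h1 : fderiv ℂ g z I = I * fderiv ℂ g z 1 := by
    have := (fderiv ℂ g z).map_smul I 1
    rwa [smul_eq_mul, mul_one, smul_eq_mul] at this
  rw [h1, ← mul_assoc, I_mul_I]
  ring

theorem fderiv_ofReal {k : ℂ → ℝ} {z : ℂ} (hk : DifferentiableAt ℝ k z) (v : ℂ) :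
    fderiv ℝ (fun w => (k w : ℂ)) z v = (fderiv ℝ k z v : ℂ) := by
  have h1 : HasFDerivAt (fun w => (k w : ℂ)) (ofRealCLM.comp (fderiv ℝ k z)) z :=
    ofRealCLM.hasFDerivAt.comp z hk.hasFDerivAt
  rw [h1.fderiv]
  rfl

theorem norm_half (L : ℂ →L[ℝ] ℝ) : ‖((L 1 : ℂ) + I * (L I : ℂ)) / 2‖ ≤ ‖L‖ ∧
    ‖((L 1 : ℂ) - I * (L I : ℂ)) / 2‖ ≤ ‖L‖ := by
  have h1 : ‖(L 1 : ℂ)‖ ≤ ‖L‖ := by
    rw [Complex.norm_real]
    simpa using L.le_opNorm 1
  have h2 : ‖I * (L I : ℂ)‖ ≤ ‖L‖ := by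
    rw [norm_mul, norm_I, one_mul, Complex.norm_real]
    simpa using L.le_opNorm I
  have h3 : ‖(2 : ℂ)‖ = 2 := by simp
  constructor
  · rw [norm_div, h3, div_le_iff₀ (by norm_num)]
    exact (norm_add_le _ _).trans (by linarith)
  · rw [norm_div, h3, div_le_iff₀ (by norm_num)]
    exact (norm_sub_le _ _).trans (by linarith)

theorem u1' (h1 : U1) (z0 : ℂ) {r : ℝ} (hr : 0 < r) {g : ℂ → ℂ} (hg : ContDiff ℝ ∞ g)
    (hs : tsupport g ⊆ Metric.ball z0 r) :
    ∫ z, ‖g z‖ ^ 2 ≤ 16 * r ^ 2 * ∫ z, ‖db g z‖ ^ 2 := by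
  have hc : Continuous fun w : ℂ => z0 + w := continuous_const.add continuous_id
  have h2 := h1 r (fun w => g (z0 + w)) hr (hg.comp (contDiff_const.add contDiff_id)) (by
    intro w hw
    have h3 := hs (tsupport_comp_subset_preimage g hc hw)
    rw [Metric.mem_ball, dist_eq_norm] at h3
    rw [mem_ball_zero_iff]
    simpa using h3)
  have h3 : ∀ w, db (fun w => g (z0 + w)) w = db g (z0 + w) := by
    intro w
    unfold db
    rw [fderiv_comp_add_left]
  simp only [h3] at h2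
  rw [integral_add_left_eq_self (fun w => ‖g w‖ ^ 2) z0,
    integral_add_left_eq_self (fun w => ‖db g w‖ ^ 2) z0] at h2
  exact h2

/-! ### Functions with support in a closed set -/

theorem cont_of_supp {F : Type} [NormedAddCommGroup F] {K : Set ℂ} (hK : IsClosed K) {f : ℂ → F}
    (h1 : ∀ z ∈ K, ContinuousAt f z) (h2 : ∀ z ∉ K, f z = 0) : Continuous f := by
  rw [continuous_iff_continuousAt]
  intro z
  by_cases hz : z ∈ K
  · exact h1 z hz
  · have : f =ᶠ[𝓝 z] fun _ => 0 := by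
      filter_upwards [hK.isOpen_compl.mem_nhds hz] with w hw using h2 w hw
    exact continuousAt_const.congr this.symm

theorem int_of_supp {K : Set ℂ} (hK : IsCompact K) {f : ℂ → ℝ}
    (h1 : ∀ z ∈ K, ContinuousAt f z) (h2 : ∀ z ∉ K, f z = 0) : Integrable f := by
  refine (cont_of_supp hK.isClosed h1 h2).integrable_of_hasCompactSupport ?_
  exact HasCompactSupport.intro hK fun z hz => h2 z hz

/-! ### The two components -/

/-- `∂u` -/
noncomputable def Pf (u : ℂ → ℝ) (z : ℂ) : ℂ := ((fderiv ℝ u z 1 : ℂ) - I * (fderiv ℝ u z I : ℂ)) / 2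

/-- the density -/
noncomputable def Sf (u : ℂ → ℝ) (z : ℂ) : ℝ := ‖Pf u z‖ ^ 2 + u z ^ 2

theorem Sf_nonneg (u : ℂ → ℝ) (z : ℂ) : 0 ≤ Sf u z := by
  unfold Sf
  positivity

theorem dd_symm' {a : ℂ → ℝ} {z : ℂ} (ha : ContDiffAt ℝ ∞ a z) (v w : ℂ) :
    fderiv ℝ (fun x => fderiv ℝ a x v) z w = fderiv ℝ (fun x => fderiv ℝ a x w) z v := by
  have h1 : ContDiffAt ℝ 1 (fderiv ℝ a) z := ha.fderiv_right (by norm_cast)
  have h2 : ∀ v w : ℂ, fderiv ℝ (fun x => fderiv ℝ a x v) z w = fderiv ℝ (fderiv ℝ a) z w v := by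
    intro v w
    have h3 : HasFDerivAt (fun x => fderiv ℝ a x v)
        ((ContinuousLinearMap.apply ℝ ℝ v).comp (fderiv ℝ (fderiv ℝ a) z)) z :=
      (ContinuousLinearMap.apply ℝ ℝ v).hasFDerivAt.comp z
        (h1.differentiableAt one_ne_zero).hasFDerivAt
    rw [h3.fderiv]
    rfl
  rw [h2, h2]
  have h4 : IsSymmSndFDerivAt ℝ a z := ha.isSymmSndFDerivAt (by
    rw [minSmoothness_of_isRCLikeNormedField]
    norm_cast)
  exact h4 w v

theorem Pf_smooth {u : ℂ → ℝ} {z : ℂ} (hu : ContDiffAt ℝ ∞ u z) : ContDiffAt ℝ ∞ (Pf u) z := by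
  have h1 : ContDiffAt ℝ ∞ (fderiv ℝ u) z := hu.fderiv_right (by norm_cast)
  have h2 : ∀ v : ℂ, ContDiffAt ℝ ∞ (fun w => (fderiv ℝ u w v : ℂ)) z := fun v =>
    ofRealCLM.contDiff.contDiffAt.comp z (h1.clm_apply contDiffAt_const)
  exact ((h2 1).sub (contDiffAt_const.mul (h2 I))).div_const 2

theorem db_Pf {u : ℂ → ℝ} {z : ℂ} (hu : ContDiffAt ℝ ∞ u z) :
    db (Pf u) z = ((lap u z / 4 : ℝ) : ℂ) := by
  have h1 : ContDiffAt ℝ 1 (fderiv ℝ u) z := hu.fderiv_right (by norm_cast)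
  have hd : ∀ v : ℂ, DifferentiableAt ℝ (fun w => fderiv ℝ u w v) z := fun v =>
    (h1.differentiableAt one_ne_zero).clm_apply (differentiableAt_const _)
  have hD : ∀ v : ℂ, HasFDerivAt (fun w => (fderiv ℝ u w v : ℂ))
      (ofRealCLM.comp (fderiv ℝ (fun w => fderiv ℝ u w v) z)) z := fun v =>
    ofRealCLM.hasFDerivAt.comp z (hd v).hasFDerivAt
  have h2 : HasFDerivAt (Pf u) ((2 : ℂ)⁻¹ • (ofRealCLM.comp (fderiv ℝ (fun w => fderiv ℝ u w 1) z) -
      I • ofRealCLM.comp (fderiv ℝ (fun w => fderiv ℝ u w I) z))) z := by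
    have h3 := ((hD 1).sub ((hD I).const_mul I)).const_mul (2 : ℂ)⁻¹
    refine h3.congr_of_eventuallyEq (Eventually.of_forall fun w => ?_)
    simp only [Pf]
    rw [div_eq_inv_mul]
    rfl
  unfold db
  rw [h2.fderiv]
  simp only [ContinuousLinearMap.smul_apply, ContinuousLinearMap.sub_apply,
    ContinuousLinearMap.comp_apply, ofRealCLM_apply, smul_eq_mul]
  rw [dd_symm' hu 1 I]
  have h4 : lap u z = fderiv ℝ (fun w => fderiv ℝ u w 1) z 1 +
    fderiv ℝ (fun w => fderiv ℝ u w I) z I := rfl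
  rw [h4]
  push_cast
  linear_combination (-(fderiv ℝ (fun w => fderiv ℝ u w I) z I : ℂ) / 4) * I_sq

/-- the weight -/
noncomputable def om (z0 : ℂ) (n : ℕ) (z : ℂ) : ℝ := (‖z - z0‖ ^ (2 * n))⁻¹

theorem om_nonneg (z0 : ℂ) (n : ℕ) (z : ℂ) : 0 ≤ om z0 n z := by
  unfold om
  positivity

theorem om_cont {z0 : ℂ} (n : ℕ) {z : ℂ} (hz : z ≠ z0) : ContinuousAt (om z0 n) z := by
  unfold om
  refine ContinuousAt.inv₀ (by fun_prop) ?_
  exact pow_ne_zero _ (norm_ne_zero_iff.2 (sub_ne_zero.2 hz))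

/-- one component: the test function `κ f (z - z0)^{-n}` -/
theorem comp_est (h1 : U1) {z0 : ℂ} {r : ℝ} (hr : 0 < r) (n : ℕ) {κ : ℂ → ℝ}
    (hκ : ContDiff ℝ ∞ κ) (hκc : HasCompactSupport κ) (hκs : tsupport κ ⊆ Metric.ball z0 r)
    (hκ0 : z0 ∉ tsupport κ) {f : ℂ → ℂ} (hf : ∀ z ∈ tsupport κ, ContDiffAt ℝ ∞ f z) :
    ∫ z, κ z ^ 2 * ‖f z‖ ^ 2 * om z0 n z ≤ 16 * r ^ 2 * ∫ z,
      (2 * (κ z ^ 2 * ‖db f z‖ ^ 2 * om z0 n z) +
        2 * (‖fderiv ℝ κ z‖ ^ 2 * ‖f z‖ ^ 2 * om z0 n z)) := by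
  have hκK : ∀ z ∉ tsupport κ, κ z = 0 := fun z hz => image_eq_zero_of_notMem_tsupport hz
  have hκd : ∀ z ∉ tsupport κ, fderiv ℝ κ z = 0 := by
    intro z hz
    by_contra h
    exact hz (support_fderiv_subset ℝ (Function.mem_support.2 h))
  have hne : ∀ z ∈ tsupport κ, z ≠ z0 := by
    rintro z hz rfl
    exact hκ0 hz
  set W : ℂ → ℂ := fun z => ((z - z0) ^ n)⁻¹ with hW
  have hWn : ∀ z, ‖W z‖ ^ 2 = om z0 n z := by
    intro z
    rw [hW, om]
    simp only
    rw [norm_inv, norm_pow, inv_pow, ← pow_mul, mul_comm n 2]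
  have hWd : ∀ z, z ≠ z0 → DifferentiableAt ℂ W z := by
    intro z hz
    refine DifferentiableAt.inv (by fun_prop) ?_
    exact pow_ne_zero _ (sub_ne_zero.2 hz)
  have hWs : ∀ z, z ≠ z0 → ContDiffAt ℝ ∞ W z := by
    intro z hz
    refine ContDiffAt.inv ((contDiffAt_id.sub contDiffAt_const).pow n) ?_
    exact pow_ne_zero _ (sub_ne_zero.2 hz)
  set g : ℂ → ℂ := fun z => ((κ z : ℂ) * f z) * W z with hg
  have hκC : ContDiff ℝ ∞ fun z => (κ z : ℂ) := ofRealCLM.contDiff.comp hκ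
  have hgz : ∀ z ∉ tsupport κ, g =ᶠ[𝓝 z] fun _ => 0 := by
    intro z hz
    filter_upwards [(isClosed_tsupport κ).isOpen_compl.mem_nhds hz] with w hw
    rw [hg]
    simp only
    rw [hκK w hw]
    simp
  have hgs : ContDiff ℝ ∞ g := by
    rw [contDiff_iff_contDiffAt]
    intro z
    by_cases hz : z ∈ tsupport κ
    · exact (hκC.contDiffAt.mul (hf z hz)).mul (hWs z (hne z hz))
    · exact contDiffAt_const.congr_of_eventuallyEq (hgz z hz)
  have hgt : tsupport g ⊆ Metric.ball z0 r := by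
    refine subset_trans ?_ hκs
    refine closure_minimal ?_ (isClosed_tsupport κ)
    intro z hz
    by_contra h
    exact hz ((hgz z h).self_of_nhds)
  have hU := u1' h1 z0 hr hgs hgt
  have e1 : ∀ z, ‖g z‖ ^ 2 = κ z ^ 2 * ‖f z‖ ^ 2 * om z0 n z := by
    intro z
    rw [hg]
    simp only
    rw [norm_mul, norm_mul, mul_pow, mul_pow, hWn, Complex.norm_real, Real.norm_eq_abs, sq_abs]
  have e2 : ∀ z, ‖db g z‖ ^ 2 ≤ 2 * (κ z ^ 2 * ‖db f z‖ ^ 2 * om z0 n z) +
        2 * (‖fderiv ℝ κ z‖ ^ 2 * ‖f z‖ ^ 2 * om z0 n z) := by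
    intro z
    by_cases hz : z ∈ tsupport κ
    · have hfd : DifferentiableAt ℝ f z := (hf z hz).differentiableAt (by simp)
      have hκd' : DifferentiableAt ℝ (fun z => (κ z : ℂ)) z :=
        (hκC.differentiable (by simp)).differentiableAt
      have hWr : DifferentiableAt ℝ W z := (hWs z (hne z hz)).differentiableAt (by simp)
      have e3 : db g z = ((κ z : ℂ) * db f z + db (fun z => (κ z : ℂ)) z * f z) * W z := by
        have hkf : DifferentiableAt ℝ (fun z => (κ z : ℂ) * f z) z := hκd'.mul hfd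
        rw [hg, db_mul hkf hWr, db_hol (hWd z (hne z hz)), mul_zero, zero_add,
          db_mul hκd' hfd]
      have e4 : ‖db (fun z => (κ z : ℂ)) z‖ ≤ ‖fderiv ℝ κ z‖ := by
        unfold db
        rw [fderiv_ofReal (hκ.differentiable (by simp)).differentiableAt,
          fderiv_ofReal (hκ.differentiable (by simp)).differentiableAt]
        exact (norm_half (fderiv ℝ κ z)).1
      rw [e3, norm_mul, mul_pow, hWn]
      have e5 : ‖(κ z : ℂ) * db f z + db (fun z => (κ z : ℂ)) z * f z‖ ^ 2 ≤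
          2 * (κ z ^ 2 * ‖db f z‖ ^ 2) + 2 * (‖fderiv ℝ κ z‖ ^ 2 * ‖f z‖ ^ 2) := by
        have e6 : ‖(κ z : ℂ) * db f z + db (fun z => (κ z : ℂ)) z * f z‖ ≤
            |κ z| * ‖db f z‖ + ‖fderiv ℝ κ z‖ * ‖f z‖ := by
          refine (norm_add_le _ _).trans (add_le_add (le_of_eq ?_) ?_)
          · rw [norm_mul, Complex.norm_real, Real.norm_eq_abs]
          · rw [norm_mul]
            exact mul_le_mul_of_nonneg_right e4 (norm_nonneg _)
        have e7 := pow_le_pow_left₀ (norm_nonneg _) e6 2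
        have e8 : (|κ z| * ‖db f z‖ + ‖fderiv ℝ κ z‖ * ‖f z‖) ^ 2 =
            2 * (κ z ^ 2 * ‖db f z‖ ^ 2) + 2 * (‖fderiv ℝ κ z‖ ^ 2 * ‖f z‖ ^ 2) -
              (|κ z| * ‖db f z‖ - ‖fderiv ℝ κ z‖ * ‖f z‖) ^ 2 := by
          rw [← sq_abs (κ z)]
          ring
        have e9 := sq_nonneg (|κ z| * ‖db f z‖ - ‖fderiv ℝ κ z‖ * ‖f z‖)
        linarith
      calc _ ≤ (2 * (κ z ^ 2 * ‖db f z‖ ^ 2) + 2 * (‖fderiv ℝ κ z‖ ^ 2 * ‖f z‖ ^ 2)) *
            om z0 n z := mul_le_mul_of_nonneg_right e5 (om_nonneg _ _ _)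
        _ = _ := by ring
    · have e3 : db g z = 0 := by
        unfold db
        rw [(hgz z hz).fderiv_eq]
        simp
      rw [e3, hκK z hz, hκd z hz]
      simp
  simp only [e1] at hU
  refine hU.trans (mul_le_mul_of_nonneg_left ?_ (by positivity))
  -- integrability
  have hdf : ∀ z ∈ tsupport κ, ContinuousAt (fun z => db f z) z := by
    intro z hz
    have h2 : ContDiffAt ℝ 1 (fderiv ℝ f) z := (hf z hz).fderiv_right (by norm_cast)
    have h3 := h2.continuousAt
    unfold db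
    exact ((h3.clm_apply continuousAt_const).add
      (continuousAt_const.mul (h3.clm_apply continuousAt_const))).div_const 2
  have hdκ : Continuous (fderiv ℝ κ) := hκ.continuous_fderiv (by simp)
  refine integral_mono ?_ ?_ e2
  · have hdg : Continuous fun z => db g z := by
      have h2 := hgs.continuous_fderiv (by simp)
      unfold db
      exact ((h2.clm_apply continuous_const).add
        (continuous_const.mul (h2.clm_apply continuous_const))).div_const 2
    refine int_of_supp hκc (fun z _ => (hdg.norm.pow 2).continuousAt) fun z hz => ?_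
    have e3 : db g z = 0 := by
      unfold db
      rw [(hgz z hz).fderiv_eq]
      simp
    rw [e3]
    simp
  · refine int_of_supp hκc (fun z hz => ?_) fun z hz => ?_
    · have hfc : ContinuousAt f z := (hf z hz).continuousAt
      have ho := om_cont n (hne z hz)
      exact (continuousAt_const.mul (((hκ.continuous.continuousAt.pow 2).mul
        ((hdf z hz).norm.pow 2)).mul ho)).add (continuousAt_const.mul
        (((hdκ.continuousAt.norm.pow 2).mul (hfc.norm.pow 2)).mul ho))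
    · rw [hκK z hz, hκd z hz]
      simp


theorem Pf_norm_le (u : ℂ → ℝ) (z : ℂ) : ‖Pf u z‖ ≤ ‖fderiv ℝ u z‖ := (norm_half (fderiv ℝ u z)).2

theorem db_ofReal {u : ℂ → ℝ} {z : ℂ} (hu : DifferentiableAt ℝ u z) :
    ‖db (fun w => (u w : ℂ)) z‖ = ‖Pf u z‖ := by
  have h1 : db (fun w => (u w : ℂ)) z = conj (Pf u z) := by
    unfold db Pf
    rw [fderiv_ofReal hu, fderiv_ofReal hu, map_div₀, map_sub, map_mul, conj_I, conj_ofReal,
      conj_ofReal, map_ofNat]
    ring
  rw [h1, RCLike.norm_conj]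

/-- the Carleman inequality -/
theorem star (h1 : U1) {C : ℝ} {u : ℂ → ℝ} {z0 : ℂ} {r : ℝ} (hr : 0 < r)
    (hu : ∀ z ∈ Metric.ball z0 r, ContDiffAt ℝ ∞ u z)
    (hlap : ∀ z ∈ Metric.ball z0 r, |lap u z| ≤ C * |u z|)
    (hrM : 64 * r ^ 2 * (1 + C ^ 2 / 16) ≤ 1) (n : ℕ) {κ : ℂ → ℝ}
    (hκ : ContDiff ℝ ∞ κ) (hκc : HasCompactSupport κ) (hκs : tsupport κ ⊆ Metric.ball z0 r)
    (hκ0 : z0 ∉ tsupport κ) :
    ∫ z, κ z ^ 2 * Sf u z * om z0 n z ≤
      64 * r ^ 2 * ∫ z, ‖fderiv ℝ κ z‖ ^ 2 * Sf u z * om z0 n z ∧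
    Integrable (fun z => κ z ^ 2 * Sf u z * om z0 n z) ∧
    Integrable (fun z => ‖fderiv ℝ κ z‖ ^ 2 * Sf u z * om z0 n z) := by
  have hκK : ∀ z ∉ tsupport κ, κ z = 0 := fun z hz => image_eq_zero_of_notMem_tsupport hz
  have hκd : ∀ z ∉ tsupport κ, fderiv ℝ κ z = 0 := by
    intro z hz
    by_contra h
    exact hz (support_fderiv_subset ℝ (Function.mem_support.2 h))
  have hne : ∀ z ∈ tsupport κ, z ≠ z0 := by
    rintro z hz rfl
    exact hκ0 hz
  have hdκ : Continuous (fderiv ℝ κ) := hκ.continuous_fderiv (by simp)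
  have huK : ∀ z ∈ tsupport κ, ContDiffAt ℝ ∞ u z := fun z hz => hu z (hκs hz)
  have huC : ∀ z ∈ tsupport κ, ContDiffAt ℝ ∞ (fun w => (u w : ℂ)) z := fun z hz =>
    ofRealCLM.contDiff.contDiffAt.comp z (huK z hz)
  have hPK : ∀ z ∈ tsupport κ, ContDiffAt ℝ ∞ (Pf u) z := fun z hz => Pf_smooth (huK z hz)
  have hc1 : ∀ z ∈ tsupport κ, ContinuousAt (fun z => κ z ^ 2 * om z0 n z) z := fun z hz =>
    (hκ.continuous.continuousAt.pow 2).mul (om_cont n (hne z hz))
  have hc2 : ∀ z ∈ tsupport κ, ContinuousAt (fun z => ‖fderiv ℝ κ z‖ ^ 2 * om z0 n z) z :=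
    fun z hz => (hdκ.continuousAt.norm.pow 2).mul (om_cont n (hne z hz))
  -- integrable functions
  have hI : ∀ {k : ℂ → ℝ}, (∀ z ∈ tsupport κ, ContinuousAt k z) →
      Integrable (fun z => κ z ^ 2 * k z * om z0 n z) ∧
      Integrable (fun z => ‖fderiv ℝ κ z‖ ^ 2 * k z * om z0 n z) := by
    intro k hk
    constructor
    · refine int_of_supp hκc (fun z hz => ?_) fun z hz => ?_
      · exact ((hκ.continuous.continuousAt.pow 2).mul (hk z hz)).mul (om_cont n (hne z hz))
      · rw [hκK z hz]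
        simp
    · refine int_of_supp hκc (fun z hz => ?_) fun z hz => ?_
      · exact ((hdκ.continuousAt.norm.pow 2).mul (hk z hz)).mul (om_cont n (hne z hz))
      · rw [hκd z hz]
        simp
  have hkP : ∀ z ∈ tsupport κ, ContinuousAt (fun z => ‖Pf u z‖ ^ 2) z := fun z hz =>
    (hPK z hz).continuousAt.norm.pow 2
  have hku : ∀ z ∈ tsupport κ, ContinuousAt (fun z => u z ^ 2) z := fun z hz =>
    (huK z hz).continuousAt.pow 2
  have hkS : ∀ z ∈ tsupport κ, ContinuousAt (Sf u) z := fun z hz => (hkP z hz).add (hku z hz)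
  obtain ⟨iP1, iP2⟩ := hI hkP
  obtain ⟨iu1, iu2⟩ := hI hku
  obtain ⟨iS1, iS2⟩ := hI hkS
  refine ⟨?_, iS1, iS2⟩
  have e1 := comp_est h1 hr n hκ hκc hκs hκ0 hPK
  have e2 := comp_est h1 hr n hκ hκc hκs hκ0 huC
  have hnu : ∀ z, ‖((u z : ℝ) : ℂ)‖ ^ 2 = u z ^ 2 := by
    intro z
    rw [Complex.norm_real, Real.norm_eq_abs, sq_abs]
  simp only [hnu] at e2
  -- the right sides
  have m1 : ∫ z, (2 * (κ z ^ 2 * ‖db (Pf u) z‖ ^ 2 * om z0 n z) +
        2 * (‖fderiv ℝ κ z‖ ^ 2 * ‖Pf u z‖ ^ 2 * om z0 n z)) ≤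
      ∫ z, (2 * (C ^ 2 / 16) * (κ z ^ 2 * u z ^ 2 * om z0 n z) +
        2 * (‖fderiv ℝ κ z‖ ^ 2 * ‖Pf u z‖ ^ 2 * om z0 n z)) := by
    refine integral_mono_of_nonneg (Eventually.of_forall fun z => ?_)
      ((iu1.const_mul _).add (iP2.const_mul _)) (Eventually.of_forall fun z => ?_)
    · have := om_nonneg z0 n z
      show 0 ≤ _
      positivity
    · have ho := om_nonneg z0 n z
      refine add_le_add ?_ le_rfl
      by_cases hz : z ∈ tsupport κ
      · rw [db_Pf (huK z hz), Complex.norm_real, Real.norm_eq_abs, sq_abs]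
        have h2 := hlap z (hκs hz)
        have h3 : (lap u z / 4) ^ 2 ≤ C ^ 2 / 16 * u z ^ 2 := by
          have h4 : lap u z ^ 2 ≤ (C * |u z|) ^ 2 := by
            rw [← sq_abs (lap u z)]
            exact pow_le_pow_left₀ (abs_nonneg _) h2 2
          rw [mul_pow, sq_abs] at h4
          nlinarith
        calc 2 * (κ z ^ 2 * (lap u z / 4) ^ 2 * om z0 n z)
            ≤ 2 * (κ z ^ 2 * (C ^ 2 / 16 * u z ^ 2) * om z0 n z) := by gcongr
          _ = _ := by ring
      · rw [hκK z hz]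
        simp
  have m2 : ∫ z, (2 * (κ z ^ 2 * ‖db (fun w => (u w : ℂ)) z‖ ^ 2 * om z0 n z) +
        2 * (‖fderiv ℝ κ z‖ ^ 2 * u z ^ 2 * om z0 n z)) =
      ∫ z, (2 * (κ z ^ 2 * ‖Pf u z‖ ^ 2 * om z0 n z) +
        2 * (‖fderiv ℝ κ z‖ ^ 2 * u z ^ 2 * om z0 n z)) := by
    refine integral_congr_ae (Eventually.of_forall fun z => ?_)
    by_cases hz : z ∈ tsupport κ
    · show _ = _
      simp only
      rw [db_ofReal ((huK z hz).differentiableAt (by simp))]
    · show _ = _
      simp only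
      rw [hκK z hz]
      simp
  rw [m2] at e2
  rw [integral_add (iP1.const_mul 2) (iu2.const_mul 2), integral_const_mul, integral_const_mul]
    at e2
  have e1' := e1.trans (mul_le_mul_of_nonneg_left m1 (by positivity))
  rw [integral_add (iu1.const_mul _) (iP2.const_mul 2), integral_const_mul, integral_const_mul]
    at e1'
  have hS1 : ∫ z, κ z ^ 2 * Sf u z * om z0 n z =
      (∫ z, κ z ^ 2 * ‖Pf u z‖ ^ 2 * om z0 n z) + ∫ z, κ z ^ 2 * u z ^ 2 * om z0 n z := by
    rw [← integral_add iP1 iu1]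
    refine integral_congr_ae (Eventually.of_forall fun z => ?_)
    simp only [Sf]
    ring
  have hS2 : ∫ z, ‖fderiv ℝ κ z‖ ^ 2 * Sf u z * om z0 n z =
      (∫ z, ‖fderiv ℝ κ z‖ ^ 2 * ‖Pf u z‖ ^ 2 * om z0 n z) +
        ∫ z, ‖fderiv ℝ κ z‖ ^ 2 * u z ^ 2 * om z0 n z := by
    rw [← integral_add iP2 iu2]
    refine integral_congr_ae (Eventually.of_forall fun z => ?_)
    simp only [Sf]
    ring
  rw [hS1, hS2]
  have np : 0 ≤ ∫ z, κ z ^ 2 * ‖Pf u z‖ ^ 2 * om z0 n z := integral_nonneg fun z => by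
    have := om_nonneg z0 n z
    positivity
  have nu : 0 ≤ ∫ z, κ z ^ 2 * u z ^ 2 * om z0 n z := integral_nonneg fun z => by
    have := om_nonneg z0 n z
    positivity
  set a1 := ∫ z, κ z ^ 2 * ‖Pf u z‖ ^ 2 * om z0 n z
  set a2 := ∫ z, κ z ^ 2 * u z ^ 2 * om z0 n z
  set b1 := ∫ z, ‖fderiv ℝ κ z‖ ^ 2 * ‖Pf u z‖ ^ 2 * om z0 n z
  set b2 := ∫ z, ‖fderiv ℝ κ z‖ ^ 2 * u z ^ 2 * om z0 n z
  have k1 : 32 * r ^ 2 * (C ^ 2 / 16) * a2 ≤ 1 / 2 * a2 := by
    refine mul_le_mul_of_nonneg_right ?_ nu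
    nlinarith [sq_nonneg r]
  have k2 : 32 * r ^ 2 * a1 ≤ 1 / 2 * a1 := by
    refine mul_le_mul_of_nonneg_right ?_ np
    have : 0 ≤ 64 * r ^ 2 * (C ^ 2 / 16) := by positivity
    nlinarith
  nlinarith

/-- a cutoff function between two concentric discs. -/
theorem cutC : ∃ C0 : ℝ, 0 ≤ C0 ∧ ∀ (ρ : ℝ) (y : ℂ), 0 < ρ →
    ∃ η : ℂ → ℝ, ContDiff ℝ ∞ η ∧ tsupport η ⊆ Metric.ball y (2 * ρ) ∧
      (∀ x ∈ Metric.closedBall y ρ, η x = 1) ∧ ∀ x, ‖fderiv ℝ η x‖ ≤ C0 / ρ := by
  let f : ContDiffBump (0 : ℂ) := ⟨1, 3 / 2, by norm_num, by norm_num⟩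
  have hf : ContDiff ℝ ∞ f := f.contDiff
  have hcf : Continuous (fderiv ℝ f) := hf.continuous_fderiv (by simp)
  obtain ⟨C, hC⟩ := (f.hasCompactSupport.fderiv (𝕜 := ℝ)).exists_bound_of_continuous hcf
  have hC0 : 0 ≤ C := (norm_nonneg _).trans (hC 0)
  refine ⟨C, hC0, fun ρ y hρ => ?_⟩
  have hρ0 : ρ⁻¹ ≠ 0 := inv_ne_zero hρ.ne'
  have hn : ∀ x : ℂ, ‖-(ρ⁻¹ • y) + ρ⁻¹ • x‖ = ρ⁻¹ * dist x y := by
    intro x
    have : -(ρ⁻¹ • y) + ρ⁻¹ • x = ρ⁻¹ • (x - y) := by module
    rw [this, norm_smul, Real.norm_eq_abs, abs_of_pos (inv_pos.2 hρ), dist_eq_norm]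
  have hcont : Continuous fun x : ℂ => -(ρ⁻¹ • y) + ρ⁻¹ • x := by fun_prop
  refine ⟨fun x => f (-(ρ⁻¹ • y) + ρ⁻¹ • x), ?_, ?_, ?_, ?_⟩
  · exact hf.comp (contDiff_const.add (contDiff_const_smul ρ⁻¹))
  · intro x hx
    have h1 := tsupport_comp_subset_preimage (f : ℂ → ℝ) hcont hx
    rw [Set.mem_preimage, f.tsupport_eq, mem_closedBall_zero_iff, hn, inv_mul_le_iff₀ hρ] at h1
    rw [Metric.mem_ball]
    have h2 : f.rOut = 3 / 2 := rfl
    rw [h2] at h1
    linarith
  · intro x hx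
    refine f.one_of_mem_closedBall ?_
    rw [Metric.mem_closedBall, dist_zero_right, hn, inv_mul_le_iff₀ hρ]
    show dist x y ≤ ρ * 1
    rw [mul_one]
    exact hx
  · intro x
    have h2 : HasFDerivAt (fun x : ℂ => -(ρ⁻¹ • y) + ρ⁻¹ • x)
        (ρ⁻¹ • ContinuousLinearMap.id ℝ ℂ) x :=
      ((hasFDerivAt_id x).const_smul ρ⁻¹).const_add _
    obtain ⟨F, hF, hFf⟩ : ∃ F : ℂ → ℝ, ContDiff ℝ ∞ F ∧ F = f := ⟨f, hf, rfl⟩
    have h3 : HasFDerivAt F (fderiv ℝ F (-(ρ⁻¹ • y) + ρ⁻¹ • x)) (-(ρ⁻¹ • y) + ρ⁻¹ • x) :=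
      (hF.differentiable (by simp)).differentiableAt.hasFDerivAt
    have h4 : HasFDerivAt (fun x => F (-(ρ⁻¹ • y) + ρ⁻¹ • x))
        ((fderiv ℝ F (-(ρ⁻¹ • y) + ρ⁻¹ • x)).comp (ρ⁻¹ • ContinuousLinearMap.id ℝ ℂ)) x :=
      h3.comp x h2
    rw [← hFf, h4.fderiv, ContinuousLinearMap.comp_smul, ContinuousLinearMap.comp_id, norm_smul,
      Real.norm_eq_abs, abs_of_pos (inv_pos.2 hρ), div_eq_inv_mul]
    refine mul_le_mul_of_nonneg_left ?_ (inv_pos.2 hρ).le
    rw [hFf]
    exact hC _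


theorem tu3 (h1 : U1) (h2 : U2) : U3 := by
  intro Ω C u hΩ huΩ hlap z0 hz0 hflat
  obtain ⟨r1, hr1, hb1⟩ := Metric.isOpen_iff.1 hΩ z0 hz0
  set M : ℝ := 1 + C ^ 2 / 16 with hM
  have hM1 : 1 ≤ M := by
    rw [hM]
    have : 0 ≤ C ^ 2 / 16 := by positivity
    linarith
  set r : ℝ := min (r1 / 2) (1 / (8 * M)) with hr
  have hr0 : 0 < r := lt_min (by linarith) (by positivity)
  have hrr1 : r < r1 := (min_le_left _ _).trans_lt (by linarith)
  have hrM : 64 * r ^ 2 * (1 + C ^ 2 / 16) ≤ 1 := by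
    rw [← hM]
    have h3 : r ≤ 1 / (8 * M) := min_le_right _ _
    have h4 : r * (8 * M) ≤ 1 := by rwa [le_div_iff₀ (by positivity)] at h3
    have h5 : (r * (8 * M)) ^ 2 ≤ 1 := pow_le_one₀ (by positivity) h4
    have h6 : (r * (8 * M)) ^ 2 = 64 * r ^ 2 * M * M := by ring
    rw [h6] at h5
    have h7 : 64 * r ^ 2 * M * 1 ≤ 64 * r ^ 2 * M * M :=
      mul_le_mul_of_nonneg_left hM1 (by positivity)
    linarith
  have hu1 : ∀ z ∈ Metric.ball z0 r1, ContDiffAt ℝ ∞ u z := fun z hz =>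
    huΩ.contDiffAt (hΩ.mem_nhds (hb1 hz))
  have hsub : Metric.ball z0 r ⊆ Metric.ball z0 r1 := Metric.ball_subset_ball hrr1.le
  have hsubc : Metric.closedBall z0 r ⊆ Metric.ball z0 r1 := Metric.closedBall_subset_ball hrr1
  have hSc : ∀ z ∈ Metric.ball z0 r1, ContinuousAt (Sf u) z := fun z hz =>
    ((Pf_smooth (hu1 z hz)).continuousAt.norm.pow 2).add ((hu1 z hz).continuousAt.pow 2)
  have hSint : IntegrableOn (Sf u) (Metric.ball z0 r) := by
    have h3 : ContinuousOn (Sf u) (Metric.closedBall z0 r) := fun z hz =>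
      (hSc z (hsubc hz)).continuousWithinAt
    exact (h3.integrableOn_compact (isCompact_closedBall z0 r)).mono_set
      Metric.ball_subset_closedBall
  set E : ℝ := ∫ z in Metric.ball z0 r, Sf u z with hE
  have hE0 : 0 ≤ E := integral_nonneg fun z => Sf_nonneg u z
  obtain ⟨C0, hC0, hcut⟩ := cutC
  obtain ⟨χ, hχ, hχs, hχ1, hχd⟩ := hcut (r / 2) z0 (by positivity)
  rw [mul_div_cancel₀ r (by norm_num : (2 : ℝ) ≠ 0)] at hχs
  -- the claim
  have hclaim : ∀ w, 0 < ‖w - z0‖ → ‖w - z0‖ < r / 4 → u w = 0 := by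
    intro w hw0 hwr
    by_contra hne
    have hwB : w ∈ Metric.ball z0 r1 := by
      rw [Metric.mem_ball, dist_eq_norm]
      linarith
    set s0 : ℝ := u w ^ 2 / 2 with hs0
    have hs00 : 0 < s0 := by positivity
    have hcw : ContinuousAt (fun z => u z ^ 2) w := (hu1 w hwB).continuousAt.pow 2
    have hev : ∀ᶠ z in 𝓝 w, s0 < u z ^ 2 := hcw.eventually (lt_mem_nhds (by
      rw [hs0]
      have : 0 < u w ^ 2 := by positivity
      linarith))
    obtain ⟨ρ1, hρ1, hρb⟩ := Metric.eventually_nhds_iff_ball.1 hev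
    set ρ : ℝ := min ρ1 (min (‖w - z0‖ / 2) (r / 4 - ‖w - z0‖)) with hρ
    have hρ0 : 0 < ρ := lt_min hρ1 (lt_min (by linarith) (by linarith))
    have hball : ∀ z ∈ Metric.ball w ρ, s0 ≤ Sf u z ∧ ‖w - z0‖ / 2 ≤ ‖z - z0‖ ∧
        ‖z - z0‖ ≤ r / 4 := by
      intro z hz
      have hz' : ‖z - w‖ < ρ := by rwa [Metric.mem_ball, dist_eq_norm] at hz
      have hρ2 : ρ ≤ ‖w - z0‖ / 2 := (min_le_right _ _).trans (min_le_left _ _)
      have hρ3 : ρ ≤ r / 4 - ‖w - z0‖ := (min_le_right _ _).trans (min_le_right _ _)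
      refine ⟨?_, ?_, ?_⟩
      · have h3 := hρb z (Metric.ball_subset_ball (min_le_left _ _) hz)
        have h4 : 0 ≤ ‖Pf u z‖ ^ 2 := by positivity
        rw [Sf]
        linarith
      · have h3 : ‖w - z0‖ ≤ ‖z - z0‖ + ‖z - w‖ := by
          have h4 : w - z0 = (z - z0) - (z - w) := by ring
          rw [h4]
          exact norm_sub_le _ _
        linarith
      · have h3 : ‖z - z0‖ ≤ ‖z - w‖ + ‖w - z0‖ := by
          have h4 : z - z0 = (z - w) + (w - z0) := by ring
          rw [h4]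
          exact norm_add_le _ _
        linarith
    set β : ℝ := (volume : Measure ℂ).real (Metric.ball w ρ) with hβ
    have hβ0 : 0 < β := ENNReal.toReal_pos (Metric.measure_ball_pos volume w hρ0).ne'
      measure_ball_lt_top.ne
    -- the inequality for one `n`
    have hn : ∀ n : ℕ, s0 * β ≤ 512 * C0 ^ 2 * E * (1 / 4) ^ n := by
      intro n
      obtain ⟨c1, q1, hc1, hq1, hb1'⟩ := h2 u z0 (hu1 z0 (Metric.mem_ball_self hr1)) hflat (n + 1) 1
      obtain ⟨c2, q2, hc2, hq2, hb2'⟩ := h2 u z0 (hu1 z0 (Metric.mem_ball_self hr1)) hflat (n + 1) 0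
      set Kn : ℝ := c1 ^ 2 + c2 ^ 2 with hKn
      have hKn0 : 0 ≤ Kn := by positivity
      have hSn : ∀ z ∈ Metric.ball z0 (min q1 q2), Sf u z ≤ Kn * ‖z - z0‖ ^ (2 * n + 2) := by
        intro z hz
        have h3 := hb1' z (Metric.ball_subset_ball (min_le_left _ _) hz)
        have h4 := hb2' z (Metric.ball_subset_ball (min_le_right _ _) hz)
        rw [norm_iteratedFDeriv_one] at h3
        rw [norm_iteratedFDeriv_zero, Real.norm_eq_abs] at h4
        have h5 : ‖Pf u z‖ ^ 2 ≤ (c1 * ‖z - z0‖ ^ (n + 1)) ^ 2 :=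
          pow_le_pow_left₀ (norm_nonneg _) ((Pf_norm_le u z).trans h3) 2
        have h6 : u z ^ 2 ≤ (c2 * ‖z - z0‖ ^ (n + 1)) ^ 2 := by
          rw [← sq_abs (u z)]
          exact pow_le_pow_left₀ (abs_nonneg _) h4 2
        rw [Sf]
        calc ‖Pf u z‖ ^ 2 + u z ^ 2 ≤ (c1 * ‖z - z0‖ ^ (n + 1)) ^ 2 +
              (c2 * ‖z - z0‖ ^ (n + 1)) ^ 2 := add_le_add h5 h6
          _ = Kn * ‖z - z0‖ ^ (2 * n + 2) := by
              rw [hKn]
              ring
      set A1 : ℝ := 2 * (C0 / (r / 2)) ^ 2 * ((r / 2) ^ (2 * n))⁻¹ with hA1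
      have hA10 : 0 ≤ A1 := by positivity
      have hε : ∀ᶠ ε in 𝓝[>] (0 : ℝ), s0 * β * ((r / 4) ^ (2 * n))⁻¹ ≤
          64 * r ^ 2 * (A1 * E + 8 * C0 ^ 2 * Kn * (Real.pi * ε ^ 2)) := by
        have hmin : 0 < min (min q1 q2) (min (r / 2) (‖w - z0‖ / 2)) :=
          lt_min (lt_min hq1 hq2) (lt_min (by linarith) (by linarith))
        filter_upwards [Ioo_mem_nhdsGT hmin] with ε hε
        have hε0 : 0 < ε := hε.1
        have hεq : ε < min q1 q2 := hε.2.trans_le (min_le_left _ _)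
        have hεr : ε < r / 2 := hε.2.trans_le ((min_le_right _ _).trans (min_le_left _ _))
        have hεw : ε < ‖w - z0‖ / 2 := hε.2.trans_le ((min_le_right _ _).trans (min_le_right _ _))
        obtain ⟨φ, hφ, hφs, hφ1, hφd⟩ := hcut (ε / 2) z0 (by positivity)
        rw [mul_div_cancel₀ ε (by norm_num : (2 : ℝ) ≠ 0)] at hφs
        set κ : ℂ → ℝ := fun z => χ z - φ z with hκ
        have hκs' : tsupport κ ⊆ tsupport χ ∪ tsupport φ := by
          refine closure_minimal (fun z hz => ?_) ((isClosed_tsupport χ).union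
            (isClosed_tsupport φ))
          by_contra h
          rw [Set.mem_union, not_or] at h
          apply hz
          show χ z - φ z = 0
          rw [image_eq_zero_of_notMem_tsupport h.1, image_eq_zero_of_notMem_tsupport h.2, sub_zero]
        have hκs : tsupport κ ⊆ Metric.ball z0 r := by
          refine hκs'.trans (Set.union_subset hχs (hφs.trans ?_))
          exact Metric.ball_subset_ball (by linarith)
        have hκc : HasCompactSupport κ :=
          (isCompact_closedBall z0 r).of_isClosed_subset (isClosed_tsupport κ)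
            (hκs.trans Metric.ball_subset_closedBall)
        have hκ0 : z0 ∉ tsupport κ := by
          rw [notMem_tsupport_iff_eventuallyEq]
          filter_upwards [Metric.ball_mem_nhds z0 (by positivity : 0 < ε / 2)] with z hz
          have h3 : z ∈ Metric.closedBall z0 (ε / 2) := Metric.ball_subset_closedBall hz
          have h4 : z ∈ Metric.closedBall z0 (r / 2) :=
            Metric.closedBall_subset_closedBall (by linarith) h3
          show χ z - φ z = 0
          rw [hχ1 z h4, hφ1 z h3, sub_self]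
        have hκsm : ContDiff ℝ ∞ κ := hχ.sub hφ
        obtain ⟨hst, hi1, hi2⟩ := star h1 hr0 (fun z hz => hu1 z (hsub hz))
          (fun z hz => hlap z (hb1 (hsub hz))) hrM n hκsm hκc hκs hκ0
        -- the lower bound
        have hlow : s0 * β * ((r / 4) ^ (2 * n))⁻¹ ≤ ∫ z, κ z ^ 2 * Sf u z * om z0 n z := by
          have h3 : s0 * ((r / 4) ^ (2 * n))⁻¹ * β ≤
              ∫ z in Metric.ball w ρ, κ z ^ 2 * Sf u z * om z0 n z := by
            refine le_trans (le_of_eq ?_) (setIntegral_ge_of_const_le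
              (c := s0 * ((r / 4) ^ (2 * n))⁻¹) measurableSet_ball measure_ball_lt_top.ne
              (fun z hz => ?_) hi1.integrableOn)
            · rw [smul_eq_mul, mul_comm]
            obtain ⟨b1, b2, b3⟩ := hball z hz
            have h4 : κ z = 1 := by
              have h5 : z ∈ Metric.closedBall z0 (r / 2) := by
                rw [Metric.mem_closedBall, dist_eq_norm]
                linarith
              have h6 : φ z = 0 := by
                refine image_eq_zero_of_notMem_tsupport fun h => ?_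
                have h7 := hφs h
                rw [Metric.mem_ball, dist_eq_norm] at h7
                linarith
              show χ z - φ z = 1
              rw [hχ1 z h5, h6, sub_zero]
            have h5 : ((r / 4) ^ (2 * n))⁻¹ ≤ om z0 n z := by
              unfold om
              refine inv_anti₀ ?_ (pow_le_pow_left₀ (norm_nonneg _) b3 _)
              have : 0 < ‖z - z0‖ := by linarith
              positivity
            rw [h4, one_pow, one_mul]
            exact mul_le_mul b1 h5 (by positivity) (Sf_nonneg u z)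
          have h4 : ∫ z in Metric.ball w ρ, κ z ^ 2 * Sf u z * om z0 n z ≤
              ∫ z, κ z ^ 2 * Sf u z * om z0 n z := by
            refine setIntegral_le_integral hi1 (Eventually.of_forall fun z => ?_)
            have h5 := om_nonneg z0 n z
            have h6 := Sf_nonneg u z
            show 0 ≤ _
            positivity
          calc s0 * β * ((r / 4) ^ (2 * n))⁻¹ = s0 * ((r / 4) ^ (2 * n))⁻¹ * β := by ring
            _ ≤ _ := h3.trans h4
        refine hlow.trans (hst.trans (mul_le_mul_of_nonneg_left ?_ (by positivity)))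
        -- the upper bound
        have hpt : ∀ z, ‖fderiv ℝ κ z‖ ^ 2 * Sf u z * om z0 n z ≤
            A1 * (Metric.ball z0 r).indicator (Sf u) z +
              (Metric.ball z0 ε).indicator (fun _ => 8 * C0 ^ 2 * Kn) z := by
          intro z
          have ho := om_nonneg z0 n z
          have hS := Sf_nonneg u z
          have hfd : ‖fderiv ℝ κ z‖ ^ 2 ≤ 2 * ‖fderiv ℝ χ z‖ ^ 2 + 2 * ‖fderiv ℝ φ z‖ ^ 2 := by
            have h3 : fderiv ℝ κ z = fderiv ℝ χ z - fderiv ℝ φ z :=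
              fderiv_fun_sub (hχ.differentiable (by simp)).differentiableAt
                (hφ.differentiable (by simp)).differentiableAt
            rw [h3]
            have h4 := norm_sub_le (fderiv ℝ χ z) (fderiv ℝ φ z)
            have h5 := pow_le_pow_left₀ (norm_nonneg _) h4 2
            have h6 := sq_nonneg (‖fderiv ℝ χ z‖ - ‖fderiv ℝ φ z‖)
            nlinarith
          have p1 : 2 * ‖fderiv ℝ χ z‖ ^ 2 * (Sf u z * om z0 n z) ≤
              A1 * (Metric.ball z0 r).indicator (Sf u) z := by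
            have hi : 0 ≤ (Metric.ball z0 r).indicator (Sf u) z :=
              Set.indicator_nonneg (fun z _ => Sf_nonneg u z) z
            by_cases h0 : fderiv ℝ χ z = 0
            · rw [h0, norm_zero]
              have : 0 ≤ A1 * (Metric.ball z0 r).indicator (Sf u) z := mul_nonneg hA10 hi
              simpa using this
            · have hz1 : z ∈ Metric.ball z0 r :=
                hχs (support_fderiv_subset ℝ (Function.mem_support.2 h0))
              have hz2 : r / 2 ≤ ‖z - z0‖ := by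
                by_contra h3
                push Not at h3
                apply h0
                have h4 : χ =ᶠ[𝓝 z] fun _ => 1 := by
                  have h5 : Metric.ball z0 (r / 2) ∈ 𝓝 z :=
                    Metric.isOpen_ball.mem_nhds (by rwa [Metric.mem_ball, dist_eq_norm])
                  filter_upwards [h5] with x hx using hχ1 x (Metric.ball_subset_closedBall hx)
                rw [h4.fderiv_eq]
                simp
              have h5 : om z0 n z ≤ ((r / 2) ^ (2 * n))⁻¹ := by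
                unfold om
                exact inv_anti₀ (by positivity) (pow_le_pow_left₀ (by positivity) hz2 _)
              rw [Set.indicator_of_mem hz1, hA1]
              have h6 : ‖fderiv ℝ χ z‖ ^ 2 ≤ (C0 / (r / 2)) ^ 2 :=
                pow_le_pow_left₀ (norm_nonneg _) (hχd z) 2
              calc 2 * ‖fderiv ℝ χ z‖ ^ 2 * (Sf u z * om z0 n z)
                  ≤ 2 * (C0 / (r / 2)) ^ 2 * (Sf u z * ((r / 2) ^ (2 * n))⁻¹) := by gcongr
                _ = _ := by ring
          have p2 : 2 * ‖fderiv ℝ φ z‖ ^ 2 * (Sf u z * om z0 n z) ≤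
              (Metric.ball z0 ε).indicator (fun _ => 8 * C0 ^ 2 * Kn) z := by
            have hi : 0 ≤ (Metric.ball z0 ε).indicator (fun _ => 8 * C0 ^ 2 * Kn) z :=
              Set.indicator_nonneg (fun z _ => by positivity) z
            by_cases h0 : fderiv ℝ φ z = 0
            · rw [h0, norm_zero]
              simpa using hi
            · have hz1 : z ∈ Metric.ball z0 ε :=
                hφs (support_fderiv_subset ℝ (Function.mem_support.2 h0))
              have hz2 : ε / 2 ≤ ‖z - z0‖ := by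
                by_contra h3
                push Not at h3
                apply h0
                have h4 : φ =ᶠ[𝓝 z] fun _ => 1 := by
                  have h5 : Metric.ball z0 (ε / 2) ∈ 𝓝 z :=
                    Metric.isOpen_ball.mem_nhds (by rwa [Metric.mem_ball, dist_eq_norm])
                  filter_upwards [h5] with x hx using hφ1 x (Metric.ball_subset_closedBall hx)
                rw [h4.fderiv_eq]
                simp
              have hz3 : ‖z - z0‖ ≤ ε := by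
                rw [Metric.mem_ball, dist_eq_norm] at hz1
                exact hz1.le
              have hz4 : 0 < ‖z - z0‖ := by linarith
              have h5 := hSn z (Metric.ball_subset_ball hεq.le hz1)
              have h6 : Sf u z * om z0 n z ≤ Kn * ε ^ 2 := by
                calc Sf u z * om z0 n z ≤ Kn * ‖z - z0‖ ^ (2 * n + 2) * om z0 n z :=
                      mul_le_mul_of_nonneg_right h5 ho
                  _ = Kn * ‖z - z0‖ ^ 2 := by
                      unfold om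
                      rw [pow_add]
                      field_simp
                  _ ≤ Kn * ε ^ 2 := by gcongr
              have h7 : ‖fderiv ℝ φ z‖ ^ 2 ≤ (C0 / (ε / 2)) ^ 2 :=
                pow_le_pow_left₀ (norm_nonneg _) (hφd z) 2
              rw [Set.indicator_of_mem hz1]
              calc 2 * ‖fderiv ℝ φ z‖ ^ 2 * (Sf u z * om z0 n z)
                  ≤ 2 * (C0 / (ε / 2)) ^ 2 * (Kn * ε ^ 2) := by gcongr
                _ = 8 * C0 ^ 2 * Kn := by
                    field_simp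
                    ring
          calc ‖fderiv ℝ κ z‖ ^ 2 * Sf u z * om z0 n z
              ≤ (2 * ‖fderiv ℝ χ z‖ ^ 2 + 2 * ‖fderiv ℝ φ z‖ ^ 2) * (Sf u z * om z0 n z) := by
                rw [mul_assoc]
                exact mul_le_mul_of_nonneg_right hfd (mul_nonneg hS ho)
            _ = 2 * ‖fderiv ℝ χ z‖ ^ 2 * (Sf u z * om z0 n z) +
                2 * ‖fderiv ℝ φ z‖ ^ 2 * (Sf u z * om z0 n z) := by ring
            _ ≤ _ := add_le_add p1 p2
        have j1 : Integrable ((Metric.ball z0 r).indicator (Sf u)) :=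
          (integrable_indicator_iff measurableSet_ball).2 hSint
        have j2 : Integrable ((Metric.ball z0 ε).indicator fun _ => 8 * C0 ^ 2 * Kn) := by
          rw [integrable_indicator_iff measurableSet_ball]
          exact integrableOn_const measure_ball_lt_top.ne
        have h3 := integral_mono hi2 ((j1.const_mul A1).add j2) hpt
        have h4 : ∫ z, (A1 * (Metric.ball z0 r).indicator (Sf u) z +
              (Metric.ball z0 ε).indicator (fun _ => 8 * C0 ^ 2 * Kn) z) =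
            A1 * E + 8 * C0 ^ 2 * Kn * (Real.pi * ε ^ 2) := by
          rw [integral_add (j1.const_mul A1) j2, integral_const_mul,
            integral_indicator measurableSet_ball,
            integral_indicator_const _ measurableSet_ball, smul_eq_mul]
          have h5 : (volume : Measure ℂ).real (Metric.ball z0 ε) = Real.pi * ε ^ 2 := by
            unfold Measure.real
            rw [Complex.volume_ball, ENNReal.toReal_mul, ENNReal.toReal_pow,
              ENNReal.toReal_ofReal hε0.le]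
            simp
            ring
          rw [h5]
          ring
        exact h3.trans (le_of_eq h4)
      have hlim : Tendsto (fun ε : ℝ => 64 * r ^ 2 * (A1 * E + 8 * C0 ^ 2 * Kn *
          (Real.pi * ε ^ 2))) (𝓝[>] 0) (𝓝 (64 * r ^ 2 * (A1 * E + 8 * C0 ^ 2 * Kn *
          (Real.pi * 0 ^ 2)))) := by
        have hc : Continuous fun ε : ℝ => 64 * r ^ 2 * (A1 * E + 8 * C0 ^ 2 * Kn *
          (Real.pi * ε ^ 2)) := by fun_prop
        exact (hc.tendsto 0).mono_left nhdsWithin_le_nhds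
      have h3 := ge_of_tendsto hlim hε
      have h4 : 64 * r ^ 2 * (A1 * E + 8 * C0 ^ 2 * Kn * (Real.pi * 0 ^ 2)) =
          512 * C0 ^ 2 * E * ((r / 2) ^ (2 * n))⁻¹ := by
        rw [hA1]
        field_simp
        ring
      rw [h4] at h3
      have h5 : s0 * β ≤ 512 * C0 ^ 2 * E * ((r / 2) ^ (2 * n))⁻¹ * (r / 4) ^ (2 * n) := by
        have h6 : 0 < (r / 4) ^ (2 * n) := by positivity
        rwa [← div_eq_mul_inv, div_le_iff₀ h6] at h3
      refine h5.trans (le_of_eq ?_)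
      have h6 : (r / 4) ^ (2 * n) = (r / 2) ^ (2 * n) * (1 / 4) ^ n := by
        rw [pow_mul, pow_mul, ← mul_pow]
        congr 1
        ring
      rw [h6]
      have h7 : (r / 2) ^ (2 * n) ≠ 0 := by positivity
      field_simp
    have hlim : Tendsto (fun n : ℕ => 512 * C0 ^ 2 * E * (1 / 4 : ℝ) ^ n) atTop (𝓝 0) := by
      have := (tendsto_pow_atTop_nhds_zero_of_lt_one (by norm_num : (0 : ℝ) ≤ 1 / 4)
        (by norm_num)).const_mul (512 * C0 ^ 2 * E)
      rwa [mul_zero] at this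
    have h3 := ge_of_tendsto' hlim hn
    have h4 : 0 < s0 * β := mul_pos hs00 hβ0
    linarith
  -- conclusion
  have h0 : u z0 = 0 := by
    have h3 := hflat 0
    have h4 : ‖iteratedFDeriv ℝ 0 u z0‖ = 0 := by rw [h3, norm_zero]
    rw [norm_iteratedFDeriv_zero] at h4
    exact norm_eq_zero.1 h4
  filter_upwards [Metric.ball_mem_nhds z0 (by positivity : 0 < r / 4)] with w hw
  rw [Metric.mem_ball, dist_eq_norm] at hw
  by_cases hwz : w = z0
  · rw [hwz]
    exact h0
  · exact hclaim w (norm_pos_iff.2 (sub_ne_zero.2 hwz)) hw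

end Pool.Agent.Q73.NL
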