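import Pool.Agent.Q73.NL.TU1
import Pool.Agent.Q73.NL.TU2
import Pool.Agent.Q73.NL.TU3

/-!
# Strong unique continuation in the plane
-/

namespace Pool.Agent.Q73.NL

theorem u3 : U3 := tu3 tu1 tu2

end Pool.Agent.Q73.NL
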