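import Pool.Agent.Q73.NL.StmD
import Pool.Agent.Q73.NL.U

/-!
# D3 from D1 and D2
-/

set_option autoImplicit false
open MeasureTheory Filter Topology Complex Metric
open scoped ContDiff ENNReal

namespace Pool.Agent.Q73.NL

theorem noflat_univ {u : ℂ → ℝ} {lam : ℝ} (hu : ContDiff ℝ ∞ u)
    (he : ∀ z, lap u z + lam * u z = 0) (hne : ∃ z, u z ≠ 0) : NoFlat Set.univ u := by
  by_contra hnf
  unfold NoFlat at hnf
  push Not at hnf
  obtain ⟨z₀, -, h0⟩ := hnf
  set A : Set ℂ := {z | ∀ k : ℕ, iteratedFDeriv ℝ k u z = 0} with hA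
  have hcl : IsClosed A := by
    have : A = ⋂ k : ℕ, {z | iteratedFDeriv ℝ k u z = 0} := by
      ext z; simp [hA]
    rw [this]
    refine isClosed_iInter fun k => ?_
    exact isClosed_eq (hu.continuous_iteratedFDeriv (WithTop.coe_le_coe.2 le_top)) continuous_const
  have hop : IsOpen A := by
    rw [isOpen_iff_mem_nhds]
    intro z hz
    have h1 : ∀ᶠ w in 𝓝 z, u w = 0 := by
      refine u3 Set.univ |lam| u isOpen_univ hu.contDiffOn ?_ z trivial hz
      intro w _
      have h2 := he w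
      have h3 : lap u w = - (lam * u w) := by linarith
      rw [h3, abs_neg, abs_mul]
    have h2 := h1.eventually_nhds
    filter_upwards [h2] with w hw k
    have h3 : u =ᶠ[𝓝 w] fun _ => (0 : ℝ) := hw
    have h4 := h3.iteratedFDeriv ℝ k
    rw [h4.self_of_nhds]
    simp
  have huniv : A = Set.univ := IsClopen.eq_univ ⟨hcl, hop⟩ ⟨z₀, h0⟩
  obtain ⟨z, hz⟩ := hne
  have h5 : z ∈ A := by rw [huniv]; trivial
  apply hz
  have h6 := h5 0
  have h7 : iteratedFDeriv ℝ 0 u z (fun _ => 0) = 0 := by rw [h6]; rfl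
  simpa using h7

theorem td3 (h1 : D1) (h2 : D2) : D3 := by
  intro u lam W hu he hne hW
  have hnf := noflat_univ hu he hne
  have cdx : Continuous (dx u) := (hu.continuous_fderiv (by simp)).clm_apply continuous_const
  have cdy : Continuous (dy u) := (hu.continuous_fderiv (by simp)).clm_apply continuous_const
  set O : Set ℂ := W ∩ {z | dx u z ≠ 0 ∨ dy u z ≠ 0} with hO
  have hOo : IsOpen O := by
    refine hW.inter ?_
    exact (isOpen_ne_fun cdx continuous_const).union (isOpen_ne_fun cdy continuous_const)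
  set Sg : Set ℂ := {z | u z = 0 ∧ dx u z = 0 ∧ dy u z = 0} with hSg
  have hcount : Sg.Countable := h1 u lam hu he hnf
  have hzero : (μH[1] : Measure ℂ) Sg = 0 := by
    have := Measure.nullSingletonClass_hausdorff ℂ (d := 1) one_pos
    exact hcount.measure_zero _
  obtain ⟨F, hFc, hFO, hFu, hFm⟩ := hOo.exists_iUnion_isClosed
  set K : ℕ → Set ℂ := fun n => (F n ∩ closedBall 0 n) ∩ {z | u z = 0} with hK
  have hKc : ∀ n, IsCompact (K n) := fun n =>
    (((isCompact_closedBall (0 : ℂ) n).inter_left (hFc n)).inter_right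
      (isClosed_eq hu.continuous continuous_const))
  have hKm : Monotone K := fun m n hmn => Set.inter_subset_inter_left _
    (Set.inter_subset_inter (hFm hmn) (closedBall_subset_closedBall (by exact_mod_cast hmn)))
  have hsub : {z | z ∈ W ∧ u z = 0} ⊆ Sg ∪ ⋃ n, K n := by
    rintro z ⟨hzW, hz0⟩
    by_cases hz : dx u z ≠ 0 ∨ dy u z ≠ 0
    · right
      have hzO : z ∈ ⋃ n, F n := by rw [hFu]; exact ⟨hzW, hz⟩
      obtain ⟨n, hn⟩ := Set.mem_iUnion.1 hzO
      obtain ⟨m, hm⟩ := exists_nat_ge ‖z‖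
      refine Set.mem_iUnion.2 ⟨max n m, ⟨hFm (le_max_left _ _) hn, ?_⟩, hz0⟩
      rw [mem_closedBall_zero_iff]
      exact hm.trans (by exact_mod_cast le_max_right n m)
    · push Not at hz
      exact Or.inl ⟨hz0, hz.1, hz.2⟩
  refine (measure_mono hsub).trans ((measure_union_le _ _).trans ?_)
  rw [hzero, zero_add, hKm.measure_iUnion]
  refine iSup_le fun n => h2 u (K n) W hu (hKc n) hW (fun z hz => (hFO n hz.1.1).1) fun z hz => ?_
  exact ⟨hz.2, (hFO n hz.1.1).2⟩

end Pool.Agent.Q73.NL
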