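import Pool.Agent.Q73.NL.Stm

/-!
# S4: the weak minimum principle
-/

set_option autoImplicit false
open MeasureTheory Filter Topology Complex
open scoped ContDiff ENNReal ComplexConjugate

namespace Pool.Agent.Q73.NL

/-- the second derivative at a local minimum is nonnegative -/
theorem snd_test {h h' : ℝ → ℝ} {L : ℝ} (h1 : ∀ᶠ s in 𝓝 (0 : ℝ), HasDerivAt h (h' s) s)
    (h2 : HasDerivAt h' L 0) (hm : IsLocalMin h 0) : 0 ≤ L := by
  by_contra hL
  push Not at hL
  have e1 : deriv h =ᶠ[𝓝 0] h' := h1.mono fun s hs => hs.deriv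
  have e2 : deriv (deriv h) 0 = L := by
    rw [e1.deriv_eq]
    exact h2.deriv
  have e3 : deriv h 0 = 0 := hm.deriv_eq_zero
  have e4 : IsLocalMax h 0 :=
    isLocalMax_of_deriv_deriv_neg (by rw [e2]; exact hL) e3 h1.self_of_nhds.continuousAt
  have e5 : h =ᶠ[𝓝 0] fun _ => h 0 := by
    filter_upwards [hm, e4] with s a b using le_antisymm b a
  have e6 : deriv (deriv h) 0 = 0 := by
    rw [e5.deriv.deriv_eq]
    simp
  rw [e2] at e6
  linarith

theorem line_cont (z e : ℂ) : Continuous fun s : ℝ => z + s • e := by fun_prop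

theorem line_hasDeriv (z e : ℂ) (s : ℝ) : HasDerivAt (fun s : ℝ => z + s • e) e s := by
  have := ((hasDerivAt_id s).smul_const e).const_add z
  simpa using this

/-- derivatives along a line -/
theorem line_der {f : ℂ → ℝ} {z : ℂ} (e : ℂ) (hf : ContDiffAt ℝ 2 f z) :
    (∀ᶠ s in 𝓝 (0 : ℝ), HasDerivAt (fun s : ℝ => f (z + s • e)) (fderiv ℝ f (z + s • e) e) s) ∧
      HasDerivAt (fun s : ℝ => fderiv ℝ f (z + s • e) e)
        (fderiv ℝ (fun w => fderiv ℝ f w e) z e) 0 := by
  constructor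
  · have h1 : ∀ᶠ w in 𝓝 z, ContDiffAt ℝ 2 f w := hf.eventually (by simp)
    have h2 : Tendsto (fun s : ℝ => z + s • e) (𝓝 0) (𝓝 z) := by
      have := (line_cont z e).tendsto 0
      simpa using this
    filter_upwards [h2.eventually h1] with s hs
    exact (hs.differentiableAt (by simp)).hasFDerivAt.comp_hasDerivAt s (line_hasDeriv z e s)
  · have h1 : ContDiffAt ℝ 1 (fderiv ℝ f) z := hf.fderiv_right (by norm_num)
    have h2 : DifferentiableAt ℝ (fun w => fderiv ℝ f w e) z :=
      (h1.differentiableAt (by simp)).clm_apply (differentiableAt_const _)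
    have h3 : HasFDerivAt (fun w => fderiv ℝ f w e) (fderiv ℝ (fun w => fderiv ℝ f w e) z)
        (z + (0 : ℝ) • e) := by
      have := h2.hasFDerivAt
      simpa using this
    exact h3.comp_hasDerivAt (0 : ℝ) (line_hasDeriv z e 0)

theorem t4 : S4 := by
  intro K V u x₀ a hK ha hsq huc hu2 hV hlap hfr z hz
  by_contra hneg
  push Not at hneg
  set φ : ℂ → ℝ := fun z => Real.cos (a * (z - x₀).re) * Real.cos (a * (z - x₀).im) with hφ
  have hφc : Continuous φ := by
    rw [hφ]
    fun_prop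
  have hφpos : ∀ z ∈ K, 0 < φ z := by
    intro z hz
    obtain ⟨h1, h2⟩ := hsq z hz
    have h3 : |a * (z - x₀).re| < Real.pi / 2 := by rwa [abs_mul, abs_of_pos ha]
    have h4 : |a * (z - x₀).im| < Real.pi / 2 := by rwa [abs_mul, abs_of_pos ha]
    rw [abs_lt] at h3 h4
    exact mul_pos (Real.cos_pos_of_mem_Ioo ⟨by linarith [h3.1], h3.2⟩)
      (Real.cos_pos_of_mem_Ioo ⟨by linarith [h4.1], h4.2⟩)
  obtain ⟨z1, hz1, hmin⟩ := hK.exists_isMinOn ⟨z, hz⟩
    (huc.div hφc.continuousOn fun z hz => (hφpos z hz).ne')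
  set c : ℝ := u z1 / φ z1 with hc
  have hcneg : c < 0 := by
    have h1 : c ≤ u z / φ z := hmin hz
    exact h1.trans_lt (div_neg_of_neg_of_pos hneg (hφpos z hz))
  have hu1 : u z1 = c * φ z1 := by
    rw [hc, div_mul_cancel₀ _ (hφpos z1 hz1).ne']
  have hge : ∀ z ∈ K, 0 ≤ u z - c * φ z := by
    intro z hz
    have h1 : c ≤ u z / φ z := hmin hz
    rw [le_div_iff₀ (hφpos z hz)] at h1
    linarith
  have hint : z1 ∈ interior K := by
    rw [← self_diff_frontier]
    refine ⟨hz1, fun h => ?_⟩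
    have := hfr z1 h
    rw [hu1] at this
    have h2 := mul_neg_of_neg_of_pos hcneg (hφpos z1 hz1)
    linarith
  have hnhds : ∀ᶠ w in 𝓝 z1, w ∈ K := mem_interior_iff_mem_nhds.1 hint
  -- the second derivatives in the direction `e`
  have key : ∀ (e : ℂ) (p p' : ℝ → ℝ) (P : ℝ), (∀ s, φ (z1 + s • e) = p s) →
      (∀ s, HasDerivAt p (p' s) s) → HasDerivAt p' P 0 →
      0 ≤ fderiv ℝ (fun w => fderiv ℝ u w e) z1 e - c * P := by
    intro e p p' P hp hp' hP
    obtain ⟨h1, h2⟩ := line_der e (hu2 z1 hint)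
    refine snd_test (h := fun s => u (z1 + s • e) - c * p s)
      (h' := fun s => fderiv ℝ u (z1 + s • e) e - c * p' s) ?_ (h2.sub (hP.const_mul c)) ?_
    · filter_upwards [h1] with s hs
      exact hs.sub ((hp' s).const_mul c)
    · have h3 : Tendsto (fun s : ℝ => z1 + s • e) (𝓝 0) (𝓝 z1) := by
        have := (line_cont z1 e).tendsto 0
        simpa using this
      filter_upwards [h3.eventually hnhds] with s hs
      have h4 := hge _ hs
      rw [hp] at h4
      have h5 : u (z1 + (0 : ℝ) • e) - c * p 0 = 0 := by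
        rw [← hp, zero_smul, add_zero, hu1, sub_self]
      rw [h5]
      exact h4
  have re1 : ∀ s : ℝ, (z1 + s • (1 : ℂ) - x₀).re = (z1 - x₀).re + s := by
    intro s
    simp
    ring
  have im1 : ∀ s : ℝ, (z1 + s • (1 : ℂ) - x₀).im = (z1 - x₀).im := by
    intro s
    simp
  have re2 : ∀ s : ℝ, (z1 + s • I - x₀).re = (z1 - x₀).re := by
    intro s
    simp
  have im2 : ∀ s : ℝ, (z1 + s • I - x₀).im = (z1 - x₀).im + s := by
    intro s
    simp
    ring
  have hx := key 1 (fun s => Real.cos (a * ((z1 - x₀).re + s)) * Real.cos (a * (z1 - x₀).im))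
    (fun s => -Real.sin (a * ((z1 - x₀).re + s)) * a * Real.cos (a * (z1 - x₀).im))
    (-(a ^ 2 * φ z1)) (by
      intro s
      show Real.cos (a * (z1 + s • (1 : ℂ) - x₀).re) * Real.cos (a * (z1 + s • (1 : ℂ) - x₀).im) = _
      rw [re1, im1]) (by
      intro s
      have h1 : HasDerivAt (fun s : ℝ => a * ((z1 - x₀).re + s)) (a * 1) s :=
        ((hasDerivAt_id s).const_add _).const_mul a
      have h2 := (h1.cos).mul_const (Real.cos (a * (z1 - x₀).im))
      rwa [mul_one] at h2) (by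
      have h1 : HasDerivAt (fun s : ℝ => a * ((z1 - x₀).re + s)) (a * 1) 0 :=
        ((hasDerivAt_id (0 : ℝ)).const_add _).const_mul a
      have h2 : HasDerivAt (fun s => -Real.sin (a * ((z1 - x₀).re + s)) * a *
        Real.cos (a * (z1 - x₀).im)) _ 0 :=
        ((h1.sin).neg.mul_const a).mul_const (Real.cos (a * (z1 - x₀).im))
      refine h2.congr_deriv ?_
      rw [hφ]
      simp only [add_zero]
      ring)
  have hy := key I (fun s => Real.cos (a * (z1 - x₀).re) * Real.cos (a * ((z1 - x₀).im + s)))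
    (fun s => Real.cos (a * (z1 - x₀).re) * (-Real.sin (a * ((z1 - x₀).im + s)) * a))
    (-(a ^ 2 * φ z1)) (by
      intro s
      show Real.cos (a * (z1 + s • I - x₀).re) * Real.cos (a * (z1 + s • I - x₀).im) = _
      rw [re2, im2]) (by
      intro s
      have h1 : HasDerivAt (fun s : ℝ => a * ((z1 - x₀).im + s)) (a * 1) s :=
        ((hasDerivAt_id s).const_add _).const_mul a
      have h2 := (h1.cos).const_mul (Real.cos (a * (z1 - x₀).re))
      rwa [mul_one] at h2) (by
      have h1 : HasDerivAt (fun s : ℝ => a * ((z1 - x₀).im + s)) (a * 1) 0 :=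
        ((hasDerivAt_id (0 : ℝ)).const_add _).const_mul a
      have h2 : HasDerivAt (fun s => Real.cos (a * (z1 - x₀).re) *
        (-Real.sin (a * ((z1 - x₀).im + s)) * a)) _ 0 :=
        ((h1.sin).neg.mul_const a).const_mul (Real.cos (a * (z1 - x₀).re))
      refine h2.congr_deriv ?_
      rw [hφ]
      simp only [add_zero]
      ring)
  have hl := hlap z1 hint
  have hlap' : lap u z1 = fderiv ℝ (fun w => fderiv ℝ u w 1) z1 1 +
      fderiv ℝ (fun w => fderiv ℝ u w I) z1 I := rfl
  have hfin : (2 * a ^ 2 - V z1) * (c * φ z1) < 0 :=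
    mul_neg_of_pos_of_neg (by linarith [hV z1 hint]) (mul_neg_of_neg_of_pos hcneg (hφpos z1 hz1))
  rw [hu1] at hl
  nlinarith

end Pool.Agent.Q73.NL
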