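import Mathlib

/-!
# Sharp lower bound for the nodal length of solutions of `Δu + V u = 0` in the plane

Statements of the lemmas. `ℂ` is the plane, `μH[1]` is the length.

Main idea: a zero of `u` in the open disc `B(x,t)`, `t ≤ π/2` (for `V = 1`), forces two zeros on the circle
`∂B(x,t)`, so by Crofton's formula for circles the `t`-neighbourhood of the nodal set has the area at most
`2 t H¹(Z)`; the test function `sin (min (δ, π/2))`, `δ` the distance to the nodal set, then gives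
`H¹(Z) ≥ area / π`.
-/

set_option autoImplicit false
open MeasureTheory Filter Topology Complex
open scoped ContDiff ENNReal ComplexConjugate

namespace Pool.Agent.Q73.NL

noncomputable section

/-- `∂/∂x` -/
def dx (f : ℂ → ℝ) (z : ℂ) : ℝ := fderiv ℝ f z 1

/-- `∂/∂y` -/
def dy (f : ℂ → ℝ) (z : ℂ) : ℝ := fderiv ℝ f z I

/-- the Laplacian -/
def lap (f : ℂ → ℝ) (z : ℂ) : ℝ := dx (dx f) z + dy (dy f) z

/-- the centres of the circles of radius `t` that meet `T` -/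
def circ (t : ℝ) (T : Set ℂ) : Set ℂ := {x | ∃ y ∈ T, ‖x - y‖ = t}

/-- the centres of the circles of radius `t` that contain at least two points of `T` -/
def circ2 (t : ℝ) (T : Set ℂ) : Set ℂ := {x | ∃ y ∈ T, ∃ y' ∈ T, y ≠ y' ∧ ‖x - y‖ = t ∧ ‖x - y'‖ = t}

/-- `T` is almost contained in a line with the normal vector `a` (a unit vector) -/
def Flat (η : ℝ) (a : ℂ) (T : Set ℂ) : Prop :=
  ∀ y ∈ T, ∀ y' ∈ T, |(conj a * (y - y')).re| ≤ η * ‖y - y'‖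

/-- `Z` is covered by countably many Borel sets `C i` of small diameter in which it is almost straight -/
def LocFlat (Z : Set ℂ) : Prop :=
  ∀ η : ℝ, 0 < η → ∃ C : ℕ → Set ℂ, (∀ i, MeasurableSet (C i)) ∧ Z ⊆ ⋃ i, C i ∧
    ∀ i, Metric.ediam (C i) ≤ ENNReal.ofReal η ∧ ∃ a : ℂ, ‖a‖ = 1 ∧ Flat η a (C i ∩ Z)

/-- `u` has no zero of infinite order in `Ω` -/
def NoFlat (Ω : Set ℂ) (u : ℂ → ℝ) : Prop := ∀ z ∈ Ω, ∃ n : ℕ, iteratedFDeriv ℝ n u z ≠ 0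

/-- the zeros of `u` in `Ω` -/
def nod (Ω : Set ℂ) (u : ℂ → ℝ) : Set ℂ := {z | z ∈ Ω ∧ u z = 0}

/-- `u` is a smooth solution of `Δu + V u = 0` in `Ω` -/
structure Sol (Ω : Set ℂ) (V u : ℂ → ℝ) : Prop where
  smooth : ContDiffOn ℝ ∞ u Ω
  eq : ∀ z ∈ Ω, lap u z + V z * u z = 0

/-- the test function `sin (min (κ δ) (π/2))` -/
def sn (κ : ℝ) (A : Set ℂ) (z : ℂ) : ℝ := Real.sin (min (κ * Metric.infDist z A) (Real.pi / 2))

/-- its derivative `cos (min (κ δ) (π/2))` -/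
def cs (κ : ℝ) (A : Set ℂ) (z : ℂ) : ℝ := Real.cos (min (κ * Metric.infDist z A) (Real.pi / 2))

/-- S1: circles that meet a small almost straight set -/
def S1 : Prop := ∀ t : ℝ, 0 < t → ∀ ε : ℝ, 0 < ε → ∃ η : ℝ, 0 < η ∧ ∀ (a : ℂ) (T : Set ℂ), ‖a‖ = 1 →
  Metric.ediam T ≤ ENNReal.ofReal η → Flat η a T →
    volume (circ t T) ≤ ENNReal.ofReal (4 * t + ε) * Metric.ediam T

/-- S2: Crofton's formula for circles and locally almost straight sets, in the form needed -/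
def S2 : Prop := ∀ (t : ℝ) (Z : Set ℂ), 0 < t → MeasurableSet Z → LocFlat Z →
  volume (circ2 t Z) ≤ ENNReal.ofReal (2 * t) * (μH[1] : Measure ℂ) Z

/-- S3: zero sets of smooth functions without zeros of infinite order are locally almost straight -/
def S3 : Prop := ∀ (Ω : Set ℂ) (u : ℂ → ℝ), IsOpen Ω → ContDiffOn ℝ ∞ u Ω → NoFlat Ω u →
  LocFlat (nod Ω u)

/-- S4: weak minimum principle for supersolutions of `Δ + V`, `V < 2 a²`, in a compact set contained in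
the open square with centre `x₀` and half side `π / (2 a)` -/
def S4 : Prop := ∀ (K : Set ℂ) (V u : ℂ → ℝ) (x₀ : ℂ) (a : ℝ), IsCompact K → 0 < a →
  (∀ z ∈ K, a * |(z - x₀).re| < Real.pi / 2 ∧ a * |(z - x₀).im| < Real.pi / 2) →
  ContinuousOn u K → (∀ z ∈ interior K, ContDiffAt ℝ 2 u z) →
  (∀ z ∈ interior K, V z < 2 * a ^ 2) → (∀ z ∈ interior K, lap u z + V z * u z ≤ 0) →
  (∀ z ∈ frontier K, 0 ≤ u z) → ∀ z ∈ K, 0 ≤ u z

/-- S5: strong minimum principle in a disc -/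
def S5 : Prop := ∀ (c : ℂ) (r M : ℝ) (V u : ℂ → ℝ), 0 < r → (∀ z ∈ Metric.ball c r, 0 ≤ V z ∧ V z ≤ M) →
  (∀ z ∈ Metric.ball c r, ContDiffAt ℝ 2 u z) → (∀ z ∈ Metric.ball c r, lap u z + V z * u z = 0) →
  (∀ z ∈ Metric.ball c r, 0 ≤ u z) → (∃ z ∈ Metric.ball c r, u z = 0) →
  ∀ z ∈ Metric.ball c r, u z = 0

/-- S6: a zero in a small open disc forces two zeros on the circle -/
def S6 : Prop := ∀ (Ω : Set ℂ) (V u : ℂ → ℝ) (x : ℂ) (t M : ℝ), IsOpen Ω → Sol Ω V u → 0 < t →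
  (∀ z ∈ Ω, 0 ≤ V z ∧ V z ≤ M) → M * t ^ 2 < Real.pi ^ 2 / 2 → Metric.closedBall x t ⊆ Ω →
  (∃ z ∈ Metric.ball x t, u z = 0) → x ∈ circ2 t (nod Ω u)

/-- S7: the energy inequality for test functions supported off the nodal set -/
def S7 : Prop := ∀ (Ω : Set ℂ) (V u f : ℂ → ℝ), IsOpen Ω → Sol Ω V u → ContDiff ℝ ∞ f →
  HasCompactSupport f → tsupport f ⊆ {z | z ∈ Ω ∧ u z ≠ 0} →
  ∫ z, V z * f z ^ 2 ≤ ∫ z, (dx f z ^ 2 + dy f z ^ 2)

/-- S8: smooth approximation of the test function `sn κ A` with support off `A` -/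
def S8 : Prop := ∀ (A : Set ℂ) (κ ε : ℝ), IsClosed A → A.Nonempty → Bornology.IsBounded Aᶜ → 0 < κ → 0 < ε →
  ∃ f : ℂ → ℝ, ContDiff ℝ ∞ f ∧ HasCompactSupport f ∧ tsupport f ⊆ Aᶜ ∧
    ∀ z, |f z - sn κ A z| ≤ ε ∧ dx f z ^ 2 + dy f z ^ 2 ≤ κ ^ 2 * cs κ A z ^ 2 + ε

/-- S9: the test function inequality -/
def S9 : Prop := ∀ (Ω : Set ℂ) (V u : ℂ → ℝ) (κ : ℝ), IsOpen Ω → Bornology.IsBounded Ω → Sol Ω V u →
  0 < κ → (∀ z ∈ Ω, κ ^ 2 ≤ V z) → ContinuousOn V Ω →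
  ∫ z in Ω, sn κ (nod Ω u ∪ Ωᶜ) z ^ 2 ≤ ∫ z in Ω, cs κ (nod Ω u ∪ Ωᶜ) z ^ 2

/-- S10: the main inequality: `Ω` open and bounded, `κ² ≤ V ≤ M < 2 κ²`. -/
def S10 : Prop := ∀ (Ω : Set ℂ) (V u : ℂ → ℝ) (κ M : ℝ), IsOpen Ω → Bornology.IsBounded Ω → Sol Ω V u →
  NoFlat Ω u → 0 < κ → (∀ z ∈ Ω, κ ^ 2 ≤ V z ∧ V z ≤ M) → ContinuousOn V Ω → M < 2 * κ ^ 2 →
  ENNReal.ofReal (κ / Real.pi * (volume.real Ω -
    ∫ s in (0 : ℝ)..(Real.pi / 2), 2 * Real.sin (2 * s) *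
      volume.real {z | z ∈ Ω ∧ Metric.infDist z Ωᶜ ≤ s / κ})) ≤ (μH[1] : Measure ℂ) (nod Ω u)

end

end Pool.Agent.Q73.NL
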