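import Pool.Agent.Q73.NL.Stm

/-!
# Strong unique continuation in the plane for `|Δu| ≤ C |u|`: statements
-/

set_option autoImplicit false
open MeasureTheory Filter Topology Complex
open scoped ContDiff ENNReal ComplexConjugate

namespace Pool.Agent.Q73.NL

noncomputable section

/-- `∂̄ g = (g_x + i g_y) / 2` for `g : ℂ → ℂ` -/
def db (g : ℂ → ℂ) (z : ℂ) : ℂ := (fderiv ℝ g z 1 + I * fderiv ℝ g z I) / 2

/-- U1: `‖g‖ ≤ 4 r ‖∂̄ g‖` in `L²` for smooth functions supported in the disc of radius `r` -/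
def U1 : Prop := ∀ (r : ℝ) (g : ℂ → ℂ), 0 < r → ContDiff ℝ ∞ g → tsupport g ⊆ Metric.ball 0 r →
  ∫ z, ‖g z‖ ^ 2 ≤ 16 * r ^ 2 * ∫ z, ‖db g z‖ ^ 2

/-- U2: a smooth function vanishes to infinite order at `p` together with its derivatives -/
def U2 : Prop := ∀ (u : ℂ → ℝ) (p : ℂ), ContDiffAt ℝ ∞ u p → (∀ k : ℕ, iteratedFDeriv ℝ k u p = 0) →
  ∀ n k : ℕ, ∃ C r : ℝ, 0 < C ∧ 0 < r ∧ ∀ z ∈ Metric.ball p r, ‖iteratedFDeriv ℝ k u z‖ ≤ C * ‖z - p‖ ^ n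

/-- U3: strong unique continuation -/
def U3 : Prop := ∀ (Ω : Set ℂ) (C : ℝ) (u : ℂ → ℝ), IsOpen Ω → ContDiffOn ℝ ∞ u Ω →
  (∀ z ∈ Ω, |lap u z| ≤ C * |u z|) → ∀ z ∈ Ω, (∀ k : ℕ, iteratedFDeriv ℝ k u z = 0) →
    ∀ᶠ w in 𝓝 z, u w = 0

end

end Pool.Agent.Q73.NL
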