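import Pool.Agent.Q73.NL.T10
import Pool.Agent.Q73.NL.StmU

/-!
# The main inequality for all solutions; the boundary term
-/

set_option autoImplicit false
open MeasureTheory Filter Topology Complex Metric
open scoped ContDiff ENNReal ComplexConjugate

namespace Pool.Agent.Q73.NL

theorem hausdorff_ball (z : ℂ) (r : ℝ) (hr : 0 < r) : (μH[1] : Measure ℂ) (ball z r) = ⊤ := by
  rcases Measure.hausdorffMeasure_zero_or_top (X := ℂ) (d₁ := 1) (d₂ := 2) (by norm_num) (ball z r)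
    with h | h
  · exfalso
    have h1 : (μH[((Module.finrank ℝ ℂ : ℕ) : ℝ)] : Measure ℂ) (ball z r) = 0 := by
      rw [Complex.finrank_real_complex]
      exact_mod_cast h
    exact (isOpen_ball.measure_ne_zero _ ⟨z, mem_ball_self hr⟩) h1
  · exact h

/-- the lower bound in the main inequality -/
noncomputable def low (κ : ℝ) (Ω : Set ℂ) : ℝ := κ / Real.pi * (volume.real Ω -
    ∫ s in (0 : ℝ)..(Real.pi / 2), 2 * Real.sin (2 * s) *
      volume.real {z | z ∈ Ω ∧ infDist z Ωᶜ ≤ s / κ})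

theorem main (hU : U3) {Ω : Set ℂ} {V u : ℂ → ℝ} {κ M : ℝ} (hΩ : IsOpen Ω)
    (hb : Bornology.IsBounded Ω) (hu : Sol Ω V u) (hκ : 0 < κ)
    (hV : ∀ z ∈ Ω, κ ^ 2 ≤ V z ∧ V z ≤ M) (hVc : ContinuousOn V Ω) (hM : M < 2 * κ ^ 2) :
    ENNReal.ofReal (low κ Ω) ≤ (μH[1] : Measure ℂ) (nod Ω u) := by
  by_cases hnf : NoFlat Ω u
  · exact t10 Ω V u κ M hΩ hb hu hnf hκ hV hVc hM
  · unfold NoFlat at hnf
    push Not at hnf
    obtain ⟨z, hz, h0⟩ := hnf
    have h1 : ∀ᶠ w in 𝓝 z, u w = 0 := by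
      refine hU Ω M u hΩ hu.smooth ?_ z hz h0
      intro w hw
      have h2 := hu.eq w hw
      have h3 : lap u w = - (V w * u w) := by linarith
      have h4 : 0 ≤ V w := (sq_nonneg κ).trans (hV w hw).1
      rw [h3, abs_neg, abs_mul, abs_of_nonneg h4]
      exact mul_le_mul_of_nonneg_right (hV w hw).2 (abs_nonneg _)
    obtain ⟨r, hr, hr2⟩ := Metric.eventually_nhds_iff_ball.1 (h1.and (hΩ.mem_nhds hz))
    have h5 : ball z r ⊆ nod Ω u := fun w hw => ⟨(hr2 w hw).2, (hr2 w hw).1⟩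
    have h6 : (μH[1] : Measure ℂ) (nod Ω u) = ⊤ := by
      refine top_le_iff.1 ?_
      rw [← hausdorff_ball z r hr]
      exact measure_mono h5
    rw [h6]
    exact le_top

theorem bdy_tendsto {Ω : Set ℂ} (hΩ : IsOpen Ω) (hb : Bornology.IsBounded Ω) {ε : ℝ} (hε : 0 < ε) :
    ∃ t₀ : ℝ, 0 < t₀ ∧ ∀ t : ℝ, t ≤ t₀ → volume.real {z | z ∈ Ω ∧ infDist z Ωᶜ ≤ t} ≤ ε := by
  have hne := nonempty_A hb
  set s : ℕ → Set ℂ := fun n => {z | z ∈ Ω ∧ infDist z Ωᶜ ≤ 1 / ((n : ℝ) + 1)} with hs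
  have hmeas : ∀ n, MeasurableSet (s n) := fun n =>
    hΩ.measurableSet.inter (measurableSet_le (continuous_infDist_pt _).measurable measurable_const)
  have hanti : Antitone s := by
    intro m n hmn z hz
    refine ⟨hz.1, hz.2.trans ?_⟩
    exact one_div_le_one_div_of_le (by positivity) (by exact_mod_cast Nat.succ_le_succ hmn)
  have hinter : ⋂ n, s n = ∅ := by
    rw [Set.eq_empty_iff_forall_notMem]
    intro z hz
    rw [Set.mem_iInter] at hz
    have hzΩ := (hz 0).1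
    have hpos : 0 < infDist z Ωᶜ := by
      rw [← hΩ.isClosed_compl.notMem_iff_infDist_pos hne]
      exact fun h => h hzΩ
    obtain ⟨n, hn⟩ := exists_nat_one_div_lt hpos
    exact absurd (hz n).2 (not_le.2 hn)
  have hlim := tendsto_measure_iInter_atTop (μ := (volume : Measure ℂ))
    (fun n => (hmeas n).nullMeasurableSet) hanti
    ⟨0, (lt_of_le_of_lt (measure_mono fun z hz => hz.1) hb.measure_lt_top).ne⟩
  rw [hinter, measure_empty] at hlim
  have h1 : ∀ᶠ n in atTop, volume (s n) < ENNReal.ofReal ε :=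
    hlim.eventually (gt_mem_nhds (by positivity))
  obtain ⟨n, hn⟩ := h1.exists
  refine ⟨1 / ((n : ℝ) + 1), by positivity, fun t ht => ?_⟩
  have h2 : {z | z ∈ Ω ∧ infDist z Ωᶜ ≤ t} ⊆ s n := fun z hz => ⟨hz.1, hz.2.trans ht⟩
  have h3 : volume.real {z | z ∈ Ω ∧ infDist z Ωᶜ ≤ t} ≤ (ENNReal.ofReal ε).toReal :=
    ENNReal.toReal_mono ENNReal.ofReal_ne_top ((measure_mono h2).trans hn.le)
  rwa [ENNReal.toReal_ofReal hε.le] at h3

/-- the boundary term is small for large `κ` -/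
theorem low_ge {Ω : Set ℂ} (hΩ : IsOpen Ω) (hb : Bornology.IsBounded Ω) {ε : ℝ} (hε : 0 < ε) :
    ∃ κ₀ : ℝ, 0 < κ₀ ∧ ∀ κ : ℝ, κ₀ ≤ κ → κ / Real.pi * (volume.real Ω - ε) ≤ low κ Ω := by
  obtain ⟨t₀, ht₀, h⟩ := bdy_tendsto hΩ hb (half_pos hε)
  have hpi := Real.pi_pos
  refine ⟨Real.pi / 2 / t₀, by positivity, fun κ hκ => ?_⟩
  have hκ0 : 0 < κ := lt_of_lt_of_le (by positivity) hκ
  unfold low
  refine mul_le_mul_of_nonneg_left ?_ (by positivity)
  refine sub_le_sub_left ?_ _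
  have hsc : Continuous fun s : ℝ => 2 * Real.sin (2 * s) := by fun_prop
  have in2 : IntervalIntegrable (fun s => (2 * Real.sin (2 * s)) * bdy κ Ω s)
      volume 0 (Real.pi / 2) :=
    ((bdy_mono hκ0 hb).intervalIntegrable).continuousOn_mul hsc.continuousOn
  have in3 : IntervalIntegrable (fun s => (2 * Real.sin (2 * s)) * (ε / 2))
      volume 0 (Real.pi / 2) := (hsc.mul continuous_const).intervalIntegrable _ _
  have hle : ∫ s in (0 : ℝ)..(Real.pi / 2), (2 * Real.sin (2 * s)) * bdy κ Ω s ≤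
      ∫ s in (0 : ℝ)..(Real.pi / 2), (2 * Real.sin (2 * s)) * (ε / 2) := by
    refine intervalIntegral.integral_mono_on_of_le_Ioo (by positivity) in2 in3 fun s hs => ?_
    have h13 : 0 ≤ 2 * Real.sin (2 * s) := by
      have := Real.sin_nonneg_of_nonneg_of_le_pi (x := 2 * s) (by linarith [hs.1])
        (by linarith [hs.2])
      linarith
    refine mul_le_mul_of_nonneg_left (h _ ?_) h13
    rw [div_le_iff₀ hκ0]
    rw [div_le_iff₀ ht₀] at hκ
    linarith [hs.2]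
  have h2 : ∫ s in (0 : ℝ)..(Real.pi / 2), (2 * Real.sin (2 * s)) * (ε / 2) = ε := by
    rw [intervalIntegral.integral_mul_const, intervalIntegral.integral_of_le (by positivity),
      int_sin 0 (by positivity)]
    simp only [mul_zero, Real.cos_zero]
    ring
  calc ∫ s in (0 : ℝ)..(Real.pi / 2), 2 * Real.sin (2 * s) *
        volume.real {z | z ∈ Ω ∧ infDist z Ωᶜ ≤ s / κ} =
      ∫ s in (0 : ℝ)..(Real.pi / 2), (2 * Real.sin (2 * s)) * bdy κ Ω s := rfl
    _ ≤ _ := hle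
    _ = ε := h2

end Pool.Agent.Q73.NL
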