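import Pool.Agent.Q73.NL.F1

/-!
# Surfaces: the asymptotic lower bound for the nodal length in an isothermal chart
-/

set_option autoImplicit false
open MeasureTheory Filter Topology Complex Metric
open scoped ContDiff ENNReal ComplexConjugate

namespace Pool.Agent.Q73.NL

/-- restriction of a solution -/
theorem Sol.mono {Ω U : Set ℂ} {V u : ℂ → ℝ} (h : Sol Ω V u) (hU : U ⊆ Ω) : Sol U V u :=
  ⟨h.smooth.mono hU, fun z hz => h.eq z (hU hz)⟩

/-- one piece: `ρ` between `m` and `M < 2 m` on the bounded open set `Q` -/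
theorem piece (hU : U3) {Q : Set ℂ} {ρ : ℂ → ℝ} {m M : ℝ} (hQ : IsOpen Q)
    (hb : Bornology.IsBounded Q) (hm : 0 < m) (hρ : ∀ z ∈ Q, m ≤ ρ z ∧ ρ z ≤ M)
    (hρc : ContinuousOn ρ Q) (hM : M < 2 * m) {lam : ℕ → ℝ} (hl : Tendsto lam atTop atTop)
    {u : ℕ → ℂ → ℝ} (hu : ∀ n, Sol Q (fun z => lam n * ρ z) (u n)) :
    ENNReal.ofReal (m * volume.real Q / Real.pi) ≤
      liminf (fun n => (∫⁻ z in nod Q (u n), ENNReal.ofReal (Real.sqrt (ρ z)) ∂(μH[1] : Measure ℂ)) /
        ENNReal.ofReal (Real.sqrt (lam n))) atTop := by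
  have hpi := Real.pi_pos
  refine le_of_forall_lt fun c hc => ?_
  -- choose ε
  obtain ⟨ε, hε, hcε⟩ : ∃ ε : ℝ, 0 < ε ∧ c < ENNReal.ofReal (m * (volume.real Q - ε) / Real.pi) := by
    have hcont : Tendsto (fun ε : ℝ => ENNReal.ofReal (m * (volume.real Q - ε) / Real.pi)) (𝓝[>] 0)
        (𝓝 (ENNReal.ofReal (m * volume.real Q / Real.pi))) := by
      have h1 : Continuous fun ε : ℝ => ENNReal.ofReal (m * (volume.real Q - ε) / Real.pi) :=
        ENNReal.continuous_ofReal.comp (by fun_prop)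
      have h2 := (h1.tendsto 0).mono_left (nhdsWithin_le_nhds (s := Set.Ioi 0))
      simpa using h2
    have h3 := (hcont.eventually (lt_mem_nhds hc)).and self_mem_nhdsWithin
    obtain ⟨ε, h4, h5⟩ := h3.exists
    exact ⟨ε, h5, h4⟩
  obtain ⟨κ₀, hκ₀, hlow⟩ := low_ge hQ hb hε
  refine lt_of_lt_of_le hcε (le_liminf_of_le (by isBoundedDefault) ?_)
  have hev : ∀ᶠ n in atTop, κ₀ ^ 2 / m + 1 ≤ lam n := hl.eventually_ge_atTop _
  filter_upwards [hev] with n hn
  have hln : 0 < lam n := lt_of_lt_of_le (by positivity) hn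
  set κ := Real.sqrt (lam n * m) with hκdef
  have hκ : 0 < κ := Real.sqrt_pos.2 (by positivity)
  have hκ2 : κ ^ 2 = lam n * m := Real.sq_sqrt (by positivity)
  have hκκ : κ₀ ≤ κ := by
    rw [hκdef]
    refine Real.le_sqrt_of_sq_le ?_
    have h1 : κ₀ ^ 2 / m ≤ lam n := by linarith
    rwa [div_le_iff₀ hm] at h1
  have h1 := main hU (Ω := Q) (V := fun z => lam n * ρ z) (u := u n) (κ := κ) (M := lam n * M) hQ hb
    (hu n) hκ (fun z hz => ⟨by rw [hκ2]; exact mul_le_mul_of_nonneg_left (hρ z hz).1 hln.le,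
      mul_le_mul_of_nonneg_left (hρ z hz).2 hln.le⟩) (continuousOn_const.mul hρc)
    (by rw [hκ2]; nlinarith)
  have h2 := (ENNReal.ofReal_le_ofReal (hlow κ hκκ)).trans h1
  have h3 : ENNReal.ofReal (Real.sqrt m) * (μH[1] : Measure ℂ) (nod Q (u n)) ≤
      ∫⁻ z in nod Q (u n), ENNReal.ofReal (Real.sqrt (ρ z)) ∂(μH[1] : Measure ℂ) := by
    rw [← setLIntegral_const]
    exact setLIntegral_mono_ae' (nod_meas hQ (hu n)) (Eventually.of_forall fun z hz =>
      ENNReal.ofReal_le_ofReal (Real.sqrt_le_sqrt (hρ z hz.1).1))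
  rw [ENNReal.le_div_iff_mul_le (Or.inl (by simpa using hln)) (Or.inl ENNReal.ofReal_ne_top)]
  refine le_trans ?_ h3
  have h4 : ENNReal.ofReal (m * (volume.real Q - ε) / Real.pi) * ENNReal.ofReal (Real.sqrt (lam n)) =
      ENNReal.ofReal (Real.sqrt m) * ENNReal.ofReal (κ / Real.pi * (volume.real Q - ε)) := by
    rw [← ENNReal.ofReal_mul' (Real.sqrt_nonneg _), ← ENNReal.ofReal_mul (Real.sqrt_nonneg _)]
    congr 1
    rw [hκdef, Real.sqrt_mul hln.le]
    have h5 : Real.sqrt m * Real.sqrt m = m := Real.mul_self_sqrt hm.le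
    field_simp
    linear_combination (-(volume.real Q - ε)) * h5
  rw [h4]
  exact mul_le_mul' le_rfl h2

theorem exists_grid {U : Set ℂ} {ρ : ℂ → ℝ} (hU : IsOpen U) (hρ : ContinuousOn ρ U) {q : ℝ}
    (hq : 0 < q) : ∃ a : ℝ, 0 < a ∧ ∀ k : ℤ, volume {z | z ∈ U ∧ ρ z = a * q ^ k} = 0 := by
  have hB := Measure.countable_meas_level_set_pos₀ (μ := (volume : Measure ℂ).restrict U) (g := ρ)
    (hρ.aemeasurable hU.measurableSet).nullMeasurable
  set B : Set ℝ := {t | 0 < (volume : Measure ℂ).restrict U {a | ρ a = t}} with hBdef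
  have hC : (⋃ k : ℤ, (fun a : ℝ => a * q ^ k) ⁻¹' B).Countable :=
    Set.countable_iUnion fun k => hB.preimage fun a b hab =>
      mul_right_cancel₀ (zpow_ne_zero k hq.ne') hab
  have h0 : volume (⋃ k : ℤ, (fun a : ℝ => a * q ^ k) ⁻¹' B) = 0 := hC.measure_zero _
  have h1 : ¬ Set.Ioi (0 : ℝ) ⊆ ⋃ k : ℤ, (fun a : ℝ => a * q ^ k) ⁻¹' B := by
    intro h
    have h2 := measure_mono (μ := volume) h
    rw [h0, Real.volume_Ioi] at h2
    exact absurd h2 (by simp)
  obtain ⟨a, ha, han⟩ := Set.not_subset.1 h1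
  refine ⟨a, ha, fun k => ?_⟩
  rw [Set.mem_iUnion] at han
  push Not at han
  have h3 := han k
  rw [Set.mem_preimage, hBdef, Set.mem_ofPred_eq, not_lt, nonpos_iff_eq_zero,
    Measure.restrict_apply' hU.measurableSet] at h3
  rw [← h3]
  congr 1
  ext z
  simp only [Set.mem_inter_iff, Set.mem_ofPred_eq]
  tauto

/-- the normalized nodal length in `U` -/
noncomputable def nl (U : Set ℂ) (ρ : ℂ → ℝ) (lam : ℝ) (u : ℂ → ℝ) : ℝ≥0∞ :=
  (∫⁻ z in nod U u, ENNReal.ofReal (Real.sqrt (ρ z)) ∂(μH[1] : Measure ℂ)) /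
    ENNReal.ofReal (Real.sqrt lam)

theorem bounded_case (hU3 : U3) {U : Set ℂ} {ρ : ℂ → ℝ} (hU : IsOpen U)
    (hb : Bornology.IsBounded U) (hρ : ∀ z ∈ U, 0 < ρ z)
    (hρc : ContinuousOn ρ U) {lam : ℕ → ℝ} (hl : Tendsto lam atTop atTop)
    {u : ℕ → ℂ → ℝ} (hu : ∀ n, Sol U (fun z => lam n * ρ z) (u n)) {q : ℝ} (hq1 : 1 < q)
    (hq2 : q < 2) :
    ∫⁻ z in U, ENNReal.ofReal (ρ z) ≤ ENNReal.ofReal (q * Real.pi) *
      liminf (fun n => nl U ρ (lam n) (u n)) atTop := by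
  have hpi := Real.pi_pos
  have hq0 : 0 < q := by linarith
  obtain ⟨a, ha, hnull⟩ := exists_grid hU hρc hq0
  set W : ℤ → Set ℂ := fun k => {z | z ∈ U ∧ a * q ^ k < ρ z ∧ ρ z < a * q ^ (k + 1)} with hW
  have hWsub : ∀ k, W k ⊆ U := fun k z hz => hz.1
  have hWo : ∀ k, IsOpen (W k) := fun k =>
    hρc.isOpen_inter_preimage hU (isOpen_Ioo (a := a * q ^ k) (b := a * q ^ (k + 1)))
  have hWb : ∀ k, Bornology.IsBounded (W k) := fun k => hb.subset (hWsub k)
  have hWd : Pairwise (Function.onFun Disjoint W) := by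
    have key : ∀ i j : ℤ, i < j → Disjoint (W i) (W j) := by
      intro i j hij
      rw [Set.disjoint_left]
      intro z hz hz'
      have h1 : q ^ (i + 1) ≤ q ^ j := zpow_le_zpow_right₀ hq1.le (by omega)
      have h2 := hz.2.2
      have h3 := hz'.2.1
      nlinarith
    intro i j hij
    rcases lt_or_gt_of_ne hij with h | h
    · exact key i j h
    · exact (key j i h).symm
  have hcov : U ⊆ (⋃ k, W k) ∪ ⋃ k : ℤ, {z | z ∈ U ∧ ρ z = a * q ^ k} := by
    intro z hz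
    by_cases h : ∃ k : ℤ, ρ z = a * q ^ k
    · right
      obtain ⟨k, hk⟩ := h
      exact Set.mem_iUnion.2 ⟨k, hz, hk⟩
    · left
      push Not at h
      obtain ⟨k, hk1, hk2⟩ := exists_mem_Ico_zpow (div_pos (hρ z hz) ha) hq1
      rw [le_div_iff₀ ha] at hk1
      rw [div_lt_iff₀ ha] at hk2
      refine Set.mem_iUnion.2 ⟨k, hz, lt_of_le_of_ne (by linarith) (fun h' => h k h'.symm), by linarith⟩
  have hI1 : ∫⁻ z in U, ENNReal.ofReal (ρ z) ≤ ∑' k, ∫⁻ z in W k, ENNReal.ofReal (ρ z) := by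
    refine (lintegral_mono_set hcov).trans ((lintegral_union_le _ _ _).trans ?_)
    rw [lintegral_iUnion (fun k => (hWo k).measurableSet) hWd,
      setLIntegral_measure_zero _ _ (measure_iUnion_null hnull), add_zero]
  have hI2 : ∀ k, ∫⁻ z in W k, ENNReal.ofReal (ρ z) ≤ ENNReal.ofReal (q * Real.pi) *
      liminf (fun n => nl (W k) ρ (lam n) (u n)) atTop := by
    intro k
    have hk0 : 0 < a * q ^ k := mul_pos ha (zpow_pos hq0 k)
    have hk1 : a * q ^ (k + 1) = q * (a * q ^ k) := by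
      rw [zpow_add_one₀ hq0.ne']; ring
    have h1 := piece hU3 (Q := W k) (ρ := ρ) (m := a * q ^ k) (M := a * q ^ (k + 1)) (hWo k) (hWb k)
      hk0 (fun z hz => ⟨hz.2.1.le, hz.2.2.le⟩) (hρc.mono (hWsub k)) (by rw [hk1]; nlinarith) hl
      (fun n => (hu n).mono (hWsub k))
    have h2 : ∫⁻ z in W k, ENNReal.ofReal (ρ z) ≤ ENNReal.ofReal (a * q ^ (k + 1)) * volume (W k) := by
      rw [← setLIntegral_const]
      exact setLIntegral_mono measurable_const fun z hz => ENNReal.ofReal_le_ofReal hz.2.2.le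
    refine h2.trans ?_
    have h3 : ENNReal.ofReal (a * q ^ (k + 1)) * volume (W k) = ENNReal.ofReal (q * Real.pi) *
        ENNReal.ofReal (a * q ^ k * volume.real (W k) / Real.pi) := by
      have h4 : volume (W k) = ENNReal.ofReal (volume.real (W k)) :=
        (ofReal_measureReal ((hWb k).measure_lt_top).ne).symm
      rw [h4, ← ENNReal.ofReal_mul (by rw [hk1]; positivity), ← ENNReal.ofReal_mul (by positivity), hk1]
      congr 1
      field_simp
    rw [h3]
    exact mul_le_mul' le_rfl h1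
  have hI3 : ∑' k, liminf (fun n => nl (W k) ρ (lam n) (u n)) atTop ≤
      liminf (fun n => nl U ρ (lam n) (u n)) atTop := by
    have h1 := lintegral_liminf_le (μ := (Measure.count : Measure ℤ)) (u := (atTop : Filter ℕ))
      (f := fun n k => nl (W k) ρ (lam n) (u n)) (fun n => measurable_of_countable _)
    rw [lintegral_count] at h1
    refine h1.trans (liminf_le_liminf (Eventually.of_forall fun n => ?_))
    rw [lintegral_count]
    unfold nl
    simp only [div_eq_mul_inv]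
    rw [ENNReal.tsum_mul_right]
    refine mul_le_mul' ?_ le_rfl
    rw [← lintegral_iUnion (fun k => nod_meas (hWo k) ((hu n).mono (hWsub k)))]
    · exact lintegral_mono_set (Set.iUnion_subset fun k z hz => ⟨hWsub k hz.1, hz.2⟩)
    · intro i j hij
      exact (hWd hij).mono (fun z hz => hz.1) (fun z hz => hz.1)
  calc ∫⁻ z in U, ENNReal.ofReal (ρ z) ≤ ∑' k, ∫⁻ z in W k, ENNReal.ofReal (ρ z) := hI1
    _ ≤ ∑' k, ENNReal.ofReal (q * Real.pi) * liminf (fun n => nl (W k) ρ (lam n) (u n)) atTop :=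
      ENNReal.tsum_le_tsum hI2
    _ = ENNReal.ofReal (q * Real.pi) * ∑' k, liminf (fun n => nl (W k) ρ (lam n) (u n)) atTop :=
      ENNReal.tsum_mul_left
    _ ≤ _ := mul_le_mul' le_rfl hI3

theorem nl_mono {U U' : Set ℂ} (h : U ⊆ U') (ρ : ℂ → ℝ) (lam : ℝ) (u : ℂ → ℝ) :
    nl U ρ lam u ≤ nl U' ρ lam u :=
  ENNReal.div_le_div_right (lintegral_mono_set
    (show nod U u ⊆ nod U' u from fun _ hz => ⟨h hz.1, hz.2⟩)) _

theorem surf (hU3 : U3) {U : Set ℂ} {ρ : ℂ → ℝ} (hU : IsOpen U) (hρ : ∀ z ∈ U, 0 < ρ z)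
    (hρc : ContinuousOn ρ U) {lam : ℕ → ℝ} (hl : Tendsto lam atTop atTop)
    {u : ℕ → ℂ → ℝ} (hu : ∀ n, Sol U (fun z => lam n * ρ z) (u n)) :
    ENNReal.ofReal (1 / Real.pi) * ∫⁻ z in U, ENNReal.ofReal (ρ z) ≤
      liminf (fun n => nl U ρ (lam n) (u n)) atTop := by
  have hpi := Real.pi_pos
  set L := liminf (fun n => nl U ρ (lam n) (u n)) atTop with hL
  by_cases hLt : L = ⊤
  · rw [hLt]; exact le_top
  have h1 : ∀ R : ℕ, ∀ q : ℝ, 1 < q → q < 2 →
      ∫⁻ z in U ∩ ball 0 R, ENNReal.ofReal (ρ z) ≤ ENNReal.ofReal (q * Real.pi) * L := by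
    intro R q hq1 hq2
    have hsub : U ∩ ball 0 (R : ℝ) ⊆ U := Set.inter_subset_left
    refine (bounded_case hU3 (hU.inter isOpen_ball) (isBounded_ball.subset Set.inter_subset_right)
      (fun z hz => hρ z hz.1) (hρc.mono hsub) hl (fun n => (hu n).mono hsub) hq1 hq2).trans ?_
    exact mul_le_mul' le_rfl (liminf_le_liminf (Eventually.of_forall fun n => nl_mono hsub _ _ _))
  have h2 : ∀ R : ℕ, ∫⁻ z in U ∩ ball 0 R, ENNReal.ofReal (ρ z) ≤ ENNReal.ofReal Real.pi * L := by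
    intro R
    have hcont : Tendsto (fun q : ℝ => ENNReal.ofReal (q * Real.pi) * L) (𝓝[>] 1)
        (𝓝 (ENNReal.ofReal Real.pi * L)) := by
      have h3 : Tendsto (fun q : ℝ => ENNReal.ofReal (q * Real.pi)) (𝓝[>] 1)
          (𝓝 (ENNReal.ofReal Real.pi)) := by
        have h4 : Continuous fun q : ℝ => ENNReal.ofReal (q * Real.pi) :=
          ENNReal.continuous_ofReal.comp (by fun_prop)
        have h5 := (h4.tendsto 1).mono_left (nhdsWithin_le_nhds (s := Set.Ioi 1))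
        simpa using h5
      exact ENNReal.Tendsto.mul_const h3 (Or.inr hLt)
    refine ge_of_tendsto hcont ?_
    filter_upwards [Ioo_mem_nhdsGT (show (1 : ℝ) < 2 by norm_num)] with q hq
    exact h1 R q hq.1 hq.2
  have h3 : ∫⁻ z in U, ENNReal.ofReal (ρ z) ≤ ENNReal.ofReal Real.pi * L := by
    have h4 : U = ⋃ R : ℕ, U ∩ ball 0 (R : ℝ) := by
      rw [← Set.inter_iUnion, iUnion_ball_nat, Set.inter_univ]
    rw [h4, setLIntegral_iUnion_of_directed]
    · exact iSup_le h2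
    · refine Monotone.directed_le fun m n hmn => ?_
      exact Set.inter_subset_inter_right _ (ball_subset_ball (by exact_mod_cast hmn))
  calc ENNReal.ofReal (1 / Real.pi) * ∫⁻ z in U, ENNReal.ofReal (ρ z) ≤
      ENNReal.ofReal (1 / Real.pi) * (ENNReal.ofReal Real.pi * L) := mul_le_mul' le_rfl h3
    _ = L := by
      rw [← mul_assoc, ← ENNReal.ofReal_mul (by positivity), one_div, inv_mul_cancel₀ hpi.ne',
        ENNReal.ofReal_one, one_mul]

end Pool.Agent.Q73.NL
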