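import Pool.Agent.Q73.NL.F2

/-!
# Discs, and the sharp example in the square
-/

set_option autoImplicit false
open MeasureTheory Filter Topology Complex Metric
open scoped ContDiff ENNReal ComplexConjugate

namespace Pool.Agent.Q73.NL

theorem vol_ball (x : ℂ) {R : ℝ} (hR : 0 ≤ R) : volume.real (ball x R) = Real.pi * R ^ 2 := by
  rw [measureReal_def, Complex.volume_ball, ENNReal.toReal_mul, ENNReal.toReal_pow,
    ENNReal.toReal_ofReal hR]
  simp [mul_comm]

theorem layer_ball (x : ℂ) {R s : ℝ} (hR : 0 < R) (hs : 0 ≤ s) :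
    volume.real {z | z ∈ ball x R ∧ infDist z (ball x R)ᶜ ≤ s} ≤ 2 * Real.pi * R * s := by
  have hpi := Real.pi_pos
  have hfin : ∀ S : Set ℂ, S ⊆ ball x R → volume S ≠ ⊤ := fun S hS =>
    (lt_of_le_of_lt (measure_mono hS) isBounded_ball.measure_lt_top).ne
  rcases le_total s R with h | h
  · have h1 : {z | z ∈ ball x R ∧ infDist z (ball x R)ᶜ ≤ s} ⊆ ball x R \ ball x (R - s) := by
      rintro z ⟨hz, hzs⟩
      refine ⟨hz, fun hz' => ?_⟩
      rw [mem_ball] at hz'
      have hne : ((ball x R)ᶜ).Nonempty := nonempty_A isBounded_ball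
      have h2 : s < infDist z (ball x R)ᶜ := by
        obtain ⟨y, hy⟩ := exists_between (show s < R - dist z x by linarith)
        refine lt_of_lt_of_le hy.1 ((le_infDist hne).2 fun w hw => ?_)
        rw [Set.mem_compl_iff, mem_ball, not_lt] at hw
        have h3 := dist_triangle w z x
        rw [dist_comm w z] at h3
        linarith [hy.2]
      linarith
    have h2 : volume.real (ball x R \ ball x (R - s)) = Real.pi * R ^ 2 - Real.pi * (R - s) ^ 2 := by
      have h3 : ball x (R - s) ⊆ ball x R := ball_subset_ball (by linarith)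
      rw [measureReal_sdiff h3 measurableSet_ball (hfin _ le_rfl),
        vol_ball x hR.le, vol_ball x (by linarith)]
    refine (measureReal_mono h1 (hfin _ Set.sdiff_subset)).trans ?_
    rw [h2]
    nlinarith [mul_nonneg hpi.le (sq_nonneg s)]
  · refine (measureReal_mono (fun z hz => hz.1) (hfin _ le_rfl)).trans ?_
    rw [vol_ball x hR.le]
    nlinarith [mul_le_mul_of_nonneg_left h (mul_pos hpi hR).le, mul_pos hpi hR]

theorem low_ball (x : ℂ) {R : ℝ} (hR : 0 < R) : R ^ 2 - Real.pi * R ≤ low 1 (ball x R) := by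
  have hpi := Real.pi_pos
  unfold low
  have hsc : Continuous fun s : ℝ => 2 * Real.sin (2 * s) := by fun_prop
  have in2 : IntervalIntegrable (fun s => (2 * Real.sin (2 * s)) * bdy 1 (ball x R) s)
      volume 0 (Real.pi / 2) :=
    ((bdy_mono one_pos isBounded_ball).intervalIntegrable).continuousOn_mul hsc.continuousOn
  have in3 : IntervalIntegrable (fun s => Real.pi * R * (4 * s * Real.sin (2 * s)))
      volume 0 (Real.pi / 2) :=
    (by fun_prop : Continuous fun s : ℝ => Real.pi * R * (4 * s * Real.sin (2 * s))).intervalIntegrable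
      _ _
  have hle : ∫ s in (0 : ℝ)..(Real.pi / 2), (2 * Real.sin (2 * s)) * bdy 1 (ball x R) s ≤
      ∫ s in (0 : ℝ)..(Real.pi / 2), Real.pi * R * (4 * s * Real.sin (2 * s)) := by
    refine intervalIntegral.integral_mono_on_of_le_Ioo (by positivity) in2 in3 fun s hs => ?_
    have h13 : 0 ≤ 2 * Real.sin (2 * s) := by
      have := Real.sin_nonneg_of_nonneg_of_le_pi (x := 2 * s) (by linarith [hs.1])
        (by linarith [hs.2])
      linarith
    have h14 : bdy 1 (ball x R) s ≤ 2 * Real.pi * R * s := by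
      unfold bdy
      rw [div_one]
      exact layer_ball x hR hs.1.le
    refine (mul_le_mul_of_nonneg_left h14 h13).trans (le_of_eq ?_)
    ring
  rw [intervalIntegral.integral_const_mul, int_s_sin] at hle
  rw [vol_ball x hR.le]
  have h1 : ∫ s in (0 : ℝ)..(Real.pi / 2), 2 * Real.sin (2 * s) *
      volume.real {z | z ∈ ball x R ∧ infDist z (ball x R)ᶜ ≤ s / 1} =
      ∫ s in (0 : ℝ)..(Real.pi / 2), (2 * Real.sin (2 * s)) * bdy 1 (ball x R) s := rfl
  rw [h1]
  have h2 : R ^ 2 - Real.pi * R = 1 / Real.pi * (Real.pi * R ^ 2 - Real.pi * R * Real.pi) := by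
    field_simp
  rw [h2]
  exact mul_le_mul_of_nonneg_left (sub_le_sub_left hle _) (by positivity)

/-- the open square `(0, π)²` -/
def sq : Set ℂ := {z | (0 < z.re ∧ z.re < Real.pi) ∧ (0 < z.im ∧ z.im < Real.pi)}

/-- `sin (n x) sin y` -/
noncomputable def ex (n : ℕ) (z : ℂ) : ℝ := Real.sin (n * z.re) * Real.sin z.im

theorem ex_smooth (n : ℕ) : ContDiff ℝ ∞ (ex n) := by
  unfold ex
  have h1 : ContDiff ℝ ∞ (fun z : ℂ => z.re) := Complex.reCLM.contDiff
  have h2 : ContDiff ℝ ∞ (fun z : ℂ => z.im) := Complex.imCLM.contDiff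
  fun_prop

theorem ex_dx (n : ℕ) : dx (ex n) = fun z => n * Real.cos (n * z.re) * Real.sin z.im := by
  funext z
  have h1 : HasFDerivAt (fun z : ℂ => z.re) Complex.reCLM z := Complex.reCLM.hasFDerivAt
  have h2 : HasFDerivAt (fun z : ℂ => z.im) Complex.imCLM z := Complex.imCLM.hasFDerivAt
  have h3 := ((h1.const_mul (n : ℝ)).sin).mul h2.sin
  have h4 : fderiv ℝ (ex n) z = _ := h3.fderiv
  unfold dx
  rw [h4]
  simp
  ring

theorem ex_dy (n : ℕ) : dy (ex n) = fun z => Real.sin (n * z.re) * Real.cos z.im := by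
  funext z
  have h1 : HasFDerivAt (fun z : ℂ => z.re) Complex.reCLM z := Complex.reCLM.hasFDerivAt
  have h2 : HasFDerivAt (fun z : ℂ => z.im) Complex.imCLM z := Complex.imCLM.hasFDerivAt
  have h3 := ((h1.const_mul (n : ℝ)).sin).mul h2.sin
  have h4 : fderiv ℝ (ex n) z = _ := h3.fderiv
  unfold dy
  rw [h4]
  simp

theorem ex_lap (n : ℕ) (z : ℂ) : lap (ex n) z + ((n : ℝ) ^ 2 + 1) * ex n z = 0 := by
  have h1 : HasFDerivAt (fun z : ℂ => z.re) Complex.reCLM z := Complex.reCLM.hasFDerivAt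
  have h2 : HasFDerivAt (fun z : ℂ => z.im) Complex.imCLM z := Complex.imCLM.hasFDerivAt
  have h3 := (((h1.const_mul (n : ℝ)).cos).const_mul (n : ℝ)).mul h2.sin
  have h4 := ((h1.const_mul (n : ℝ)).sin).mul h2.cos
  unfold lap
  rw [ex_dx, ex_dy]
  have e1 : dx (fun z : ℂ => n * Real.cos (n * z.re) * Real.sin z.im) z =
      - (n : ℝ) ^ 2 * ex n z := by
    have h5 : fderiv ℝ (fun z : ℂ => n * Real.cos (n * z.re) * Real.sin z.im) z = _ := h3.fderiv
    unfold dx
    rw [h5]
    simp [ex]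
    ring
  have e2 : dy (fun z : ℂ => Real.sin (n * z.re) * Real.cos z.im) z = - ex n z := by
    have h5 : fderiv ℝ (fun z : ℂ => Real.sin (n * z.re) * Real.cos z.im) z = _ := h4.fderiv
    unfold dy
    rw [h5]
    simp [ex]
  rw [e1, e2]
  ring

theorem seg_len (a : ℝ) : (μH[1] : Measure ℂ) {z | z.re = a ∧ 0 < z.im ∧ z.im < Real.pi} ≤
    ENNReal.ofReal Real.pi := by
  have hiso : Isometry (fun t : ℝ => (a : ℂ) + t * I) := by
    refine Isometry.of_dist_eq fun s t => ?_
    rw [dist_eq_norm, Real.dist_eq]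
    have : (a : ℂ) + s * I - ((a : ℂ) + t * I) = ((s - t : ℝ) : ℂ) * I := by push_cast; ring
    rw [this, norm_mul, norm_I, mul_one, Complex.norm_real, Real.norm_eq_abs]
  have h1 : {z : ℂ | z.re = a ∧ 0 < z.im ∧ z.im < Real.pi} ⊆
      (fun t : ℝ => (a : ℂ) + t * I) '' Set.Ioo 0 Real.pi := by
    rintro z ⟨h1, h2, h3⟩
    refine ⟨z.im, ⟨h2, h3⟩, ?_⟩
    apply Complex.ext <;> simp [h1]
  refine (measure_mono h1).trans ?_
  rw [hiso.hausdorffMeasure_image (Or.inl zero_le_one), hausdorffMeasure_real, Real.volume_Ioo, sub_zero]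

theorem ex_len (n : ℕ) (hn : 1 ≤ n) :
    (μH[1] : Measure ℂ) (nod sq (ex n)) ≤ ENNReal.ofReal ((n - 1) * Real.pi) := by
  have hpi := Real.pi_pos
  have hn0 : (0 : ℝ) < n := by exact_mod_cast hn
  have h1 : nod sq (ex n) ⊆ ⋃ k ∈ Finset.Ico 1 n,
      {z : ℂ | z.re = k * Real.pi / n ∧ 0 < z.im ∧ z.im < Real.pi} := by
    rintro z ⟨⟨⟨h1, h2⟩, h3, h4⟩, h5⟩
    have h6 : Real.sin (n * z.re) = 0 := by
      rcases mul_eq_zero.1 h5 with h | h
      · exact h
      · exact absurd h (Real.sin_pos_of_pos_of_lt_pi h3 h4).ne'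
    obtain ⟨k, hk⟩ := Real.sin_eq_zero_iff.1 h6
    have hk0 : 0 < k := by
      have : (0 : ℝ) < k * Real.pi := by rw [hk]; positivity
      exact_mod_cast (pos_iff_pos_of_mul_pos this).2 hpi
    have hkn : k < n := by
      have h7 : (k : ℝ) * Real.pi < n * Real.pi := by
        rw [hk]; exact mul_lt_mul_of_pos_left h2 hn0
      exact_mod_cast lt_of_mul_lt_mul_right h7 hpi.le
    obtain ⟨m, rfl⟩ : ∃ m : ℕ, k = m := ⟨k.toNat, (Int.toNat_of_nonneg hk0.le).symm⟩
    simp only [Set.mem_iUnion, Finset.mem_Ico]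
    refine ⟨m, ⟨by omega, by omega⟩, ?_, h3, h4⟩
    rw [eq_div_iff hn0.ne', mul_comm, ← hk]
    simp
  refine (measure_mono h1).trans ((measure_biUnion_finset_le _ _).trans ?_)
  refine (Finset.sum_le_sum fun (k : ℕ) _ => seg_len ((k : ℝ) * Real.pi / n)).trans ?_
  rw [Finset.sum_const, Nat.card_Ico, nsmul_eq_mul]
  have h2 : ((n - 1 : ℕ) : ℝ≥0∞) = ENNReal.ofReal ((n : ℝ) - 1) := by
    rw [← ENNReal.ofReal_natCast, Nat.cast_sub hn, Nat.cast_one]
  rw [h2, ← ENNReal.ofReal_mul (by linarith [show (1 : ℝ) ≤ n by exact_mod_cast hn])]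

theorem vol_sq : volume sq = ENNReal.ofReal (Real.pi ^ 2) := by
  have h1 : sq = Complex.measurableEquivRealProd ⁻¹' (Set.Ioo 0 Real.pi ×ˢ Set.Ioo 0 Real.pi) := by
    ext z
    simp [sq, Complex.measurableEquivRealProd_apply]
  rw [h1, Complex.volume_preserving_equiv_real_prod.measure_preimage
    ((measurableSet_Ioo.prod measurableSet_Ioo).nullMeasurableSet), Measure.volume_eq_prod,
    Measure.prod_prod, Real.volume_Ioo, sub_zero, ← ENNReal.ofReal_mul Real.pi_pos.le, pow_two]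

theorem ex_sharp (n : ℕ) (hn : 1 ≤ n) : (μH[1] : Measure ℂ) (nod sq (ex n)) ≤
    ENNReal.ofReal (Real.sqrt ((n : ℝ) ^ 2 + 1) / Real.pi) * volume sq := by
  have hpi := Real.pi_pos
  refine (ex_len n hn).trans ?_
  rw [vol_sq, ← ENNReal.ofReal_mul (by positivity)]
  refine ENNReal.ofReal_le_ofReal ?_
  have h1 : (n : ℝ) ≤ Real.sqrt ((n : ℝ) ^ 2 + 1) := Real.le_sqrt_of_sq_le (by linarith)
  have h2 : Real.sqrt ((n : ℝ) ^ 2 + 1) / Real.pi * Real.pi ^ 2 =
      Real.sqrt ((n : ℝ) ^ 2 + 1) * Real.pi := by field_simp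
  rw [h2]
  nlinarith

theorem isOpen_sq : IsOpen sq := by
  have h1 : IsOpen {z : ℂ | 0 < z.re ∧ z.re < Real.pi} :=
    (isOpen_lt continuous_const Complex.continuous_re).inter
      (isOpen_lt Complex.continuous_re continuous_const)
  have h2 : IsOpen {z : ℂ | 0 < z.im ∧ z.im < Real.pi} :=
    (isOpen_lt continuous_const Complex.continuous_im).inter
      (isOpen_lt Complex.continuous_im continuous_const)
  exact h1.inter h2

end Pool.Agent.Q73.NL
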