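import Pool.Agent.Q73.NL.F4

/-!
# Normalized nodal measures of surfaces
-/

set_option autoImplicit false
open MeasureTheory Filter Topology Complex Metric
open scoped ContDiff ENNReal ComplexConjugate

namespace Pool.Agent.Q73.NL

section

variable {M ι : Type*} [TopologicalSpace M] [T2Space M] [SecondCountableTopology M]
  [MeasurableSpace M] [BorelSpace M]

theorem sqrt_pos_ev {lam : ℕ → ℝ} (hl : Tendsto lam atTop atTop) :
    ∀ᶠ n in atTop, ENNReal.ofReal (Real.sqrt (lam n)) ≠ 0 := by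
  filter_upwards [hl.eventually_gt_atTop 0] with n hn
  simpa using hn

theorem ratio_lower (hU3 : U3) {U : ι → Set ℂ} {φ : ι → ℂ → M} {ρ : ι → ℂ → ℝ}
    {area len : Measure M} (h : Atl U φ ρ area len) {lam : ℕ → ℝ} (hl : Tendsto lam atTop atTop)
    {u : ℕ → M → ℝ} (hu : ∀ n i, Sol (U i) (fun z => lam n * ρ i z) (fun z => u n (φ i z)))
    {C : ℝ} (hC : 0 < C) (hle : ∀ᶠ n in atTop, len (zs Set.univ (u n)) ≤
      ENNReal.ofReal (C * Real.sqrt (lam n)))
    {D : Set M} (hD : IsOpen D) :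
    ENNReal.ofReal (1 / (Real.pi * C)) * area D ≤
      liminf (fun n => len (zs D (u n)) / len (zs Set.univ (u n))) atTop := by
  have hpi := Real.pi_pos
  refine le_of_forall_lt fun b hb => ?_
  obtain ⟨b', hb1, hb2⟩ := exists_between hb
  have hCE : ENNReal.ofReal C ≠ 0 := by simpa using hC
  have h1 : b' * ENNReal.ofReal C < ENNReal.ofReal (1 / Real.pi) * area D := by
    have h2 : ENNReal.ofReal (1 / Real.pi) * area D =
        ENNReal.ofReal (1 / (Real.pi * C)) * area D * ENNReal.ofReal C := by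
      rw [mul_right_comm, ← ENNReal.ofReal_mul (by positivity)]
      congr 2
      field_simp
    rw [h2]
    exact ENNReal.mul_lt_mul_left hCE ENNReal.ofReal_ne_top hb2
  have h3 := lt_of_lt_of_le h1 (surface hU3 h hl hu hD)
  refine lt_of_lt_of_le hb1 (le_liminf_of_le (by isBoundedDefault) ?_)
  filter_upwards [eventually_lt_of_lt_liminf h3, hle, sqrt_pos_ev hl] with n h4 h5 h6
  have h7 : b' * len (zs Set.univ (u n)) ≤ len (zs D (u n)) := by
    have h8 : b' * ENNReal.ofReal C * ENNReal.ofReal (Real.sqrt (lam n)) ≤ len (zs D (u n)) :=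
      (ENNReal.le_div_iff_mul_le (Or.inl h6) (Or.inl ENNReal.ofReal_ne_top)).1 h4.le
    refine le_trans ?_ h8
    rw [mul_assoc, ← ENNReal.ofReal_mul hC.le]
    exact mul_le_mul' le_rfl h5
  have h9 : len (zs Set.univ (u n)) ≠ 0 := by
    intro h0
    have h10 : len (zs D (u n)) = 0 := measure_mono_null (zs_mono (Set.subset_univ _) _) h0
    rw [h10, ENNReal.zero_div] at h4
    exact absurd h4 not_lt_zero
  have h11 : len (zs Set.univ (u n)) ≠ ⊤ := ne_top_of_le_ne_top ENNReal.ofReal_ne_top h5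
  exact (ENNReal.le_div_iff_mul_le (Or.inl h9) (Or.inl h11)).2 h7

theorem ratio_equi (hU3 : U3) {U : ι → Set ℂ} {φ : ι → ℂ → M} {ρ : ι → ℂ → ℝ}
    {area len : Measure M} (h : Atl U φ ρ area len) {lam : ℕ → ℝ} (hl : Tendsto lam atTop atTop)
    {u : ℕ → M → ℝ} (hu : ∀ n i, Sol (U i) (fun z => lam n * ρ i z) (fun z => u n (φ i z)))
    (hfin : area Set.univ ≠ ⊤) (hne : area Set.univ ≠ 0)
    (hmin : limsup (fun n => len (zs Set.univ (u n)) / ENNReal.ofReal (Real.sqrt (lam n))) atTop ≤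
      ENNReal.ofReal (1 / Real.pi) * area Set.univ)
    {D : Set M} (hD : IsOpen D) (hfr : area (frontier D) = 0) :
    Tendsto (fun n => len (zs D (u n)) / len (zs Set.univ (u n))) atTop
      (𝓝 (area D / area Set.univ)) := by
  have hpi := Real.pi_pos
  have h1 := surface_equi hU3 h hl hu hfin hmin hD hfr
  have h2 := surface_equi hU3 h hl hu hfin hmin isOpen_univ (by simp)
  set c := ENNReal.ofReal (1 / Real.pi) with hc
  have hc0 : c ≠ 0 := by rw [hc]; simpa using hpi
  have hct : c ≠ ⊤ := ENNReal.ofReal_ne_top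
  have h3 : c * area Set.univ ≠ 0 := mul_ne_zero hc0 hne
  have h4 : c * area Set.univ ≠ ⊤ := ENNReal.mul_ne_top hct hfin
  have h5 := ENNReal.Tendsto.div h1 (Or.inr h3) h2 (Or.inl h4)
  have h6 : c * area D / (c * area Set.univ) = area D / area Set.univ :=
    ENNReal.mul_div_mul_left _ _ hc0 hct
  rw [h6] at h5
  refine h5.congr' ?_
  filter_upwards [sqrt_pos_ev hl] with n hn
  set s := ENNReal.ofReal (Real.sqrt (lam n)) with hs
  have hst : s ≠ ⊤ := ENNReal.ofReal_ne_top
  rw [div_eq_mul_inv (len (zs D (u n))) s, div_eq_mul_inv (len (zs Set.univ (u n))) s]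
  exact ENNReal.mul_div_mul_right _ _ (ENNReal.inv_ne_zero.2 hst) (ENNReal.inv_ne_top.2 hn)

end

end Pool.Agent.Q73.NL
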