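import Pool.Agent.Q73.NL.Stm

/-!
# Singular zeros, and the length of the zero set as a limit of integrals over `{|u| ≤ ε}`: statements
-/

set_option autoImplicit false
open MeasureTheory Filter Topology Complex
open scoped ContDiff ENNReal

namespace Pool.Agent.Q73.NL

noncomputable section

/-- the length of the gradient -/
def gr (u : ℂ → ℝ) (z : ℂ) : ℝ := Real.sqrt (dx u z ^ 2 + dy u z ^ 2)

/-- the normalized integral of `|∇u|` over the part of `W` where `|u| ≤ ε` -/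
def lev (u : ℂ → ℝ) (W : Set ℂ) (ε : ℝ) : ℝ≥0∞ :=
  (∫⁻ z in {z | z ∈ W ∧ |u z| ≤ ε}, ENNReal.ofReal (gr u z)) / ENNReal.ofReal (2 * ε)

/-- D1: there are countably many singular zeros of a solution of `Δu + lam u = 0` -/
def D1 : Prop := ∀ (u : ℂ → ℝ) (lam : ℝ), ContDiff ℝ ∞ u → (∀ z, lap u z + lam * u z = 0) →
  NoFlat Set.univ u → {z | u z = 0 ∧ dx u z = 0 ∧ dy u z = 0}.Countable

/-- D2: the length of a compact set of regular zeros -/
def D2 : Prop := ∀ (u : ℂ → ℝ) (K W : Set ℂ), ContDiff ℝ ∞ u → IsCompact K → IsOpen W → K ⊆ W →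
  (∀ z ∈ K, u z = 0 ∧ (dx u z ≠ 0 ∨ dy u z ≠ 0)) →
    (μH[1] : Measure ℂ) K ≤ liminf (fun ε => lev u W ε) (𝓝[>] (0 : ℝ))

/-- D3: the length of the zero set of a solution in an open set -/
def D3 : Prop := ∀ (u : ℂ → ℝ) (lam : ℝ) (W : Set ℂ), ContDiff ℝ ∞ u →
  (∀ z, lap u z + lam * u z = 0) → (∃ z, u z ≠ 0) → IsOpen W →
    (μH[1] : Measure ℂ) {z | z ∈ W ∧ u z = 0} ≤ liminf (fun ε => lev u W ε) (𝓝[>] (0 : ℝ))

end

end Pool.Agent.Q73.NL
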