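import Pool.Agent.Q73.NL.Stm

/-!
Circles of radius `t` that meet a small almost straight set: the area of the set of their centres.
-/

set_option autoImplicit false
open MeasureTheory Filter Topology Complex Set
open scoped ContDiff ENNReal ComplexConjugate

namespace Pool.Agent.Q73.NL

/-- the circle of radius `t` -/
def Sp (t : ℝ) : Set (ℝ × ℝ) := {z | z.1 ^ 2 + z.2 ^ 2 = t ^ 2}

/-- the circles with centres on a vertical segment -/
def AA (t b w : ℝ) : Set (ℝ × ℝ) :=
  (fun x : ℝ × (ℝ × ℝ) => (x.2.1, x.2.2 + x.1)) '' (Icc b (b + w) ×ˢ Sp t)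

/-- the circles with centres in a rectangle -/
def RR (t a d b w : ℝ) : Set (ℝ × ℝ) :=
  (fun x : ℝ × (ℝ × ℝ) => (x.2.1 + x.1, x.2.2)) '' (Icc a (a + d) ×ˢ AA t b w)

theorem mem_AA {t b w x y : ℝ} :
    (x, y) ∈ AA t b w ↔ ∃ q ∈ Icc b (b + w), x ^ 2 + (y - q) ^ 2 = t ^ 2 := by
  constructor
  · rintro ⟨⟨q, x', y'⟩, ⟨hq, hs⟩, h⟩
    simp only [Prod.mk.injEq] at h
    obtain ⟨rfl, rfl⟩ := h
    refine ⟨q, hq, ?_⟩
    simpa [Sp] using hs
  · rintro ⟨q, hq, h⟩
    refine ⟨(q, x, y - q), ⟨hq, h⟩, ?_⟩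
    simp

theorem mem_RR {t a d b w x y : ℝ} :
    (x, y) ∈ RR t a d b w ↔ ∃ p ∈ Icc a (a + d), (x - p, y) ∈ AA t b w := by
  constructor
  · rintro ⟨⟨p, x', y'⟩, ⟨hp, hs⟩, h⟩
    simp only [Prod.mk.injEq] at h
    obtain ⟨rfl, rfl⟩ := h
    refine ⟨p, hp, ?_⟩
    simpa using hs
  · rintro ⟨p, hp, h⟩
    refine ⟨(p, x - p, y), ⟨hp, h⟩, ?_⟩
    simp

theorem compact_Sp (t : ℝ) : IsCompact (Sp t) := by
  have h1 : IsClosed (Sp t) := by
    unfold Sp
    exact isClosed_eq (by fun_prop) (by fun_prop)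
  refine ((isCompact_Icc (a := -|t|) (b := |t|)).prod
    (isCompact_Icc (a := -|t|) (b := |t|))).of_isClosed_subset h1 ?_
  rintro ⟨x, y⟩ h
  have h2 : x ^ 2 + y ^ 2 = t ^ 2 := h
  have hx : |x| ≤ |t| := sq_le_sq.1 (by nlinarith [sq_nonneg y])
  have hy : |y| ≤ |t| := sq_le_sq.1 (by nlinarith [sq_nonneg x])
  exact ⟨abs_le.1 hx, abs_le.1 hy⟩

theorem compact_AA (t b w : ℝ) : IsCompact (AA t b w) :=
  (isCompact_Icc.prod (compact_Sp t)).image (by fun_prop)

theorem compact_RR (t a d b w : ℝ) : IsCompact (RR t a d b w) :=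
  (isCompact_Icc.prod (compact_AA t b w)).image (by fun_prop)

theorem meas_AA (t b w : ℝ) : MeasurableSet (AA t b w) := (compact_AA t b w).isClosed.measurableSet

theorem meas_RR (t a d b w : ℝ) : MeasurableSet (RR t a d b w) :=
  (compact_RR t a d b w).isClosed.measurableSet

/-- vertical slices -/
theorem slice_v {t b w : ℝ} (ht : 0 < t) (hw : 0 ≤ w) (x : ℝ) :
    volume {y | (x, y) ∈ AA t b w} ≤ (Icc (-t) t).indicator (fun _ => ENNReal.ofReal (2 * w)) x := by
  by_cases hx : x ∈ Icc (-t) t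
  · rw [indicator_of_mem hx]
    have h1 : {y | (x, y) ∈ AA t b w} ⊆ Icc (b + √(t ^ 2 - x ^ 2)) (b + √(t ^ 2 - x ^ 2) + w) ∪
        Icc (b - √(t ^ 2 - x ^ 2)) (b - √(t ^ 2 - x ^ 2) + w) := by
      intro y hy
      obtain ⟨q, hq, h⟩ := mem_AA.1 hy
      have h2 : |y - q| = √(t ^ 2 - x ^ 2) := by
        rw [← Real.sqrt_sq_eq_abs]
        congr 1
        linarith
      rw [← h2]
      rcases abs_cases (y - q) with ⟨h3, _⟩ | ⟨h3, _⟩
      · left
        rw [h3]
        constructor <;> linarith [hq.1, hq.2]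
      · right
        rw [h3]
        constructor <;> linarith [hq.1, hq.2]
    refine (measure_mono h1).trans ((measure_union_le _ _).trans ?_)
    rw [Real.volume_Icc, Real.volume_Icc, ← ENNReal.ofReal_add (by linarith) (by linarith)]
    apply ENNReal.ofReal_le_ofReal
    linarith
  · rw [indicator_of_notMem hx]
    have h1 : {y | (x, y) ∈ AA t b w} = ∅ := by
      ext y
      simp only [mem_ofPred_eq, mem_empty_iff_false, iff_false]
      intro hy
      obtain ⟨q, hq, h⟩ := mem_AA.1 hy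
      apply hx
      exact abs_le.1 (abs_le_of_sq_le_sq (by nlinarith [sq_nonneg (y - q)]) ht.le)
    rw [h1, measure_empty]

theorem vol_AA {t b w : ℝ} (ht : 0 < t) (hw : 0 ≤ w) :
    volume (AA t b w) ≤ ENNReal.ofReal (4 * t * w) := by
  rw [Measure.volume_eq_prod, Measure.prod_apply (meas_AA t b w)]
  refine (lintegral_mono (slice_v ht hw)).trans ?_
  rw [lintegral_indicator measurableSet_Icc, lintegral_const, Measure.restrict_apply_univ,
    Real.volume_Icc, ← ENNReal.ofReal_mul (by linarith)]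
  apply ENNReal.ofReal_le_ofReal
  linarith

/-- horizontal slices -/
theorem slice_h {t a d b w : ℝ} (ht : 0 < t) (hd : 0 ≤ d) (hw : 0 ≤ w) (y : ℝ) :
    volume {x | (x, y) ∈ RR t a d b w} ≤ volume {x | (x, y) ∈ AA t b w} +
      (Icc (b - t) (b + w + t)).indicator (fun _ => ENNReal.ofReal (2 * d)) y := by
  have hc : ContinuousOn (fun q : ℝ => t ^ 2 - (y - q) ^ 2) (Icc b (b + w)) := by fun_prop
  obtain ⟨q1, hq1, h1⟩ := isCompact_Icc.exists_isMinOn (nonempty_Icc.2 (by linarith : b ≤ b + w)) hc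
  obtain ⟨q2, hq2, h2⟩ := isCompact_Icc.exists_isMaxOn (nonempty_Icc.2 (by linarith : b ≤ b + w)) hc
  set α := t ^ 2 - (y - q1) ^ 2 with hα
  set β := t ^ 2 - (y - q2) ^ 2 with hβ
  have hmin : ∀ q ∈ Icc b (b + w), α ≤ t ^ 2 - (y - q) ^ 2 := fun q hq => h1 hq
  have hmax : ∀ q ∈ Icc b (b + w), t ^ 2 - (y - q) ^ 2 ≤ β := fun q hq => h2 hq
  by_cases hb : β < 0
  · have h3 : {x | (x, y) ∈ RR t a d b w} = ∅ := by
      ext x
      simp only [mem_ofPred_eq, mem_empty_iff_false, iff_false]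
      intro hx
      obtain ⟨p, hp, hx⟩ := mem_RR.1 hx
      obtain ⟨q, hq, h⟩ := mem_AA.1 hx
      have := hmax q hq
      nlinarith [sq_nonneg (x - p)]
    rw [h3, measure_empty]
    exact zero_le
  push Not at hb
  have hy : y ∈ Icc (b - t) (b + w + t) := by
    have h3 : |y - q2| ≤ t := abs_le_of_sq_le_sq (by linarith) ht.le
    have h4 := abs_le.1 h3
    constructor <;> linarith [hq2.1, hq2.2, h4.1, h4.2]
  rw [indicator_of_mem hy]
  have hS : ∀ x, (x, y) ∈ AA t b w ↔ √α ≤ |x| ∧ |x| ≤ √β := by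
    intro x
    rw [mem_AA]
    constructor
    · rintro ⟨q, hq, h⟩
      have h3 : x ^ 2 = t ^ 2 - (y - q) ^ 2 := by linarith
      refine ⟨?_, ?_⟩
      · rw [← Real.sqrt_sq_eq_abs, h3]
        exact Real.sqrt_le_sqrt (hmin q hq)
      · rw [← Real.sqrt_sq_eq_abs, h3]
        exact Real.sqrt_le_sqrt (hmax q hq)
    · rintro ⟨h3, h4⟩
      have h5 : α ≤ x ^ 2 := by
        rw [← sq_abs x]
        exact Real.sqrt_le_left (abs_nonneg x) |>.1 h3
      have h6 : x ^ 2 ≤ β := by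
        have h7 := pow_le_pow_left₀ (abs_nonneg x) h4 2
        rwa [sq_abs, Real.sq_sqrt hb] at h7
      have h7 : x ^ 2 ∈ (fun q : ℝ => t ^ 2 - (y - q) ^ 2) '' Icc b (b + w) := by
        have h8 := isPreconnected_Icc.intermediate_value hq1 hq2 hc
        exact h8 ⟨h5, h6⟩
      obtain ⟨q, hq, h8⟩ := h7
      refine ⟨q, hq, ?_⟩
      simp only at h8
      linarith
  have hsub : {x | (x, y) ∈ RR t a d b w} ⊆ (fun x => x + (-a)) ⁻¹'
      ({x | (x, y) ∈ AA t b w} ∪ (Icc (√β) (√β + d) ∪ Icc (-√α) (-√α + d))) := by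
    intro x hx
    obtain ⟨p, hp, hx⟩ := mem_RR.1 hx
    rw [hS] at hx
    by_cases h3 : (x + -a, y) ∈ AA t b w
    · left
      exact h3
    · right
      rw [hS] at h3
      rcases abs_cases (x - p) with ⟨h4, h5⟩ | ⟨h4, h5⟩
      · left
        rw [h4] at hx
        have h6 : √α ≤ |x + -a| := by
          rw [abs_of_nonneg (by linarith [hp.1])]
          linarith [hp.1]
        have h7 : √β < |x + -a| := by
          by_contra h8
          exact h3 ⟨h6, not_lt.1 h8⟩
        rw [abs_of_nonneg (by linarith [hp.1])] at h7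
        constructor <;> linarith [hp.1, hp.2, hx.1, hx.2]
      · right
        rw [h4] at hx
        constructor
        · by_contra h6
          push Not at h6
          apply h3
          have h7 : x + -a < 0 := h6.trans_le (neg_nonpos.2 (Real.sqrt_nonneg _))
          rw [abs_of_neg h7]
          constructor <;> linarith [hp.1, hp.2, hx.1, hx.2]
        · linarith [hp.1, hp.2, hx.1, hx.2]
  refine (measure_mono hsub).trans ?_
  rw [measure_preimage_add_right]
  refine (measure_union_le _ _).trans ?_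
  gcongr
  refine (measure_union_le _ _).trans ?_
  rw [Real.volume_Icc, Real.volume_Icc, ← ENNReal.ofReal_add (by linarith) (by linarith)]
  apply ENNReal.ofReal_le_ofReal
  linarith

theorem vol_RR {t a d b w : ℝ} (ht : 0 < t) (hd : 0 ≤ d) (hw : 0 ≤ w) :
    volume (RR t a d b w) ≤ ENNReal.ofReal (4 * t * w + 2 * d * (2 * t + w)) := by
  have h1 : volume (RR t a d b w) = ∫⁻ y, volume {x | (x, y) ∈ RR t a d b w} := by
    rw [Measure.volume_eq_prod, Measure.prod_apply_symm (meas_RR t a d b w)]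
    rfl
  have h2 : volume (AA t b w) = ∫⁻ y, volume {x | (x, y) ∈ AA t b w} := by
    rw [Measure.volume_eq_prod, Measure.prod_apply_symm (meas_AA t b w)]
    rfl
  rw [h1]
  refine (lintegral_mono (slice_h ht hd hw)).trans ?_
  rw [lintegral_add_right _ (measurable_const.indicator measurableSet_Icc), ← h2,
    lintegral_indicator measurableSet_Icc, lintegral_const, Measure.restrict_apply_univ,
    Real.volume_Icc, ENNReal.ofReal_add (by positivity) (by positivity)]
  refine add_le_add (vol_AA ht hw) ?_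
  rw [← ENNReal.ofReal_mul (by linarith)]
  apply ENNReal.ofReal_le_ofReal
  have : b + w + t - (b - t) = 2 * t + w := by ring
  rw [this]

theorem exists_low {f : ℂ → ℝ} {T : Set ℂ} (hT : T.Nonempty) {d : ℝ}
    (h : ∀ y ∈ T, ∀ y' ∈ T, f y - f y' ≤ d) : ∃ a, ∀ y ∈ T, f y ∈ Icc a (a + d) := by
  obtain ⟨y0, hy0⟩ := hT
  have hb : BddBelow (f '' T) := ⟨f y0 - d, by
    rintro _ ⟨y, hy, rfl⟩
    linarith [h y0 hy0 y hy]⟩
  refine ⟨sInf (f '' T), fun y hy => ⟨csInf_le hb (mem_image_of_mem f hy), ?_⟩⟩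
  have h1 : f y - d ≤ sInf (f '' T) := by
    refine le_csInf ⟨f y0, mem_image_of_mem f hy0⟩ ?_
    rintro _ ⟨y', hy', rfl⟩
    linarith [h y hy y' hy']
  linarith

theorem t1 : S1 := by
  intro t ht ε hε
  refine ⟨min 1 (ε / (4 * t + 2)), by positivity, ?_⟩
  set η := min 1 (ε / (4 * t + 2)) with hη
  have hη0 : 0 < η := by positivity
  have hη1 : η ≤ 1 := min_le_left _ _
  have hη2 : η * (4 * t + 2) ≤ ε := by
    rw [← le_div_iff₀ (by positivity)]
    exact min_le_right _ _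
  intro a T ha hT hF
  rcases T.eq_empty_or_nonempty with rfl | hne
  · have h1 : circ t ∅ = ∅ := by
      ext x
      simp [circ]
    rw [h1, measure_empty]
    exact zero_le
  have htop : Metric.ediam T ≠ ⊤ := ne_top_of_le_ne_top ENNReal.ofReal_ne_top hT
  set d := (Metric.ediam T).toReal with hd
  have hd0 : 0 ≤ d := ENNReal.toReal_nonneg
  have hdη : d ≤ η := ENNReal.toReal_le_of_le_ofReal hη0.le hT
  have hdist : ∀ y ∈ T, ∀ y' ∈ T, ‖y - y'‖ ≤ d := by
    intro y hy y' hy'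
    have h1 := Metric.edist_le_ediam_of_mem hy hy'
    rw [← dist_eq_norm, dist_edist]
    exact ENNReal.toReal_mono htop h1
  have hc : ‖I * conj a‖ = 1 := by rw [norm_mul, norm_I, RCLike.norm_conj, ha, one_mul]
  obtain ⟨c, hcc⟩ : ∃ c : Circle, (c : ℂ) = I * conj a :=
    ⟨⟨_, mem_sphere_zero_iff_norm.2 hc⟩, rfl⟩
  set ρ : ℂ ≃ₗᵢ[ℝ] ℂ := rotation c with hρ
  have hρ1 : ∀ z, ρ z = I * conj a * z := fun z => by rw [hρ, rotation_apply, hcc]
  have him : ∀ z, (ρ z).im = (conj a * z).re := by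
    intro z
    rw [hρ1, mul_assoc]
    simp
  obtain ⟨a0, ha0⟩ := exists_low (f := fun z => (ρ z).re) hne (d := d) (by
    intro y hy y' hy'
    have h1 : (ρ y).re - (ρ y').re = (ρ (y - y')).re := by rw [map_sub, sub_re]
    rw [h1]
    refine (re_le_norm _).trans ?_
    rw [ρ.norm_map]
    exact hdist y hy y' hy')
  obtain ⟨b0, hb0⟩ := exists_low (f := fun z => (ρ z).im) hne (d := η * d) (by
    intro y hy y' hy'
    have h1 : (ρ y).im - (ρ y').im = (ρ (y - y')).im := by rw [map_sub, sub_im]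
    rw [h1, him]
    refine (le_abs_self _).trans ((hF y hy y' hy').trans ?_)
    exact mul_le_mul_of_nonneg_left (hdist y hy y' hy') hη0.le)
  have hsub : circ t T ⊆ (measurableEquivRealProd ∘ ρ) ⁻¹' RR t a0 d b0 (η * d) := by
    rintro x ⟨y, hy, hxy⟩
    rw [mem_preimage, Function.comp_apply]
    change ((ρ x).re, (ρ x).im) ∈ RR t a0 d b0 (η * d)
    rw [mem_RR]
    refine ⟨(ρ y).re, ha0 y hy, ?_⟩
    rw [mem_AA]
    refine ⟨(ρ y).im, hb0 y hy, ?_⟩
    rw [← hxy, ← ρ.norm_map (x - y), map_sub, ← Complex.normSq_eq_norm_sq, Complex.normSq_apply,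
      sub_re, sub_im]
    ring
  refine (measure_mono hsub).trans ?_
  rw [(Complex.volume_preserving_equiv_real_prod.comp ρ.measurePreserving).measure_preimage
    (meas_RR _ _ _ _ _).nullMeasurableSet]
  refine (vol_RR ht hd0 (by positivity)).trans ?_
  rw [← ENNReal.ofReal_toReal htop, ← hd, ← ENNReal.ofReal_mul (by positivity)]
  apply ENNReal.ofReal_le_ofReal
  have h1 : 4 * t * (η * d) + 2 * d * (2 * t + η * d) = d * (4 * t + η * (4 * t + 2 * d)) := by ring
  rw [h1, mul_comm]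
  refine mul_le_mul_of_nonneg_right ?_ hd0
  have h2 : η * (4 * t + 2 * d) ≤ η * (4 * t + 2) :=
    mul_le_mul_of_nonneg_left (by linarith) hη0.le
  linarith

end Pool.Agent.Q73.NL
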