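import Pool.Agent.Q73.NL.Stm

/-!
Crofton's inequality for circles and locally almost straight sets.
-/

set_option autoImplicit false
open MeasureTheory Filter Topology Complex Set
open scoped ContDiff ENNReal ComplexConjugate

namespace Pool.Agent.Q73.NL

theorem circ_mono {t : ℝ} {S T : Set ℂ} (h : S ⊆ T) : circ t S ⊆ circ t T := by
  rintro x ⟨y, hy, hx⟩
  exact ⟨y, h hy, hx⟩

theorem circ_empty {t : ℝ} : circ t ∅ = ∅ := by
  ext x
  simp [circ]

theorem Flat.mono {η η' : ℝ} {a : ℂ} {S T : Set ℂ} (h : Flat η a T) (hS : S ⊆ T) (hη : η ≤ η') :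
    Flat η' a S := fun y hy y' hy' =>
  (h y (hS hy) y' (hS hy')).trans (mul_le_mul_of_nonneg_right hη (norm_nonneg _))

/-- the inequality for one almost straight set -/
theorem circ_le {t K η : ℝ} (hK : 0 < K) (hη : 0 < η) {a : ℂ} (ha : ‖a‖ = 1)
    (h : ∀ (a : ℂ) (T : Set ℂ), ‖a‖ = 1 → Metric.ediam T ≤ ENNReal.ofReal η → Flat η a T →
      volume (circ t T) ≤ ENNReal.ofReal K * Metric.ediam T) {S : Set ℂ} (hS : Flat η a S) :
    volume (circ t S) ≤ ENNReal.ofReal K * (μH[1] : Measure ℂ) S := by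
  have hK0 : ENNReal.ofReal K ≠ 0 := by simpa using hK
  rw [← ENNReal.div_le_iff' hK0 ENNReal.ofReal_ne_top, Measure.hausdorffMeasure_apply]
  refine le_iSup₂_of_le (ENNReal.ofReal η) (ENNReal.ofReal_pos.2 hη) ?_
  refine le_iInf₂ fun c hc => le_iInf fun hd => ?_
  rw [ENNReal.div_le_iff' hK0 ENNReal.ofReal_ne_top, ← ENNReal.tsum_mul_left]
  have h1 : circ t S ⊆ ⋃ n, circ t (c n ∩ S) := by
    rintro x ⟨y, hy, hx⟩
    obtain ⟨n, hn⟩ := mem_iUnion.1 (hc hy)
    exact mem_iUnion.2 ⟨n, y, ⟨hn, hy⟩, hx⟩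
  refine (measure_mono h1).trans ((measure_iUnion_le _).trans (ENNReal.tsum_le_tsum fun n => ?_))
  rcases (c n).eq_empty_or_nonempty with h2 | h2
  · rw [h2, empty_inter, circ_empty, measure_empty]
    exact zero_le
  · have h3 : Metric.ediam (c n ∩ S) ≤ Metric.ediam (c n) := Metric.ediam_mono inter_subset_left
    refine (h a _ ha (h3.trans (hd n)) (hS.mono inter_subset_right le_rfl)).trans ?_
    refine mul_le_mul_right ?_ _
    refine h3.trans ?_
    rw [iSup_pos h2, ENNReal.rpow_one]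

/-- the centres of circles with two points of `Z` at distance more than `r` -/
def circR (t r : ℝ) (Z : Set ℂ) : Set ℂ :=
  {x | ∃ y ∈ Z, ∃ y' ∈ Z, r < ‖y - y'‖ ∧ ‖x - y‖ = t ∧ ‖x - y'‖ = t}

theorem circR_le {t K η r : ℝ} (hK : 0 < K) (hη : 0 < η) (hr : 0 < r)
    (h : ∀ (a : ℂ) (T : Set ℂ), ‖a‖ = 1 → Metric.ediam T ≤ ENNReal.ofReal η → Flat η a T →
      volume (circ t T) ≤ ENNReal.ofReal K * Metric.ediam T) {Z : Set ℂ} (hZ : MeasurableSet Z)
    (hL : LocFlat Z) : 2 * volume (circR t r Z) ≤ ENNReal.ofReal K * (μH[1] : Measure ℂ) Z := by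
  obtain ⟨C, hC1, hC2, hC3⟩ := hL (min η r) (lt_min hη hr)
  set S : ℕ → Set ℂ := fun i => disjointed C i ∩ Z with hSdef
  have hSm : ∀ i, MeasurableSet (S i) := fun i => (MeasurableSet.disjointed hC1 i).inter hZ
  have hSd : Pairwise (Function.onFun Disjoint S) := fun i j hij =>
    (disjoint_disjointed C hij).mono inter_subset_left inter_subset_left
  have hSU : ⋃ i, S i = Z := by
    rw [← iUnion_inter, iUnion_disjointed]
    exact inter_eq_right.2 hC2
  have hSC : ∀ i, S i ⊆ C i ∩ Z := fun i => inter_subset_inter_left _ (disjointed_subset C i)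
  have hSv : ∀ i, volume (circ t (S i)) ≤ ENNReal.ofReal K * (μH[1] : Measure ℂ) (S i) := by
    intro i
    obtain ⟨a, ha, hF⟩ := (hC3 i).2
    exact circ_le hK hη ha h (hF.mono (hSC i) (min_le_left _ _))
  set M : ℕ → Set ℂ := fun i => toMeasurable volume (circ t (S i)) with hM
  have hMm : ∀ i, MeasurableSet (M i) := fun i => measurableSet_toMeasurable _ _
  have hsub : circR t r Z ⊆ {x | 2 ≤ ∑' i, (M i).indicator (fun _ => (1 : ℝ≥0∞)) x} := by
    rintro x ⟨y, hy, y', hy', hlt, h1, h2⟩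
    rw [← hSU] at hy hy'
    obtain ⟨i, hi⟩ := mem_iUnion.1 hy
    obtain ⟨j, hj⟩ := mem_iUnion.1 hy'
    have hij : i ≠ j := by
      rintro rfl
      have h3 := Metric.edist_le_ediam_of_mem (hSC i hi).1 (hSC i hj).1
      have h4 := h3.trans (hC3 i).1
      rw [edist_dist, dist_eq_norm] at h4
      have h5 := (ENNReal.ofReal_le_ofReal_iff (by positivity)).1 h4
      linarith [min_le_right η r]
    have hxi : x ∈ M i := subset_toMeasurable _ _ ⟨y, hi, h1⟩
    have hxj : x ∈ M j := subset_toMeasurable _ _ ⟨y', hj, h2⟩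
    have h3 := ENNReal.sum_le_tsum (f := fun i => (M i).indicator (fun _ => (1 : ℝ≥0∞)) x) {i, j}
    rw [Finset.sum_pair hij, indicator_of_mem hxi, indicator_of_mem hxj, one_add_one_eq_two] at h3
    exact h3
  have hmeas : Measurable fun x => ∑' i, (M i).indicator (fun _ => (1 : ℝ≥0∞)) x :=
    Measurable.ennreal_tsum fun i => measurable_const.indicator (hMm i)
  calc 2 * volume (circR t r Z) ≤
        2 * volume {x | 2 ≤ ∑' i, (M i).indicator (fun _ => (1 : ℝ≥0∞)) x} :=
        mul_le_mul_right (measure_mono hsub) _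
    _ ≤ ∫⁻ x, ∑' i, (M i).indicator (fun _ => (1 : ℝ≥0∞)) x := mul_meas_ge_le_lintegral hmeas 2
    _ = ∑' i, ∫⁻ x, (M i).indicator (fun _ => (1 : ℝ≥0∞)) x :=
        lintegral_tsum fun i => (measurable_const.indicator (hMm i)).aemeasurable
    _ = ∑' i, volume (circ t (S i)) := by
        refine tsum_congr fun i => ?_
        rw [lintegral_indicator_const (hMm i), one_mul, hM, measure_toMeasurable]
    _ ≤ ∑' i, ENNReal.ofReal K * (μH[1] : Measure ℂ) (S i) := ENNReal.tsum_le_tsum hSv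
    _ = ENNReal.ofReal K * (μH[1] : Measure ℂ) Z := by
        rw [ENNReal.tsum_mul_left, ← measure_iUnion hSd hSm, hSU]

theorem t2 (h : S1) : S2 := by
  intro t Z ht hZ hL
  have hU : circ2 t Z = ⋃ n : ℕ, circR t (1 / ((n : ℝ) + 1)) Z := by
    ext x
    rw [mem_iUnion]
    constructor
    · rintro ⟨y, hy, y', hy', hne, h1, h2⟩
      obtain ⟨n, hn⟩ := exists_nat_one_div_lt (norm_pos_iff.2 (sub_ne_zero.2 hne))
      exact ⟨n, y, hy, y', hy', hn, h1, h2⟩
    · rintro ⟨n, y, hy, y', hy', hn, h1, h2⟩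
      refine ⟨y, hy, y', hy', ?_, h1, h2⟩
      rintro rfl
      rw [sub_self, norm_zero] at hn
      have : (0 : ℝ) < 1 / ((n : ℝ) + 1) := by positivity
      linarith
  have hmono : Monotone fun n : ℕ => circR t (1 / ((n : ℝ) + 1)) Z := by
    intro m n hmn x
    rintro ⟨y, hy, y', hy', hn, h1, h2⟩
    refine ⟨y, hy, y', hy', lt_of_le_of_lt ?_ hn, h1, h2⟩
    exact Nat.one_div_le_one_div hmn
  have key : ∀ ε : ℝ, 0 < ε → 2 * volume (circ2 t Z) ≤
      ENNReal.ofReal (4 * t + ε) * (μH[1] : Measure ℂ) Z := by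
    intro ε hε
    obtain ⟨η, hη, hh⟩ := h t ht ε hε
    rw [hU, hmono.measure_iUnion, ENNReal.mul_iSup]
    refine iSup_le fun n => ?_
    exact circR_le (by positivity) hη (by positivity) hh hZ hL
  by_cases htop : (μH[1] : Measure ℂ) Z = ⊤
  · rw [htop, ENNReal.mul_top (by simpa using ht)]
    exact le_top
  · set H := (μH[1] : Measure ℂ) Z with hH
    have hVtop : volume (circ2 t Z) ≠ ⊤ := by
      intro h1
      have h2 := key 1 one_pos
      rw [h1, ENNReal.mul_top (by norm_num), top_le_iff] at h2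
      exact ENNReal.mul_ne_top ENNReal.ofReal_ne_top htop h2
    rw [← ENNReal.ofReal_toReal hVtop, ← ENNReal.ofReal_toReal htop,
      ← ENNReal.ofReal_mul (by positivity)]
    apply ENNReal.ofReal_le_ofReal
    have h3 : ∀ ε : ℝ, 0 < ε → 2 * (volume (circ2 t Z)).toReal ≤ (4 * t + ε) * H.toReal := by
      intro ε hε
      have h4 := ENNReal.toReal_mono (ENNReal.mul_ne_top ENNReal.ofReal_ne_top htop) (key ε hε)
      rw [ENNReal.toReal_mul, ENNReal.toReal_mul, ENNReal.toReal_ofReal (by positivity)] at h4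
      simpa using h4
    have hH0 : 0 ≤ H.toReal := ENNReal.toReal_nonneg
    have h5 : 2 * (volume (circ2 t Z)).toReal ≤ 4 * t * H.toReal := by
      refine le_of_forall_pos_le_add fun δ hδ => ?_
      have h6 := h3 (δ / (H.toReal + 1)) (by positivity)
      have h7 : δ / (H.toReal + 1) * H.toReal ≤ δ := by
        rw [div_mul_eq_mul_div, div_le_iff₀ (by positivity)]
        nlinarith
      nlinarith
    linarith

end Pool.Agent.Q73.NL
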