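import Pool.Agent.Q73.NL.T5

/-!
# S6: a zero in a small open disc forces two zeros on the circle
-/

set_option autoImplicit false
open MeasureTheory Filter Topology Complex Metric
open scoped ContDiff ENNReal ComplexConjugate

namespace Pool.Agent.Q73.NL

theorem dx_neg (u : ℂ → ℝ) : dx (fun z => - u z) = fun z => - dx u z := by
  funext z
  unfold dx
  rw [show (fun z => - u z) = -u from rfl, fderiv_neg]
  rfl

theorem dy_neg (u : ℂ → ℝ) : dy (fun z => - u z) = fun z => - dy u z := by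
  funext z
  unfold dy
  rw [show (fun z => - u z) = -u from rfl, fderiv_neg]
  rfl

theorem lap_neg (u : ℂ → ℝ) (z : ℂ) : lap (fun z => - u z) z = - lap u z := by
  unfold lap
  rw [dx_neg, dy_neg, dx_neg, dy_neg]
  ring

theorem Sol.neg {Ω : Set ℂ} {V u : ℂ → ℝ} (h : Sol Ω V u) : Sol Ω V (fun z => - u z) := by
  refine ⟨h.smooth.neg, fun z hz => ?_⟩
  rw [lap_neg]
  have := h.eq z hz
  linarith

theorem Sol.at {Ω : Set ℂ} {V u : ℂ → ℝ} (hΩ : IsOpen Ω) (h : Sol Ω V u) {z : ℂ} (hz : z ∈ Ω) :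
    ContDiffAt ℝ 2 u z :=
  (h.smooth.contDiffAt (hΩ.mem_nhds hz)).of_le (WithTop.coe_le_coe.2 (le_top : (2 : ℕ∞) ≤ ⊤))

/-- two values of different signs on a circle give two zeros -/
theorem two_zeros {u : ℂ → ℝ} {x : ℂ} {t : ℝ} (ht : 0 < t) (hc : ContinuousOn u (sphere x t))
    {z₁ z₂ : ℂ} (h₁ : z₁ ∈ sphere x t) (h₂ : z₂ ∈ sphere x t) (hp : 0 < u z₁) (hn : u z₂ < 0) :
    ∃ y ∈ sphere x t, ∃ y' ∈ sphere x t, y ≠ y' ∧ u y = 0 ∧ u y' = 0 := by
  have hmem : ∀ θ : ℝ, circleMap x t θ ∈ sphere x t := fun θ => circleMap_mem_sphere x ht.le θ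
  have hcm : Continuous fun θ : ℝ => u (circleMap x t θ) :=
    hc.comp_continuous (continuous_circleMap x t) hmem
  have hex : ∀ z ∈ sphere x t, ∃ θ : ℝ, circleMap x t θ = z := by
    intro z hz
    have := image_circleMap_Ioc x t
    rw [abs_of_pos ht] at this
    rw [← this] at hz
    obtain ⟨θ, -, h⟩ := hz
    exact ⟨θ, h⟩
  obtain ⟨α, rfl⟩ := hex z₁ h₁
  obtain ⟨β', rfl⟩ := hex z₂ h₂
  obtain ⟨β, hβ, hβe⟩ : ∃ β ∈ Set.Ico α (α + 2 * Real.pi), circleMap x t β = circleMap x t β' := by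
    refine ⟨toIcoMod Real.two_pi_pos α β', toIcoMod_mem_Ico _ _ _, ?_⟩
    have h1 := toIcoMod_add_toIcoDiv_zsmul Real.two_pi_pos α β'
    have hper : Function.Periodic (circleMap x t) (2 * Real.pi) := periodic_circleMap x t
    have h2 := hper.zsmul (toIcoDiv Real.two_pi_pos α β') (toIcoMod Real.two_pi_pos α β')
    rw [h1] at h2
    exact h2.symm
  rw [← hβe] at hn
  have hne : α ≠ β := by rintro rfl; linarith
  have hlt : α < β := lt_of_le_of_ne hβ.1 hne
  obtain ⟨γ₁, hγ₁, hz₁⟩ : ∃ γ ∈ Set.Ioo α β, u (circleMap x t γ) = 0 := by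
    have := intermediate_value_Ioo' hlt.le hcm.continuousOn
    exact this ⟨hn, hp⟩
  have hp2 : 0 < u (circleMap x t (α + 2 * Real.pi)) := by
    have hper : Function.Periodic (circleMap x t) (2 * Real.pi) := periodic_circleMap x t
    rw [hper α]
    exact hp
  obtain ⟨γ₂, hγ₂, hz₂⟩ : ∃ γ ∈ Set.Ioo β (α + 2 * Real.pi), u (circleMap x t γ) = 0 := by
    have := intermediate_value_Ioo hβ.2.le hcm.continuousOn
    exact this ⟨hn, hp2⟩
  refine ⟨_, hmem γ₁, _, hmem γ₂, ?_, hz₁, hz₂⟩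
  intro he
  have hi := injOn_circleMap_of_abs_sub_le' (c := x) (R := t) (a := α) (b := α + 2 * Real.pi) ht.ne'
    (by linarith)
  have := hi ⟨hγ₁.1.le, by linarith [hγ₁.2, hβ.2]⟩ ⟨by linarith [hγ₂.1], hγ₂.2⟩ he
  linarith [hγ₁.2, hγ₂.1]

theorem t6aux (h4 : S4) (h5 : S5) {Ω : Set ℂ} {V u : ℂ → ℝ} {x : ℂ} {t M : ℝ} (hΩ : IsOpen Ω)
    (hu : Sol Ω V u) (ht : 0 < t) (hV : ∀ z ∈ Ω, 0 ≤ V z ∧ V z ≤ M)
    (hM : M * t ^ 2 < Real.pi ^ 2 / 2) (hB : closedBall x t ⊆ Ω) (hz : ∃ z ∈ ball x t, u z = 0)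
    (hs : ∀ z ∈ sphere x t, 0 ≤ u z) : x ∈ circ2 t (nod Ω u) := by
  have hx : x ∈ Ω := hB (mem_closedBall_self ht.le)
  have hM0 : 0 ≤ M := (hV x hx).1.trans (hV x hx).2
  have hcont : ContinuousOn u (closedBall x t) := hu.smooth.continuousOn.mono hB
  obtain ⟨a, ha1, ha2⟩ : ∃ a : ℝ, Real.sqrt (M / 2) < a ∧ a < Real.pi / (2 * t) := by
    refine exists_between ?_
    rw [Real.sqrt_lt' (by positivity), div_pow, lt_div_iff₀ (by positivity)]
    nlinarith
  have ha0 : 0 < a := lt_of_le_of_lt (Real.sqrt_nonneg _) ha1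
  have hMa : M < 2 * a ^ 2 := by
    have := (Real.sqrt_lt' ha0).1 ha1
    linarith
  have hat : a * t < Real.pi / 2 := by
    rw [lt_div_iff₀ (by positivity)] at ha2
    linarith
  have hint : interior (closedBall x t) = ball x t := interior_closedBall x ht.ne'
  have hfr : frontier (closedBall x t) = sphere x t := frontier_closedBall x ht.ne'
  have hbs : ball x t ⊆ Ω := ball_subset_closedBall.trans hB
  have hpos : ∀ z ∈ closedBall x t, 0 ≤ u z := by
    refine h4 (closedBall x t) V u x a (isCompact_closedBall x t) ha0 ?_ hcont ?_ ?_ ?_ ?_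
    · intro z hz
      rw [mem_closedBall, dist_eq_norm] at hz
      have h1 := (abs_re_le_norm (z - x)).trans hz
      have h2 := (abs_im_le_norm (z - x)).trans hz
      constructor
      · nlinarith
      · nlinarith
    · intro z hz
      rw [hint] at hz
      exact hu.at hΩ (hbs hz)
    · intro z hz
      rw [hint] at hz
      exact lt_of_le_of_lt (hV z (hbs hz)).2 hMa
    · intro z hz
      rw [hint] at hz
      exact (hu.eq z (hbs hz)).le
    · intro z hz
      rw [hfr] at hz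
      exact hs z hz
  have hzero : ∀ z ∈ ball x t, u z = 0 := by
    refine h5 x t M V u ht (fun z hz => hV z (hbs hz)) (fun z hz => hu.at hΩ (hbs hz))
      (fun z hz => hu.eq z (hbs hz)) (fun z hz => hpos z (ball_subset_closedBall hz)) hz
  have hall : Set.EqOn u (fun _ => 0) (closedBall x t) := by
    refine Set.EqOn.of_subset_closure (s := ball x t) (fun z hz => hzero z hz) hcont
      continuousOn_const ball_subset_closedBall ?_
    rw [closure_ball x ht.ne']
  have hy1 : (x + (t : ℂ)) ∈ closedBall x t := by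
    rw [mem_closedBall, dist_eq_norm]
    simp [abs_of_pos ht]
  have hy2 : (x - (t : ℂ)) ∈ closedBall x t := by
    rw [mem_closedBall, dist_eq_norm]
    simp [abs_of_pos ht]
  refine ⟨x + (t : ℂ), ⟨hB hy1, hall hy1⟩, x - (t : ℂ), ⟨hB hy2, hall hy2⟩, ?_, ?_, ?_⟩
  · intro h
    have h1 : (2 : ℂ) * (t : ℂ) = 0 := by linear_combination h
    have h2 : (t : ℂ) = 0 := by
      rcases mul_eq_zero.1 h1 with h | h
      · norm_num at h
      · exact h
    exact ht.ne' (by exact_mod_cast h2)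
  · simp [abs_of_pos ht]
  · simp [abs_of_pos ht]

theorem t6 (h4 : S4) (h5 : S5) : S6 := by
  intro Ω V u x t M hΩ hu ht hV hM hB hz
  have hcont : ContinuousOn u (sphere x t) :=
    hu.smooth.continuousOn.mono (sphere_subset_closedBall.trans hB)
  by_cases hp : ∀ z ∈ sphere x t, 0 ≤ u z
  · exact t6aux h4 h5 hΩ hu ht hV hM hB hz hp
  by_cases hn : ∀ z ∈ sphere x t, u z ≤ 0
  · have h := t6aux h4 h5 hΩ hu.neg ht hV hM hB (u := fun z => - u z)
      (by obtain ⟨z, hz, h0⟩ := hz; exact ⟨z, hz, by simp [h0]⟩)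
      (fun z hz => by have := hn z hz; linarith)
    have he : nod Ω (fun z => - u z) = nod Ω u := by
      ext z
      simp [nod]
    rwa [he] at h
  push Not at hp hn
  obtain ⟨z₂, hz₂, hn2⟩ := hp
  obtain ⟨z₁, hz₁, hp1⟩ := hn
  obtain ⟨y, hy, y', hy', hne, h0, h0'⟩ := two_zeros ht hcont hz₁ hz₂ hp1 hn2
  have hyn : ∀ y ∈ sphere x t, ‖x - y‖ = t := fun y hy => by
    rw [mem_sphere, dist_comm, dist_eq_norm] at hy
    exact hy
  exact ⟨y, ⟨hB (sphere_subset_closedBall hy), h0⟩, y', ⟨hB (sphere_subset_closedBall hy'), h0'⟩, hne,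
    hyn y hy, hyn y' hy'⟩

end Pool.Agent.Q73.NL
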