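import Pool.Agent.Q73.NL.Stm

/-!
Smooth approximation of the test function `sin (min (κ δ) (π/2))`.
-/

set_option autoImplicit false
open MeasureTheory Filter Topology Complex Set
open scoped ContDiff ENNReal ComplexConjugate Convolution

namespace Pool.Agent.Q73.NL

noncomputable section

theorem theta_mem {κ s : ℝ} (hκ : 0 < κ) (hs : 0 ≤ s) :
    0 ≤ min (κ * s) (Real.pi / 2) ∧ min (κ * s) (Real.pi / 2) ≤ Real.pi / 2 :=
  ⟨le_min (by positivity) (by positivity), min_le_right _ _⟩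

theorem theta_lip {κ : ℝ} (hκ : 0 < κ) (s s' : ℝ) :
    |min (κ * s) (Real.pi / 2) - min (κ * s') (Real.pi / 2)| ≤ κ * |s - s'| := by
  refine (abs_min_sub_min_le_max _ _ _ _).trans ?_
  rw [sub_self, abs_zero, ← mul_sub, abs_mul, abs_of_pos hκ, max_eq_left (by positivity)]

/-- the profile -/
def Fs (κ s : ℝ) : ℝ := Real.sin (min (κ * max s 0) (Real.pi / 2))

theorem Fs_zero {κ s : ℝ} (hs : s ≤ 0) : Fs κ s = 0 := by
  unfold Fs
  rw [max_eq_right hs, mul_zero, min_eq_left (by positivity), Real.sin_zero]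

theorem Fs_cont {κ : ℝ} : Continuous (Fs κ) := by
  unfold Fs
  fun_prop

theorem sin_lip {θ x y : ℝ} (h0 : 0 ≤ θ) (hx : θ ≤ x) (hx' : x ≤ Real.pi / 2) (hy : θ ≤ y)
    (hy' : y ≤ Real.pi / 2) : |Real.sin x - Real.sin y| ≤ Real.cos θ * |x - y| := by
  have h1 : ∀ z ∈ Icc θ (Real.pi / 2), ‖deriv Real.sin z‖ ≤ Real.cos θ := by
    intro z hz
    rw [Real.deriv_sin, Real.norm_eq_abs, abs_of_nonneg]
    · exact Real.cos_le_cos_of_nonneg_of_le_pi h0 (by linarith [hz.2, Real.pi_pos]) hz.1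
    · exact Real.cos_nonneg_of_mem_Icc ⟨by linarith [hz.1, Real.pi_pos], hz.2⟩
  exact (convex_Icc θ (Real.pi / 2)).norm_image_sub_le_of_norm_deriv_le
    (fun z _ => Real.differentiableAt_sin) h1 ⟨hy, hy'⟩ ⟨hx, hx'⟩

theorem Fs_lip {κ m s s' : ℝ} (hκ : 0 < κ) (hs : m ≤ s) (hs' : m ≤ s') :
    |Fs κ s - Fs κ s'| ≤ κ * Real.cos (min (κ * max m 0) (Real.pi / 2)) * |s - s'| := by
  have h1 := theta_mem hκ (le_max_right m 0)
  have h2 : ∀ x, m ≤ x → min (κ * max m 0) (Real.pi / 2) ≤ min (κ * max x 0) (Real.pi / 2) :=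
    fun x hx => min_le_min (mul_le_mul_of_nonneg_left (max_le_max hx le_rfl) hκ.le) le_rfl
  have hc : 0 ≤ Real.cos (min (κ * max m 0) (Real.pi / 2)) :=
    Real.cos_nonneg_of_mem_Icc ⟨by linarith [Real.pi_pos], h1.2⟩
  refine (sin_lip h1.1 (h2 s hs) (min_le_right _ _) (h2 s' hs') (min_le_right _ _)).trans ?_
  have h3 : |min (κ * max s 0) (Real.pi / 2) - min (κ * max s' 0) (Real.pi / 2)| ≤
      κ * |s - s'| := by
    refine (theta_lip hκ _ _).trans (mul_le_mul_of_nonneg_left ?_ hκ.le)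
    refine (abs_max_sub_max_le_max _ _ _ _).trans ?_
    rw [sub_self, abs_zero, max_eq_left (abs_nonneg _)]
  calc _ ≤ Real.cos (min (κ * max m 0) (Real.pi / 2)) * (κ * |s - s'|) :=
        mul_le_mul_of_nonneg_left h3 hc
    _ = _ := by ring

theorem Fs_lip' {κ : ℝ} (hκ : 0 < κ) (s s' : ℝ) : |Fs κ s - Fs κ s'| ≤ κ * |s - s'| := by
  refine (Fs_lip hκ (min_le_left s s') (min_le_right s s')).trans ?_
  have := Real.cos_le_one (min (κ * max (min s s') 0) (Real.pi / 2))
  have h2 : κ * Real.cos (min (κ * max (min s s') 0) (Real.pi / 2)) ≤ κ := by nlinarith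
  exact mul_le_mul_of_nonneg_right h2 (abs_nonneg _)

theorem cos_sq_lip (x y : ℝ) : Real.cos x ^ 2 ≤ Real.cos y ^ 2 + 2 * |x - y| := by
  have h1 : |Real.cos x - Real.cos y| ≤ |x - y| := Real.abs_cos_sub_cos_le x y
  have h2 : |Real.cos x + Real.cos y| ≤ 2 := by
    refine (abs_add_le _ _).trans ?_
    linarith [Real.abs_cos_le_one x, Real.abs_cos_le_one y]
  have h3 : Real.cos x ^ 2 - Real.cos y ^ 2 = (Real.cos x - Real.cos y) * (Real.cos x + Real.cos y) := by
    ring
  have h4 : Real.cos x ^ 2 - Real.cos y ^ 2 ≤ |x - y| * 2 := by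
    rw [h3]
    refine (le_abs_self _).trans ?_
    rw [abs_mul]
    exact mul_le_mul h1 h2 (abs_nonneg _) (abs_nonneg _)
  linarith

theorem grad_le (f : ℂ → ℝ) (z : ℂ) : dx f z ^ 2 + dy f z ^ 2 ≤ ‖fderiv ℝ f z‖ ^ 2 := by
  unfold dx dy
  set L := fderiv ℝ f z with hL
  set v : ℂ := ⟨L 1, L I⟩ with hv
  have h1 : L v = L 1 ^ 2 + L I ^ 2 := by
    have h2 : v = (L 1) • (1 : ℂ) + (L I) • I := by
      apply Complex.ext <;> simp [hv]
    rw [h2, map_add, map_smul, map_smul, smul_eq_mul, smul_eq_mul]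
    ring
  have h2 : ‖v‖ ^ 2 = L 1 ^ 2 + L I ^ 2 := by
    rw [← Complex.normSq_eq_norm_sq, Complex.normSq_apply]
    ring
  have h3 := (le_abs_self _).trans (L.le_opNorm v)
  rw [h1, ← h2] at h3
  rw [← h2]
  have h4 : ‖v‖ ≤ ‖L‖ := by
    by_contra h5
    push Not at h5
    have h6 : 0 < ‖v‖ := (norm_nonneg _).trans_lt h5
    nlinarith
  exact pow_le_pow_left₀ (norm_nonneg _) h4 2

/-- a smooth bump function of radius `b` -/
def bmp (b : ℝ) (hb : 0 < b) : ContDiffBump (0 : ℂ) := ⟨b / 2, b, by linarith, by linarith⟩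

/-- the approximation -/
def fb (κ b : ℝ) (hb : 0 < b) (A : Set ℂ) : ℂ → ℝ :=
  (bmp b hb).normed volume ⋆[ContinuousLinearMap.lsmul ℝ ℝ, volume]
    (fun z => Fs κ (Metric.infDist z A - 2 * b))

theorem infDist_lip (A : Set ℂ) (z w : ℂ) : |Metric.infDist z A - Metric.infDist w A| ≤ ‖z - w‖ := by
  have h1 := (Metric.lipschitz_infDist_pt A).dist_le_mul z w
  rwa [Real.dist_eq, dist_eq_norm, NNReal.coe_one, one_mul] at h1

theorem f0_cont (κ b : ℝ) (A : Set ℂ) : Continuous fun z : ℂ => Fs κ (Metric.infDist z A - 2 * b) :=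
  Fs_cont.comp ((Metric.continuous_infDist_pt A).sub continuous_const)

theorem fb_smooth (κ b : ℝ) (hb : 0 < b) (A : Set ℂ) : ContDiff ℝ ∞ (fb κ b hb A) :=
  HasCompactSupport.contDiff_convolution_left (ContinuousLinearMap.lsmul ℝ ℝ)
    (bmp b hb).hasCompactSupport_normed (bmp b hb).contDiff_normed
    (f0_cont κ b A).locallyIntegrable

theorem fb_apply (κ b : ℝ) (hb : 0 < b) (A : Set ℂ) (z : ℂ) : fb κ b hb A z =
    ∫ t, (bmp b hb).normed volume t * Fs κ (Metric.infDist (z - t) A - 2 * b) := rfl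

theorem fb_zero {κ b : ℝ} (hb : 0 < b) {A : Set ℂ} {z : ℂ} (hz : Metric.infDist z A < b) :
    fb κ b hb A z = 0 := by
  rw [fb_apply]
  refine integral_eq_zero_of_ae (Eventually.of_forall fun t => ?_)
  simp only [Pi.zero_apply]
  by_cases ht : ‖t‖ < b
  · have h1 := abs_le.1 (infDist_lip A (z - t) z)
    have h2 : ‖z - t - z‖ = ‖t‖ := by rw [sub_sub_cancel_left, norm_neg]
    rw [h2] at h1
    rw [Fs_zero (by linarith [h1.2]), mul_zero]
  · have h1 : t ∉ Function.support ((bmp b hb).normed (volume : Measure ℂ)) := by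
      rw [(bmp b hb).support_normed_eq, mem_ball_zero_iff]
      exact ht
    rw [Function.notMem_support.1 h1, zero_mul]

theorem fb_approx {κ b : ℝ} (hκ : 0 < κ) (hb : 0 < b) (A : Set ℂ) (z : ℂ) :
    |fb κ b hb A z - sn κ A z| ≤ 3 * κ * b := by
  have h1 : dist (fb κ b hb A z) (Fs κ (Metric.infDist z A - 2 * b)) ≤ κ * b := by
    refine ContDiffBump.dist_normed_convolution_le (φ := bmp b hb) (x₀ := z)
      (g := fun z => Fs κ (Metric.infDist z A - 2 * b))
      (f0_cont κ b A).aestronglyMeasurable ?_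
    intro x hx
    rw [Real.dist_eq]
    refine (Fs_lip' hκ _ _).trans (mul_le_mul_of_nonneg_left ?_ hκ.le)
    rw [sub_sub_sub_cancel_right]
    refine (infDist_lip A x z).trans ?_
    rw [← dist_eq_norm]
    exact (Metric.mem_ball.1 hx).le
  have h2 : |Fs κ (Metric.infDist z A - 2 * b) - sn κ A z| ≤ κ * (2 * b) := by
    have h3 : sn κ A z = Fs κ (Metric.infDist z A) := by
      unfold sn Fs
      rw [max_eq_left Metric.infDist_nonneg]
    rw [h3]
    refine (Fs_lip' hκ _ _).trans ?_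
    rw [sub_sub_cancel_left, abs_neg, abs_of_pos (by positivity)]
  rw [Real.dist_eq] at h1
  have h3 := abs_sub_le (fb κ b hb A z) (Fs κ (Metric.infDist z A - 2 * b)) (sn κ A z)
  linarith

theorem fb_grad {κ b : ℝ} (hκ : 0 < κ) (hb : 0 < b) (A : Set ℂ) (z : ℂ) :
    ‖fderiv ℝ (fb κ b hb A) z‖ ≤
      κ * Real.cos (min (κ * max (Metric.infDist z A - 4 * b) 0) (Real.pi / 2)) := by
  set k := κ * Real.cos (min (κ * max (Metric.infDist z A - 4 * b) 0) (Real.pi / 2)) with hk
  have h1 := theta_mem hκ (le_max_right (Metric.infDist z A - 4 * b) 0)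
  have hk0 : 0 ≤ k := mul_nonneg hκ.le
    (Real.cos_nonneg_of_mem_Icc ⟨by linarith [Real.pi_pos], h1.2⟩)
  refine norm_fderiv_le_of_lip' ℝ hk0 ?_
  filter_upwards [Metric.ball_mem_nhds z hb] with z' hz'
  have hz : ‖z' - z‖ < b := by rwa [Metric.mem_ball, dist_eq_norm] at hz'
  have hint : ∀ w : ℂ, Integrable fun t : ℂ =>
      (bmp b hb).normed volume t * Fs κ (Metric.infDist (w - t) A - 2 * b) := by
    intro w
    have h2 : Continuous fun t : ℂ => (bmp b hb).normed volume t *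
        Fs κ (Metric.infDist (w - t) A - 2 * b) :=
      (bmp b hb).continuous_normed.mul ((f0_cont κ b A).comp (continuous_const.sub continuous_id))
    exact h2.integrable_of_hasCompactSupport ((bmp b hb).hasCompactSupport_normed.mul_right)
  rw [fb_apply, fb_apply, ← integral_sub (hint z') (hint z)]
  have hb2 : Integrable fun t : ℂ => (bmp b hb).normed volume t * (k * ‖z' - z‖) :=
    ((bmp b hb).continuous_normed.integrable_of_hasCompactSupport
      (bmp b hb).hasCompactSupport_normed).mul_const _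
  have h3 : ∫ t : ℂ, (bmp b hb).normed volume t * (k * ‖z' - z‖) = k * ‖z' - z‖ := by
    rw [integral_mul_const, (bmp b hb).integral_normed, one_mul]
  rw [← h3]
  refine norm_integral_le_of_norm_le hb2 (Eventually.of_forall fun t => ?_)
  rw [← mul_sub, norm_mul, Real.norm_eq_abs, Real.norm_eq_abs,
    abs_of_nonneg ((bmp b hb).nonneg_normed t)]
  by_cases ht : ‖t‖ < b
  · refine mul_le_mul_of_nonneg_left ?_ ((bmp b hb).nonneg_normed t)
    have h4 : ∀ w : ℂ, ‖w - z‖ < b →
        Metric.infDist z A - 4 * b ≤ Metric.infDist (w - t) A - 2 * b := by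
      intro w hw
      have h5 := abs_le.1 (infDist_lip A z (w - t))
      have h6 : ‖z - (w - t)‖ ≤ ‖w - z‖ + ‖t‖ := by
        have h7 : z - (w - t) = t - (w - z) := by ring
        rw [h7]
        refine (norm_sub_le _ _).trans ?_
        linarith
      linarith [h5.2]
    refine (Fs_lip hκ (h4 z' hz) (h4 z (by simpa using hb))).trans ?_
    refine mul_le_mul_of_nonneg_left ?_ hk0
    rw [sub_sub_sub_cancel_right]
    refine (infDist_lip A _ _).trans ?_
    rw [sub_sub_sub_cancel_right]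
  · have h5 : t ∉ Function.support ((bmp b hb).normed (volume : Measure ℂ)) := by
      rw [(bmp b hb).support_normed_eq, mem_ball_zero_iff]
      exact ht
    rw [Function.notMem_support.1 h5, zero_mul, zero_mul]

theorem t8 : S8 := by
  intro A κ ε hA hne hbd hκ hε
  obtain ⟨b, hb, hb1, hb2⟩ : ∃ b : ℝ, 0 < b ∧ 3 * κ * b ≤ ε ∧ 8 * κ ^ 3 * b ≤ ε := by
    refine ⟨min (ε / (3 * κ)) (ε / (8 * κ ^ 3)), by positivity, ?_, ?_⟩
    · rw [mul_comm, ← le_div_iff₀ (by positivity)]
      exact min_le_left _ _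
    · rw [mul_comm, ← le_div_iff₀ (by positivity)]
      exact min_le_right _ _
  have hsup : tsupport (fb κ b hb A) ⊆ {z | b ≤ Metric.infDist z A} := by
    refine closure_minimal ?_ (isClosed_le continuous_const (Metric.continuous_infDist_pt A))
    intro z hz
    by_contra h
    exact hz (fb_zero hb (not_le.1 h))
  have hsup2 : tsupport (fb κ b hb A) ⊆ Aᶜ := by
    intro z hz hzA
    have h1 := hsup hz
    rw [mem_ofPred_eq, Metric.infDist_zero_of_mem hzA] at h1
    linarith
  refine ⟨fb κ b hb A, fb_smooth κ b hb A, ?_, hsup2, ?_⟩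
  · exact Metric.isCompact_of_isClosed_isBounded (isClosed_tsupport _) (hbd.subset hsup2)
  · intro z
    refine ⟨(fb_approx hκ hb A z).trans hb1, ?_⟩
    refine (grad_le _ z).trans ?_
    have h1 := fb_grad hκ hb A z
    have h2 := pow_le_pow_left₀ (norm_nonneg _) h1 2
    refine h2.trans ?_
    rw [mul_pow]
    have h3 := cos_sq_lip (min (κ * max (Metric.infDist z A - 4 * b) 0) (Real.pi / 2))
      (min (κ * Metric.infDist z A) (Real.pi / 2))
    have h4 : |min (κ * max (Metric.infDist z A - 4 * b) 0) (Real.pi / 2) -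
        min (κ * Metric.infDist z A) (Real.pi / 2)| ≤ κ * (4 * b) := by
      refine (theta_lip hκ _ _).trans (mul_le_mul_of_nonneg_left ?_ hκ.le)
      have h5 : 0 ≤ Metric.infDist z A := Metric.infDist_nonneg
      rw [abs_le]
      rcases le_total (Metric.infDist z A - 4 * b) 0 with h6 | h6
      · rw [max_eq_right h6]
        constructor <;> linarith
      · rw [max_eq_left h6]
        constructor <;> linarith
    unfold cs
    nlinarith [sq_nonneg κ, mul_pos hκ hκ]

end

end Pool.Agent.Q73.NL
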