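import Pool.Agent.Q73.NL.Stm

/-!
# S9: the test function inequality
-/

set_option autoImplicit false
open MeasureTheory Filter Topology Complex Metric
open scoped ContDiff ENNReal ComplexConjugate

namespace Pool.Agent.Q73.NL

theorem compl_A (Ω : Set ℂ) (u : ℂ → ℝ) : (nod Ω u ∪ Ωᶜ)ᶜ = {z | z ∈ Ω ∧ u z ≠ 0} := by
  ext z
  simp only [nod, Set.mem_compl_iff, Set.mem_union, Set.mem_ofPred_eq]
  tauto

theorem isOpen_compl_A {Ω : Set ℂ} {V u : ℂ → ℝ} (hΩ : IsOpen Ω) (hu : Sol Ω V u) :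
    IsOpen {z | z ∈ Ω ∧ u z ≠ 0} := by
  have := hu.smooth.continuousOn.isOpen_inter_preimage hΩ (isOpen_compl_singleton (x := (0 : ℝ)))
  exact this

theorem isClosed_A {Ω : Set ℂ} {V u : ℂ → ℝ} (hΩ : IsOpen Ω) (hu : Sol Ω V u) :
    IsClosed (nod Ω u ∪ Ωᶜ) := by
  rw [← isOpen_compl_iff, compl_A]
  exact isOpen_compl_A hΩ hu

theorem nonempty_A {Ω : Set ℂ} (hb : Bornology.IsBounded Ω) : (Ωᶜ).Nonempty := by
  by_contra h
  rw [Set.not_nonempty_iff_eq_empty, Set.compl_empty_iff] at h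
  rw [h] at hb
  exact (NormedSpace.unbounded_univ ℝ ℂ) hb

theorem sn_cont (κ : ℝ) (A : Set ℂ) : Continuous (sn κ A) := by
  unfold sn
  have := Metric.continuous_infDist_pt A
  fun_prop

theorem cs_cont (κ : ℝ) (A : Set ℂ) : Continuous (cs κ A) := by
  unfold cs
  have := Metric.continuous_infDist_pt A
  fun_prop

theorem sn_mem {κ : ℝ} (A : Set ℂ) (z : ℂ) : |sn κ A z| ≤ 1 := Real.abs_sin_le_one _

theorem cs_mem {κ : ℝ} (A : Set ℂ) (z : ℂ) : |cs κ A z| ≤ 1 := Real.abs_cos_le_one _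

theorem t9 (h7 : S7) (h8 : S8) : S9 := by
  intro Ω V u κ hΩ hb hu hκ hV hVc
  set A : Set ℂ := nod Ω u ∪ Ωᶜ with hA
  have hAc : IsClosed A := isClosed_A hΩ hu
  have hAne : A.Nonempty := (nonempty_A hb).mono Set.subset_union_right
  have hAb : Bornology.IsBounded Aᶜ := by
    rw [hA, compl_A]
    exact hb.subset fun z hz => hz.1
  have hfin : volume Ω ≠ ⊤ := (hb.measure_lt_top).ne
  have : IsFiniteMeasure (volume.restrict Ω) := ⟨by rw [Measure.restrict_apply_univ]; exact hfin.lt_top⟩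
  have bint : ∀ g : ℂ → ℝ, Continuous g → (∃ C : ℝ, ∀ z, |g z| ≤ C) →
      Integrable g (volume.restrict Ω) := by
    intro g hg ⟨C, hC⟩
    exact Integrable.of_bound hg.aestronglyMeasurable C (Eventually.of_forall hC)
  have hs2 : Integrable (fun z => sn κ A z ^ 2) (volume.restrict Ω) :=
    bint _ ((sn_cont κ A).pow 2) ⟨1, fun z => by
      rw [abs_pow]; exact pow_le_one₀ (abs_nonneg _) (sn_mem A z)⟩
  have hc2 : Integrable (fun z => cs κ A z ^ 2) (volume.restrict Ω) :=
    bint _ ((cs_cont κ A).pow 2) ⟨1, fun z => by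
      rw [abs_pow]; exact pow_le_one₀ (abs_nonneg _) (cs_mem A z)⟩
  have key : ∀ ε : ℝ, 0 < ε → ε ≤ 1 → κ ^ 2 * ∫ z in Ω, sn κ A z ^ 2 ≤
      κ ^ 2 * (∫ z in Ω, cs κ A z ^ 2) + ε * ((1 + 3 * κ ^ 2) * volume.real Ω) := by
    intro ε hε hε1
    obtain ⟨f, hf, hfc, hfs, hfa⟩ := h8 A κ ε hAc hAne hAb hκ hε
    have hsub : tsupport f ⊆ {z | z ∈ Ω ∧ u z ≠ 0} := by
      rw [← compl_A]
      exact hfs
    have h1 := h7 Ω V u f hΩ hu hf hfc hsub
    have hfz : ∀ z, z ∉ Ω → f z = 0 := fun z hz =>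
      image_eq_zero_of_notMem_tsupport fun h => hz (hsub h).1
    have hdz : ∀ z, z ∉ Ω → fderiv ℝ f z = 0 := by
      intro z hz
      have h2 : z ∉ tsupport f := fun h => hz (hsub h).1
      have h3 : f =ᶠ[𝓝 z] fun _ => 0 := by
        rw [notMem_tsupport_iff_eventuallyEq] at h2
        exact h2
      rw [h3.fderiv_eq]
      simp
    have hVf : Continuous fun z => V z * f z ^ 2 := by
      rw [continuous_iff_continuousAt]
      intro z
      by_cases hz : z ∈ Ω
      · exact (hVc.continuousAt (hΩ.mem_nhds hz)).mul ((hf.continuous.continuousAt).pow 2)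
      · have h2 : z ∉ tsupport f := fun h => hz (hsub h).1
        have h3 : (fun z => V z * f z ^ 2) =ᶠ[𝓝 z] fun _ => 0 := by
          rw [notMem_tsupport_iff_eventuallyEq] at h2
          filter_upwards [h2] with w hw
          simp [hw]
        exact h3.continuousAt
    have hVi : Integrable (fun z => V z * f z ^ 2) :=
      hVf.integrable_of_hasCompactSupport (by
        refine hfc.mono ?_
        intro z hz h
        simp only [Function.mem_support] at hz h ⊢
        exact hz (by rw [h]; simp))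
    have e1 : ∫ z, V z * f z ^ 2 = ∫ z in Ω, V z * f z ^ 2 := by
      rw [setIntegral_eq_integral_of_forall_compl_eq_zero]
      intro z hz
      rw [hfz z hz]; simp
    have e2 : ∫ z, (dx f z ^ 2 + dy f z ^ 2) = ∫ z in Ω, (dx f z ^ 2 + dy f z ^ 2) := by
      rw [setIntegral_eq_integral_of_forall_compl_eq_zero]
      intro z hz
      unfold dx dy
      rw [hdz z hz]; simp
    rw [e1, e2] at h1
    have i1 : κ ^ 2 * ∫ z in Ω, sn κ A z ^ 2 ≤ (∫ z in Ω, V z * f z ^ 2) +
        ε * (3 * κ ^ 2 * volume.real Ω) := by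
      have hcst : ∫ z in Ω, (ε * (3 * κ ^ 2) : ℝ) = ε * (3 * κ ^ 2 * volume.real Ω) := by
        rw [setIntegral_const]
        simp only [smul_eq_mul]; ring
      rw [← hcst, ← integral_add hVi.integrableOn (integrable_const _), ← integral_const_mul]
      refine setIntegral_mono_on (hs2.const_mul _) (hVi.integrableOn.add (integrable_const _))
        hΩ.measurableSet fun z hz => ?_
      have h2 := abs_le.1 (hfa z).1
      have h3 := abs_le.1 (sn_mem (κ := κ) A z)
      have h4 : sn κ A z ^ 2 ≤ f z ^ 2 + 3 * ε := by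
        nlinarith [abs_le.1 (hfa z).1, sq_nonneg (f z - sn κ A z)]
      have h5 : κ ^ 2 * f z ^ 2 ≤ V z * f z ^ 2 := mul_le_mul_of_nonneg_right (hV z hz) (sq_nonneg _)
      nlinarith [sq_nonneg κ]
    have hdi : Integrable (fun z => dx f z ^ 2 + dy f z ^ 2) := by
      have hd : Continuous (fderiv ℝ f) := hf.continuous_fderiv (by simp)
      have hcd : Continuous fun z => dx f z ^ 2 + dy f z ^ 2 := by
        unfold dx dy
        fun_prop
      refine hcd.integrable_of_hasCompactSupport ?_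
      refine (hfc.fderiv (𝕜 := ℝ)).mono ?_
      intro z hz h
      simp only [Function.mem_support] at hz h ⊢
      refine hz ?_
      unfold dx dy
      rw [h]; simp
    have i2 : ∫ z in Ω, (dx f z ^ 2 + dy f z ^ 2) ≤ κ ^ 2 * (∫ z in Ω, cs κ A z ^ 2) +
        ε * volume.real Ω := by
      have hcst : ∫ z in Ω, (ε : ℝ) = ε * volume.real Ω := by
        rw [setIntegral_const]
        simp only [smul_eq_mul]; ring
      rw [← hcst, ← integral_const_mul, ← integral_add (hc2.const_mul _) (integrable_const _)]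
      exact setIntegral_mono_on hdi.integrableOn ((hc2.const_mul _).add (integrable_const _))
        hΩ.measurableSet fun z _ => (hfa z).2
    nlinarith
  have hv : 0 ≤ volume.real Ω := measureReal_nonneg
  by_contra hcon
  push Not at hcon
  set S := ∫ z in Ω, sn κ A z ^ 2
  set C := ∫ z in Ω, cs κ A z ^ 2
  set D := (1 + 3 * κ ^ 2) * volume.real Ω with hD
  have hD0 : 0 ≤ D := by positivity
  have hgap : 0 < κ ^ 2 * (S - C) := mul_pos (by positivity) (by linarith)
  have hε0 : 0 < min 1 (κ ^ 2 * (S - C) / (2 * (D + 1))) := lt_min one_pos (by positivity)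
  have h1 := key _ hε0 (min_le_left _ _)
  have h2 : min 1 (κ ^ 2 * (S - C) / (2 * (D + 1))) * D ≤ κ ^ 2 * (S - C) / 2 := by
    have h3 := min_le_right (1 : ℝ) (κ ^ 2 * (S - C) / (2 * (D + 1)))
    have h4 : min 1 (κ ^ 2 * (S - C) / (2 * (D + 1))) * D ≤
        κ ^ 2 * (S - C) / (2 * (D + 1)) * D := mul_le_mul_of_nonneg_right h3 hD0
    refine h4.trans ?_
    rw [div_mul_eq_mul_div, div_le_div_iff₀ (by positivity) (by norm_num)]
    nlinarith
  nlinarith

end Pool.Agent.Q73.NL
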