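import Pool.Agent.Q73.NL.T1
import Pool.Agent.Q73.NL.T2
import Pool.Agent.Q73.NL.T3
import Pool.Agent.Q73.NL.T6
import Pool.Agent.Q73.NL.T7
import Pool.Agent.Q73.NL.T8
import Pool.Agent.Q73.NL.T9

/-!
# S10: the main inequality
-/

set_option autoImplicit false
open MeasureTheory Filter Topology Complex Metric
open scoped ContDiff ENNReal ComplexConjugate

namespace Pool.Agent.Q73.NL

theorem int_sin (m : ℝ) (hm : m ≤ Real.pi / 2) : ∫ s in Set.Ioc m (Real.pi / 2), 2 * Real.sin (2 * s) =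
    1 + Real.cos (2 * m) := by
  rw [← intervalIntegral.integral_of_le hm]
  have : ∀ x ∈ Set.uIcc m (Real.pi / 2), HasDerivAt (fun s : ℝ => - Real.cos (2 * s))
      (2 * Real.sin (2 * x)) x := by
    intro x _
    have h1 : HasDerivAt (fun s : ℝ => 2 * s) 2 x := by
      simpa using (hasDerivAt_id x).const_mul 2
    have h2 : HasDerivAt (fun s : ℝ => - Real.cos (2 * s)) (-(-Real.sin (2 * x) * 2)) x := (h1.cos).neg
    rw [show 2 * Real.sin (2 * x) = -(-Real.sin (2 * x) * 2) by ring]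
    exact h2
  rw [intervalIntegral.integral_eq_sub_of_hasDerivAt this]
  · rw [show 2 * (Real.pi / 2) = Real.pi by ring, Real.cos_pi]
    ring
  · exact (by fun_prop : Continuous fun s : ℝ => 2 * Real.sin (2 * s)).intervalIntegrable _ _

theorem int_s_sin : ∫ s in (0 : ℝ)..(Real.pi / 2), 4 * s * Real.sin (2 * s) = Real.pi := by
  have : ∀ x ∈ Set.uIcc 0 (Real.pi / 2), HasDerivAt (fun s : ℝ => - 2 * s * Real.cos (2 * s) +
      Real.sin (2 * s)) (4 * x * Real.sin (2 * x)) x := by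
    intro x _
    have h1 : HasDerivAt (fun s : ℝ => 2 * s) 2 x := by
      simpa using (hasDerivAt_id x).const_mul 2
    have h3 : HasDerivAt (fun s : ℝ => -2 * s) (-2) x := by
      simpa using (hasDerivAt_id x).const_mul (-2)
    have h2 : HasDerivAt (fun s : ℝ => - 2 * s * Real.cos (2 * s) + Real.sin (2 * s))
      (-2 * Real.cos (2 * x) + -2 * x * (-Real.sin (2 * x) * 2) + Real.cos (2 * x) * 2) x :=
      (h3.mul h1.cos).add h1.sin
    rw [show 4 * x * Real.sin (2 * x) = -2 * Real.cos (2 * x) + -2 * x * (-Real.sin (2 * x) * 2) +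
      Real.cos (2 * x) * 2 by ring]
    exact h2
  rw [intervalIntegral.integral_eq_sub_of_hasDerivAt this]
  · rw [show 2 * (Real.pi / 2) = Real.pi by ring, Real.cos_pi, Real.sin_pi]
    simp
    ring
  · exact (by fun_prop : Continuous fun s : ℝ => 4 * s * Real.sin (2 * s)).intervalIntegrable _ _

/-- layer cake -/
theorem cos_layer (κ : ℝ) (hκ : 0 ≤ κ) (A : Set ℂ) (z : ℂ) :
    cs κ A z ^ 2 - sn κ A z ^ 2 = -1 + ∫ s in Set.Ioc 0 (Real.pi / 2),
      (2 * Real.sin (2 * s)) * Set.indicator {s | κ * infDist z A < s} 1 s := by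
  have hpi := Real.pi_pos
  set m := min (κ * infDist z A) (Real.pi / 2) with hm
  have hm0 : 0 ≤ m := le_min (mul_nonneg hκ infDist_nonneg) (by positivity)
  have hm1 : m ≤ Real.pi / 2 := min_le_right _ _
  have h1 : cs κ A z ^ 2 - sn κ A z ^ 2 = Real.cos (2 * m) := by
    unfold cs sn
    rw [← hm, Real.cos_two_mul, Real.sin_sq]
    ring
  rw [h1]
  have h2 : ∫ s in Set.Ioc 0 (Real.pi / 2),
      (2 * Real.sin (2 * s)) * Set.indicator {s | κ * infDist z A < s} (1 : ℝ → ℝ) s =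
      ∫ s in Set.Ioc m (Real.pi / 2), 2 * Real.sin (2 * s) := by
    have h3 : (fun s => (2 * Real.sin (2 * s)) * Set.indicator {s | κ * infDist z A < s}
        (1 : ℝ → ℝ) s) = Set.indicator {s | κ * infDist z A < s} (fun s => 2 * Real.sin (2 * s)) := by
      funext s
      by_cases hs : κ * infDist z A < s
      · rw [Set.indicator_of_mem (by exact hs), Set.indicator_of_mem (by exact hs)]
        simp
      · rw [Set.indicator_of_notMem (by exact hs), Set.indicator_of_notMem (by exact hs)]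
        simp
    have hms : MeasurableSet {s : ℝ | κ * infDist z A < s} :=
      measurableSet_lt measurable_const measurable_id
    rw [h3, setIntegral_indicator hms]
    congr 2
    ext s
    simp only [Set.mem_inter_iff, Set.mem_Ioc, Set.mem_ofPred_eq, hm]
    constructor
    · rintro ⟨⟨h4, h5⟩, h6⟩
      exact ⟨lt_of_le_of_lt (min_le_left _ _) h6, h5⟩
    · rintro ⟨h4, h5⟩
      have h6 : κ * infDist z A < s := by
        rcases min_lt_iff.1 h4 with h | h
        · exact h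
        · exact absurd h5 (not_le.2 h)
      exact ⟨⟨lt_of_le_of_lt (mul_nonneg hκ infDist_nonneg) h6, h5⟩, h6⟩
  rw [h2, int_sin m hm1]
  ring

/-- the area of the part of `Ω` near `A` -/
noncomputable def near (κ : ℝ) (Ω A : Set ℂ) (s : ℝ) : ℝ := volume.real {z | z ∈ Ω ∧ κ * infDist z A < s}

theorem fubini (κ : ℝ) (hκ : 0 ≤ κ) (Ω A : Set ℂ) (hb : Bornology.IsBounded Ω) :
    ∫ z in Ω, (cs κ A z ^ 2 - sn κ A z ^ 2) = - volume.real Ω +
      ∫ s in Set.Ioc 0 (Real.pi / 2), (2 * Real.sin (2 * s)) * near κ Ω A s := by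
  have hfin : volume Ω ≠ ⊤ := (hb.measure_lt_top).ne
  have hfm : IsFiniteMeasure (volume.restrict Ω) :=
    ⟨by rw [Measure.restrict_apply_univ]; exact hfin.lt_top⟩
  simp_rw [cos_layer κ hκ A]
  have hmeas : Measurable fun p : ℂ × ℝ => (2 * Real.sin (2 * p.2)) *
      Set.indicator {s | κ * infDist p.1 A < s} (1 : ℝ → ℝ) p.2 := by
    have h1 : (fun p : ℂ × ℝ => (2 * Real.sin (2 * p.2)) *
      Set.indicator {s | κ * infDist p.1 A < s} (1 : ℝ → ℝ) p.2) = fun p : ℂ × ℝ =>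
        (2 * Real.sin (2 * p.2)) * Set.indicator {q : ℂ × ℝ | κ * infDist q.1 A < q.2}
          (1 : ℂ × ℝ → ℝ) p := by
      funext p
      by_cases hp : κ * infDist p.1 A < p.2
      · rw [Set.indicator_of_mem (by exact hp), Set.indicator_of_mem (by exact hp)]
        simp
      · rw [Set.indicator_of_notMem (by exact hp), Set.indicator_of_notMem (by exact hp)]
    rw [h1]
    refine Measurable.mul (by fun_prop) ?_
    refine measurable_one.indicator (measurableSet_lt ?_ measurable_snd)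
    exact ((continuous_infDist_pt A).measurable.comp measurable_fst).const_mul κ
  have hint : Integrable (fun p : ℂ × ℝ => (2 * Real.sin (2 * p.2)) *
      Set.indicator {s | κ * infDist p.1 A < s} (1 : ℝ → ℝ) p.2)
      ((volume.restrict Ω).prod (volume.restrict (Set.Ioc 0 (Real.pi / 2)))) := by
    refine Integrable.of_bound hmeas.aestronglyMeasurable 2 (Eventually.of_forall fun p => ?_)
    rw [Real.norm_eq_abs, abs_mul, abs_mul, abs_two]
    have h1 := Real.abs_sin_le_one (2 * p.2)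
    have h2 : |Set.indicator {s | κ * infDist p.1 A < s} (1 : ℝ → ℝ) p.2| ≤ 1 := by
      by_cases hp : κ * infDist p.1 A < p.2
      · rw [Set.indicator_of_mem (by exact hp)]; simp
      · rw [Set.indicator_of_notMem (by exact hp)]; simp
    have h3 := abs_nonneg (Real.sin (2 * p.2))
    have h4 := abs_nonneg (Set.indicator {s | κ * infDist p.1 A < s} (1 : ℝ → ℝ) p.2)
    nlinarith
  rw [integral_add (integrable_const _) hint.integral_prod_left, setIntegral_const]
  rw [show (fun z : ℂ => ∫ s in Set.Ioc 0 (Real.pi / 2),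
      (2 * Real.sin (2 * s)) * Set.indicator {s | κ * infDist z A < s} (1 : ℝ → ℝ) s) =
      fun z : ℂ => ∫ s, (fun (z : ℂ) (s : ℝ) => (2 * Real.sin (2 * s)) *
        Set.indicator {s | κ * infDist z A < s} (1 : ℝ → ℝ) s) z s
        ∂(volume.restrict (Set.Ioc 0 (Real.pi / 2))) from rfl]
  rw [integral_integral_swap hint]
  simp only [smul_eq_mul, mul_neg, mul_one]
  congr 1
  refine integral_congr_ae (Eventually.of_forall fun s => ?_)
  simp only
  rw [integral_const_mul]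
  congr 1
  have h1 : (fun z : ℂ => Set.indicator {s | κ * infDist z A < s} (1 : ℝ → ℝ) s) =
      Set.indicator {z : ℂ | κ * infDist z A < s} (1 : ℂ → ℝ) := by
    funext z
    by_cases hp : κ * infDist z A < s
    · rw [Set.indicator_of_mem (by exact hp), Set.indicator_of_mem (by exact hp)]
      simp
    · rw [Set.indicator_of_notMem (by exact hp), Set.indicator_of_notMem (by exact hp)]
  have h2 : MeasurableSet {z : ℂ | κ * infDist z A < s} :=
    measurableSet_lt ((continuous_infDist_pt A).measurable.const_mul κ) measurable_const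
  rw [h1, integral_indicator_one h2, near]
  rw [measureReal_restrict_apply h2]
  congr 1
  ext z
  simp only [Set.mem_inter_iff, Set.mem_ofPred_eq]
  tauto

/-- the area of the part of `Ω` near the boundary -/
noncomputable def bdy (κ : ℝ) (Ω : Set ℂ) (s : ℝ) : ℝ :=
  volume.real {z | z ∈ Ω ∧ infDist z Ωᶜ ≤ s / κ}

theorem near_mono {κ : ℝ} {Ω A : Set ℂ} (hb : Bornology.IsBounded Ω) : Monotone (near κ Ω A) := by
  intro s t hst
  refine measureReal_mono (fun z hz => ⟨hz.1, hz.2.trans_le hst⟩) ?_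
  exact (lt_of_le_of_lt (measure_mono fun z hz => hz.1) hb.measure_lt_top).ne

theorem bdy_mono {κ : ℝ} (hκ : 0 < κ) {Ω : Set ℂ} (hb : Bornology.IsBounded Ω) :
    Monotone (bdy κ Ω) := by
  intro s t hst
  refine measureReal_mono (fun z hz => ⟨hz.1, hz.2.trans ?_⟩) ?_
  · exact div_le_div_of_nonneg_right hst hκ.le
  · exact (lt_of_le_of_lt (measure_mono fun z hz => hz.1) hb.measure_lt_top).ne

theorem nod_meas {Ω : Set ℂ} {V u : ℂ → ℝ} (hΩ : IsOpen Ω) (hu : Sol Ω V u) :
    MeasurableSet (nod Ω u) := by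
  have h1 : nod Ω u = Ω \ {z | z ∈ Ω ∧ u z ≠ 0} := by
    ext z
    simp only [nod, Set.mem_ofPred_eq, Set.mem_sdiff]
    tauto
  rw [h1]
  exact hΩ.measurableSet.diff (isOpen_compl_A hΩ hu).measurableSet

theorem near_le (h6 : S6) (h2 : S2) (h3 : S3) {Ω : Set ℂ} {V u : ℂ → ℝ} {κ M : ℝ} (hΩ : IsOpen Ω)
    (hb : Bornology.IsBounded Ω) (hu : Sol Ω V u) (hnf : NoFlat Ω u) (hκ : 0 < κ)
    (hV : ∀ z ∈ Ω, κ ^ 2 ≤ V z ∧ V z ≤ M) (hM : M < 2 * κ ^ 2)
    (hL : (μH[1] : Measure ℂ) (nod Ω u) ≠ ⊤) {s : ℝ} (hs : 0 < s) (hs1 : s ≤ Real.pi / 2) :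
    near κ Ω (nod Ω u ∪ Ωᶜ) s ≤ bdy κ Ω s + 2 * (s / κ) * ((μH[1] : Measure ℂ) (nod Ω u)).toReal := by
  have ht : 0 < s / κ := div_pos hs hκ
  have hsub : {z | z ∈ Ω ∧ κ * infDist z (nod Ω u ∪ Ωᶜ) < s} ⊆
      {z | z ∈ Ω ∧ infDist z Ωᶜ ≤ s / κ} ∪ circ2 (s / κ) (nod Ω u) := by
    rintro z ⟨hz, hzs⟩
    by_cases hd : infDist z Ωᶜ ≤ s / κ
    · exact Or.inl ⟨hz, hd⟩
    right
    push Not at hd
    have hcb : closedBall z (s / κ) ⊆ Ω := by
      intro w hw
      by_contra hwΩ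
      have h4 : infDist z Ωᶜ ≤ dist z w := infDist_le_dist_of_mem hwΩ
      rw [mem_closedBall, dist_comm] at hw
      linarith
    have hlt : infDist z (nod Ω u ∪ Ωᶜ) < s / κ := by
      rw [lt_div_iff₀ hκ]
      linarith
    obtain ⟨y, hy, hyd⟩ := (infDist_lt_iff ((nonempty_A hb).mono Set.subset_union_right)).1 hlt
    have hyb : y ∈ ball z (s / κ) := by rwa [mem_ball, dist_comm]
    have hy0 : u y = 0 := by
      rcases hy with hy | hy
      · exact hy.2
      · exact absurd (hcb (ball_subset_closedBall hyb)) hy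
    refine h6 Ω V u z (s / κ) M hΩ hu ht (fun z hz => ⟨(sq_nonneg κ).trans (hV z hz).1, (hV z hz).2⟩)
      ?_ hcb ⟨y, hyb, hy0⟩
    rw [div_pow, mul_div_assoc', div_lt_iff₀ (by positivity)]
    have h5 : s ^ 2 ≤ (Real.pi / 2) ^ 2 := pow_le_pow_left₀ hs.le hs1 2
    have h7 : 0 < s ^ 2 := by positivity
    nlinarith
  have hfin1 : volume {z | z ∈ Ω ∧ infDist z Ωᶜ ≤ s / κ} ≠ ⊤ :=
    (lt_of_le_of_lt (measure_mono fun z hz => hz.1) hb.measure_lt_top).ne
  have hc2 := h2 (s / κ) (nod Ω u) ht (nod_meas hΩ hu) (h3 Ω u hΩ hu.smooth hnf)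
  have hfin3 : ENNReal.ofReal (2 * (s / κ)) * (μH[1] : Measure ℂ) (nod Ω u) ≠ ⊤ :=
    ENNReal.mul_ne_top ENNReal.ofReal_ne_top hL
  have hfin2 : volume (circ2 (s / κ) (nod Ω u)) ≠ ⊤ := ne_top_of_le_ne_top hfin3 hc2
  have h8 : volume.real (circ2 (s / κ) (nod Ω u)) ≤
      2 * (s / κ) * ((μH[1] : Measure ℂ) (nod Ω u)).toReal := by
    have h9 := ENNReal.toReal_mono hfin3 hc2
    rwa [ENNReal.toReal_mul, ENNReal.toReal_ofReal (by positivity)] at h9
  have h10 : near κ Ω (nod Ω u ∪ Ωᶜ) s ≤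
      volume.real ({z | z ∈ Ω ∧ infDist z Ωᶜ ≤ s / κ} ∪ circ2 (s / κ) (nod Ω u)) :=
    measureReal_mono hsub (measure_union_ne_top hfin1 hfin2)
  have h11 := measureReal_union_le (μ := volume) {z | z ∈ Ω ∧ infDist z Ωᶜ ≤ s / κ}
    (circ2 (s / κ) (nod Ω u))
  unfold bdy
  linarith

theorem t10' (h2 : S2) (h3 : S3) (h6 : S6) (h9 : S9) : S10 := by
  intro Ω V u κ M hΩ hb hu hnf hκ hV hVc hM
  by_cases hL : (μH[1] : Measure ℂ) (nod Ω u) = ⊤
  · rw [hL]; exact le_top
  rw [← ENNReal.ofReal_toReal hL]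
  refine ENNReal.ofReal_le_ofReal ?_
  set L := ((μH[1] : Measure ℂ) (nod Ω u)).toReal with hLdef
  have hpi := Real.pi_pos
  have hpi2 : (0 : ℝ) ≤ Real.pi / 2 := by positivity
  have h9' := h9 Ω V u κ hΩ hb hu hκ (fun z hz => (hV z hz).1) hVc
  have hF := fubini κ hκ.le Ω (nod Ω u ∪ Ωᶜ) hb
  have hfin : volume Ω ≠ ⊤ := (hb.measure_lt_top).ne
  have hfm : IsFiniteMeasure (volume.restrict Ω) :=
    ⟨by rw [Measure.restrict_apply_univ]; exact hfin.lt_top⟩
  have hs2 : Integrable (fun z => sn κ (nod Ω u ∪ Ωᶜ) z ^ 2) (volume.restrict Ω) :=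
    Integrable.of_bound ((sn_cont κ _).pow 2).aestronglyMeasurable 1 (Eventually.of_forall fun z => by
      rw [Real.norm_eq_abs, abs_pow]; exact pow_le_one₀ (abs_nonneg _) (sn_mem _ z))
  have hc2 : Integrable (fun z => cs κ (nod Ω u ∪ Ωᶜ) z ^ 2) (volume.restrict Ω) :=
    Integrable.of_bound ((cs_cont κ _).pow 2).aestronglyMeasurable 1 (Eventually.of_forall fun z => by
      rw [Real.norm_eq_abs, abs_pow]; exact pow_le_one₀ (abs_nonneg _) (cs_mem _ z))
  rw [integral_sub hc2 hs2] at hF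
  have hsc : Continuous fun s : ℝ => 2 * Real.sin (2 * s) := by fun_prop
  have in1 : IntervalIntegrable (fun s => (2 * Real.sin (2 * s)) * near κ Ω (nod Ω u ∪ Ωᶜ) s)
      volume 0 (Real.pi / 2) :=
    ((near_mono hb).intervalIntegrable).continuousOn_mul hsc.continuousOn
  have in2 : IntervalIntegrable (fun s => (2 * Real.sin (2 * s)) * bdy κ Ω s)
      volume 0 (Real.pi / 2) :=
    ((bdy_mono hκ hb).intervalIntegrable).continuousOn_mul hsc.continuousOn
  have in3 : IntervalIntegrable (fun s => L / κ * (4 * s * Real.sin (2 * s)))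
      volume 0 (Real.pi / 2) :=
    (by fun_prop : Continuous fun s : ℝ => L / κ * (4 * s * Real.sin (2 * s))).intervalIntegrable _ _
  have hle : ∫ s in (0 : ℝ)..(Real.pi / 2), (2 * Real.sin (2 * s)) * near κ Ω (nod Ω u ∪ Ωᶜ) s ≤
      ∫ s in (0 : ℝ)..(Real.pi / 2), ((2 * Real.sin (2 * s)) * bdy κ Ω s +
        L / κ * (4 * s * Real.sin (2 * s))) := by
    refine intervalIntegral.integral_mono_on_of_le_Ioo hpi2 in1 (in2.add in3) fun s hs => ?_
    have h12 := near_le h6 h2 h3 hΩ hb hu hnf hκ hV hM hL hs.1 hs.2.le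
    have h13 : 0 ≤ 2 * Real.sin (2 * s) := by
      have := Real.sin_nonneg_of_nonneg_of_le_pi (x := 2 * s) (by linarith [hs.1])
        (by linarith [hs.2])
      linarith
    have h14 := mul_le_mul_of_nonneg_left h12 h13
    rw [← hLdef] at h14
    refine h14.trans (le_of_eq ?_)
    ring
  rw [intervalIntegral.integral_add in2 in3, intervalIntegral.integral_const_mul, int_s_sin] at hle
  rw [← intervalIntegral.integral_of_le hpi2] at hF
  have h15 : ∫ s in (0 : ℝ)..(Real.pi / 2), 2 * Real.sin (2 * s) *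
      volume.real {z | z ∈ Ω ∧ infDist z Ωᶜ ≤ s / κ} =
      ∫ s in (0 : ℝ)..(Real.pi / 2), (2 * Real.sin (2 * s)) * bdy κ Ω s := rfl
  rw [h15]
  have h16 : volume.real Ω - ∫ s in (0 : ℝ)..(Real.pi / 2), (2 * Real.sin (2 * s)) * bdy κ Ω s ≤
      L / κ * Real.pi := by linarith
  calc κ / Real.pi * (volume.real Ω -
        ∫ s in (0 : ℝ)..(Real.pi / 2), (2 * Real.sin (2 * s)) * bdy κ Ω s)
      ≤ κ / Real.pi * (L / κ * Real.pi) := mul_le_mul_of_nonneg_left h16 (by positivity)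
    _ = L := by field_simp

theorem t6f : S6 := t6 t4 (t5 t4)

theorem t9f : S9 := t9 t7 t8

theorem t10 : S10 := t10' (t2 t1) t3 t6f t9f

end Pool.Agent.Q73.NL
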