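import Pool.Agent.Q73.NL.T4

/-!
# S5: the strong minimum principle in a disc
-/

set_option autoImplicit false
open MeasureTheory Filter Topology Complex Metric
open scoped ContDiff ENNReal ComplexConjugate

namespace Pool.Agent.Q73.NL

/-- the second derivative in the direction `e` from the restriction to the line -/
theorem dd_eq {f : ℂ → ℝ} {z e : ℂ} (hf : ContDiffAt ℝ 2 f z) {g' : ℝ → ℝ} {L : ℝ}
    (h1 : ∀ s : ℝ, HasDerivAt (fun s : ℝ => f (z + s • e)) (g' s) s) (h2 : HasDerivAt g' L 0) :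
    fderiv ℝ (fun w => fderiv ℝ f w e) z e = L := by
  obtain ⟨a1, a2⟩ := line_der e hf
  have h3 : g' =ᶠ[𝓝 0] fun s : ℝ => fderiv ℝ f (z + s • e) e :=
    a1.mono fun s hs => (h1 s).unique hs
  exact (a2.congr_of_eventuallyEq h3).unique h2

theorem dd_sub {f g : ℂ → ℝ} {z : ℂ} (e : ℂ) (hf : ContDiffAt ℝ 2 f z)
    (hg : ContDiffAt ℝ 2 g z) : fderiv ℝ (fun w => fderiv ℝ (fun x => f x - g x) w e) z e =
      fderiv ℝ (fun w => fderiv ℝ f w e) z e - fderiv ℝ (fun w => fderiv ℝ g w e) z e := by
  have hdd : ∀ {k : ℂ → ℝ}, ContDiffAt ℝ 2 k z →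
      DifferentiableAt ℝ (fun w => fderiv ℝ k w e) z := by
    intro k hk
    have h1 : ContDiffAt ℝ 1 (fderiv ℝ k) z := hk.fderiv_right (by norm_num)
    exact (h1.differentiableAt (by simp)).clm_apply (differentiableAt_const _)
  have h1 : (fun w => fderiv ℝ (fun x => f x - g x) w e) =ᶠ[𝓝 z]
      fun w => fderiv ℝ f w e - fderiv ℝ g w e := by
    have hf' : ∀ᶠ w in 𝓝 z, ContDiffAt ℝ 2 f w := hf.eventually (by simp)
    have hg' : ∀ᶠ w in 𝓝 z, ContDiffAt ℝ 2 g w := hg.eventually (by simp)
    filter_upwards [hf', hg'] with w h1 h2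
    have h3 : fderiv ℝ (fun x => f x - g x) w = fderiv ℝ f w - fderiv ℝ g w :=
      fderiv_fun_sub (h1.differentiableAt (by simp)) (h2.differentiableAt (by simp))
    rw [h3]
    rfl
  rw [h1.fderiv_eq]
  have h2 : fderiv ℝ (fun w => fderiv ℝ f w e - fderiv ℝ g w e) z =
      fderiv ℝ (fun w => fderiv ℝ f w e) z - fderiv ℝ (fun w => fderiv ℝ g w e) z :=
    fderiv_fun_sub (hdd hf) (hdd hg)
  rw [h2]
  rfl

theorem lap_sub {f g : ℂ → ℝ} {z : ℂ} (hf : ContDiffAt ℝ 2 f z) (hg : ContDiffAt ℝ 2 g z) :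
    lap (fun x => f x - g x) z = lap f z - lap g z := by
  have h1 := dd_sub 1 hf hg
  have h2 := dd_sub I hf hg
  have e1 : ∀ k : ℂ → ℝ, lap k z = fderiv ℝ (fun w => fderiv ℝ k w 1) z 1 +
    fderiv ℝ (fun w => fderiv ℝ k w I) z I := fun k => rfl
  rw [e1, e1, e1, h1, h2]
  ring

/-- the barrier -/
noncomputable def bar (ε α C : ℝ) (p z : ℂ) : ℝ :=
  ε * (Real.exp (-α * ((z - p).re ^ 2 + (z - p).im ^ 2)) - C)

theorem bar_smooth (ε α C : ℝ) (p : ℂ) : ContDiff ℝ ∞ (bar ε α C p) := by
  unfold bar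
  have h1 : ContDiff ℝ ∞ fun z : ℂ => (z - p).re :=
    reCLM.contDiff.comp (contDiff_id.sub contDiff_const)
  have h2 : ContDiff ℝ ∞ fun z : ℂ => (z - p).im :=
    imCLM.contDiff.comp (contDiff_id.sub contDiff_const)
  exact contDiff_const.mul ((contDiff_const.mul ((h1.pow 2).add (h2.pow 2))).exp.sub
    contDiff_const)

theorem bar_lap (ε α C : ℝ) (p z : ℂ) : lap (bar ε α C p) z =
    ε * (Real.exp (-α * ((z - p).re ^ 2 + (z - p).im ^ 2)) *
      (4 * α ^ 2 * ((z - p).re ^ 2 + (z - p).im ^ 2) - 4 * α)) := by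
  have hs : ContDiffAt ℝ 2 (bar ε α C p) z := (bar_smooth ε α C p).contDiffAt.of_le (by
    norm_cast)
  set x := (z - p).re with hx
  set y := (z - p).im with hy
  have e1 : fderiv ℝ (fun w => fderiv ℝ (bar ε α C p) w 1) z 1 =
      ε * (Real.exp (-α * (x ^ 2 + y ^ 2)) * (4 * α ^ 2 * x ^ 2 - 2 * α)) := by
    refine dd_eq hs (g' := fun s => ε * (Real.exp (-α * ((x + s) ^ 2 + y ^ 2)) *
      (-α * (2 * (x + s))))) ?_ ?_
    · intro s
      have h1 : (fun s : ℝ => bar ε α C p (z + s • (1 : ℂ))) =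
          fun s => ε * (Real.exp (-α * ((x + s) ^ 2 + y ^ 2)) - C) := by
        funext s
        have r1 : (z + s • (1 : ℂ) - p).re = x + s := by
          simp [hx]
          ring
        have r2 : (z + s • (1 : ℂ) - p).im = y := by simp [hy]
        rw [bar, r1, r2]
      rw [h1]
      have h2 : HasDerivAt (fun s : ℝ => x + s) 1 s := (hasDerivAt_id s).const_add x
      have h3 : HasDerivAt (fun s : ℝ => -α * ((x + s) ^ 2 + y ^ 2)) (-α * (2 * (x + s))) s := by
        have := ((h2.pow 2).add_const (y ^ 2)).const_mul (-α)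
        refine this.congr_deriv ?_
        norm_num
      exact ((h3.exp).sub_const C).const_mul ε
    · have h2 : HasDerivAt (fun s : ℝ => x + s) 1 0 := (hasDerivAt_id (0 : ℝ)).const_add x
      have h3 : HasDerivAt (fun s : ℝ => -α * ((x + s) ^ 2 + y ^ 2)) (-α * (2 * (x + 0))) 0 := by
        have := ((h2.pow 2).add_const (y ^ 2)).const_mul (-α)
        refine this.congr_deriv ?_
        norm_num
      have h4 : HasDerivAt (fun s : ℝ => -α * (2 * (x + s))) (-α * (2 * 1)) 0 :=
        (h2.const_mul 2).const_mul (-α)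
      refine ((h3.exp.mul h4).const_mul ε).congr_deriv ?_
      rw [add_zero]
      ring
  have e2 : fderiv ℝ (fun w => fderiv ℝ (bar ε α C p) w I) z I =
      ε * (Real.exp (-α * (x ^ 2 + y ^ 2)) * (4 * α ^ 2 * y ^ 2 - 2 * α)) := by
    refine dd_eq hs (g' := fun s => ε * (Real.exp (-α * (x ^ 2 + (y + s) ^ 2)) *
      (-α * (2 * (y + s))))) ?_ ?_
    · intro s
      have h1 : (fun s : ℝ => bar ε α C p (z + s • I)) =
          fun s => ε * (Real.exp (-α * (x ^ 2 + (y + s) ^ 2)) - C) := by
        funext s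
        have r1 : (z + s • I - p).re = x := by simp [hx]
        have r2 : (z + s • I - p).im = y + s := by
          simp [hy]
          ring
        rw [bar, r1, r2]
      rw [h1]
      have h2 : HasDerivAt (fun s : ℝ => y + s) 1 s := (hasDerivAt_id s).const_add y
      have h3 : HasDerivAt (fun s : ℝ => -α * (x ^ 2 + (y + s) ^ 2)) (-α * (2 * (y + s))) s := by
        have := ((h2.pow 2).const_add (x ^ 2)).const_mul (-α)
        refine this.congr_deriv ?_
        norm_num
      exact ((h3.exp).sub_const C).const_mul ε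
    · have h2 : HasDerivAt (fun s : ℝ => y + s) 1 0 := (hasDerivAt_id (0 : ℝ)).const_add y
      have h3 : HasDerivAt (fun s : ℝ => -α * (x ^ 2 + (y + s) ^ 2)) (-α * (2 * (y + 0))) 0 := by
        have := ((h2.pow 2).const_add (x ^ 2)).const_mul (-α)
        refine this.congr_deriv ?_
        norm_num
      have h4 : HasDerivAt (fun s : ℝ => -α * (2 * (y + s))) (-α * (2 * 1)) 0 :=
        (h2.const_mul 2).const_mul (-α)
      refine ((h3.exp.mul h4).const_mul ε).congr_deriv ?_
      rw [add_zero]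
      ring
  have e3 : lap (bar ε α C p) z = fderiv ℝ (fun w => fderiv ℝ (bar ε α C p) w 1) z 1 +
    fderiv ℝ (fun w => fderiv ℝ (bar ε α C p) w I) z I := rfl
  rw [e3, e1, e2]
  ring

theorem nsq (z : ℂ) : z.re ^ 2 + z.im ^ 2 = ‖z‖ ^ 2 := by
  rw [← Complex.normSq_eq_norm_sq, Complex.normSq_apply]
  ring

theorem t5 (h4 : S4) : S5 := by
  intro c r M V u hr hV hu heq hpos hzero z hz
  by_contra hne
  have hM : 0 ≤ M := by
    obtain ⟨z, hz, -⟩ := hzero
    exact (hV z hz).1.trans (hV z hz).2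
  have hcont : ContinuousOn u (ball c r) := fun z hz => (hu z hz).continuousAt.continuousWithinAt
  -- a zero in the closure of the positivity set
  obtain ⟨z0, hz0, hz00, hcl⟩ : ∃ z0 ∈ ball c r, u z0 = 0 ∧
      ∀ ε > 0, ∃ p ∈ ball c r, dist p z0 < ε ∧ u p ≠ 0 := by
    by_contra hcon
    push Not at hcon
    have hopen1 : IsOpen (ball c r ∩ {z | u z = 0}) := by
      rw [Metric.isOpen_iff]
      rintro w ⟨hw, hw0⟩
      obtain ⟨ε, hε, h1⟩ := hcon w hw hw0
      obtain ⟨ε', hε', h2⟩ := Metric.isOpen_iff.1 isOpen_ball w hw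
      refine ⟨min ε ε', lt_min hε hε', fun q hq => ?_⟩
      have hq' : q ∈ ball c r := h2 (ball_subset_ball (min_le_right _ _) hq)
      exact ⟨hq', h1 q hq' (lt_of_lt_of_le hq (min_le_left _ _))⟩
    have hopen2 : IsOpen (ball c r ∩ {z | u z ≠ 0}) := by
      have := hcont.isOpen_inter_preimage isOpen_ball (isOpen_compl_singleton (x := (0 : ℝ)))
      exact this
    have hpre : IsPreconnected (ball c r) := (convex_ball c r).isPreconnected
    obtain ⟨w, hw, hw0⟩ := hzero
    have := hpre _ _ hopen1 hopen2 (fun q hq => by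
      by_cases h : u q = 0
      · exact Or.inl ⟨hq, h⟩
      · exact Or.inr ⟨hq, h⟩) ⟨w, hw, hw, hw0⟩ ⟨z, hz, hz, hne⟩
    obtain ⟨q, -, ⟨-, h1⟩, ⟨-, h2⟩⟩ := this
    exact h2 h1
  -- radii
  set a : ℝ := √(M + 1) with ha
  have ha0 : 0 < a := Real.sqrt_pos.2 (by linarith)
  have ha2 : a ^ 2 = M + 1 := Real.sq_sqrt (by linarith)
  obtain ⟨ε0, hε0, hball0⟩ := Metric.isOpen_iff.1 isOpen_ball z0 hz0
  set ε1 : ℝ := min (ε0 / 2) (1 / a) with hε1
  have hε1pos : 0 < ε1 := lt_min (by linarith) (by positivity)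
  obtain ⟨p, hp, hpd, hp0⟩ := hcl ε1 hε1pos
  have hpz : p ≠ z0 := by
    rintro rfl
    exact hp0 hz00
  have hsubB : closedBall p (dist p z0) ⊆ ball c r := by
    refine subset_trans ?_ hball0
    intro w hw
    rw [mem_closedBall] at hw
    rw [mem_ball]
    have h1 := dist_triangle w p z0
    have h2 : ε1 ≤ ε0 / 2 := min_le_left _ _
    linarith
  -- the nearest zero
  have hcomp : IsCompact (closedBall p (dist p z0) ∩ {z | u z = 0}) := by
    have h1 : IsClosed (closedBall p (dist p z0) ∩ u ⁻¹' {0}) :=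
      (hcont.mono hsubB).preimage_isClosed_of_isClosed isClosed_closedBall isClosed_singleton
    exact (isCompact_closedBall p (dist p z0)).of_isClosed_subset h1 Set.inter_subset_left
  obtain ⟨z1, ⟨hz1b, hz10⟩, hz1min⟩ := hcomp.exists_isMinOn
    ⟨z0, by rw [mem_closedBall, dist_comm], hz00⟩
    (continuous_id.dist continuous_const : Continuous fun w : ℂ => dist w p).continuousOn
  set R : ℝ := dist z1 p with hR
  have hz1B : z1 ∈ ball c r := hsubB hz1b
  have hRpos : 0 < R := by
    rw [hR, dist_pos]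
    rintro rfl
    exact hp0 hz10
  have hRle : R ≤ dist p z0 := hz1b
  have hRlt : R < ε1 := hRle.trans_lt hpd
  have hsubR : closedBall p R ⊆ ball c r := (closedBall_subset_closedBall hRle).trans hsubB
  have hposR : ∀ w, dist w p < R → 0 < u w := by
    intro w hw
    have hwB : w ∈ closedBall p (dist p z0) := by
      rw [mem_closedBall]
      linarith
    refine lt_of_le_of_ne (hpos w (hsubB hwB)) fun h => ?_
    have h1 : R ≤ dist w p := hz1min ⟨hwB, h.symm⟩
    linarith
  -- the barrier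
  set α : ℝ := 8 / R ^ 2 with hα
  have hα0 : 0 < α := by positivity
  have hαR : α * R ^ 2 = 8 := by
    rw [hα]
    field_simp
  obtain ⟨q0, hq0, hq0min⟩ := (isCompact_sphere p (R / 2)).exists_isMinOn
    ((NormedSpace.sphere_nonempty (x := p)).2 (by positivity))
    (hcont.mono (fun w hw => hsubR (by
      rw [mem_sphere] at hw
      rw [mem_closedBall, hw]
      linarith)))
  set m : ℝ := u q0 with hm
  have hm0 : 0 < m := hposR q0 (by
    rw [mem_sphere] at hq0
    rw [hq0]
    linarith)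
  set Cc : ℝ := Real.exp (-α * R ^ 2) with hCc
  have hbar : ∀ w, bar m α Cc p w = m * (Real.exp (-α * dist w p ^ 2) - Real.exp (-α * R ^ 2)) := by
    intro w
    rw [bar, nsq, dist_eq_norm]
  have hbarnn : ∀ w, dist w p ≤ R → 0 ≤ bar m α Cc p w := by
    intro w hw
    rw [hbar]
    refine mul_nonneg hm0.le (sub_nonneg.2 (Real.exp_le_exp.2 ?_))
    have h1 : dist w p ^ 2 ≤ R ^ 2 := pow_le_pow_left₀ dist_nonneg hw 2
    nlinarith
  set K : Set ℂ := {w | R / 2 ≤ dist w p ∧ dist w p ≤ R} with hK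
  have hKsub : K ⊆ closedBall p R := fun w hw => hw.2
  have hdc : Continuous fun w : ℂ => dist w p := continuous_id.dist continuous_const
  have hKc : IsCompact K := by
    refine (isCompact_closedBall p R).of_isClosed_subset ?_ hKsub
    exact (isClosed_le continuous_const hdc).inter (isClosed_le hdc continuous_const)
  have hKB : K ⊆ ball c r := hKsub.trans hsubR
  have hint : interior K ⊆ K := interior_subset
  have hmain := h4 K V (fun w => u w - bar m α Cc p w) p a hKc ha0 (by
    intro w hw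
    have h1 : ‖w - p‖ ≤ R := by
      rw [← dist_eq_norm]
      exact hw.2
    have h2 : a * ε1 ≤ 1 := by
      have : ε1 ≤ 1 / a := min_le_right _ _
      calc a * ε1 ≤ a * (1 / a) := mul_le_mul_of_nonneg_left this ha0.le
        _ = 1 := by field_simp
    have h3 : a * ‖w - p‖ < Real.pi / 2 := by
      have h5 : a * ‖w - p‖ ≤ a * ε1 := mul_le_mul_of_nonneg_left (by linarith) ha0.le
      have := Real.pi_gt_three
      linarith
    exact ⟨(mul_le_mul_of_nonneg_left (abs_re_le_norm _) ha0.le).trans_lt h3,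
      (mul_le_mul_of_nonneg_left (abs_im_le_norm _) ha0.le).trans_lt h3⟩)
    ((hcont.mono hKB).sub (bar_smooth m α Cc p).continuous.continuousOn)
    (fun w hw => (hu w (hKB (hint hw))).sub ((bar_smooth m α Cc p).contDiffAt.of_le (by
      norm_cast)))
    (fun w hw => by
      have := (hV w (hKB (hint hw))).2
      rw [ha2]
      linarith)
    (fun w hw => by
      have hwK := hint hw
      have h1 := heq w (hKB hwK)
      have h2 : lap (fun x => u x - bar m α Cc p x) w = lap u w - lap (bar m α Cc p) w :=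
        lap_sub (hu w (hKB hwK)) ((bar_smooth m α Cc p).contDiffAt.of_le (by norm_cast))
      have h3 : 0 ≤ lap (bar m α Cc p) w := by
        rw [bar_lap, nsq, ← dist_eq_norm]
        refine mul_nonneg hm0.le (mul_nonneg (Real.exp_pos _).le ?_)
        have h5 : (R / 2) ^ 2 ≤ dist w p ^ 2 := pow_le_pow_left₀ (by positivity) hwK.1 2
        have h6 : α * (R / 2) ^ 2 = 2 := by
          rw [div_pow, ← mul_div_assoc, hαR]
          norm_num
        have h7 : 2 ≤ α * dist w p ^ 2 := by
          rw [← h6]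
          exact mul_le_mul_of_nonneg_left h5 hα0.le
        have h8 : 4 * α ^ 2 * dist w p ^ 2 - 4 * α = 4 * α * (α * dist w p ^ 2 - 1) := by ring
        rw [h8]
        exact mul_nonneg (by positivity) (by linarith)
      have h9 : 0 ≤ V w * bar m α Cc p w := mul_nonneg (hV w (hKB hwK)).1 (hbarnn w hwK.2)
      rw [h2]
      nlinarith)
    (fun w hw => by
      have hwK : w ∈ K := hKc.isClosed.frontier_subset hw
      have hcase : dist w p = R / 2 ∨ dist w p = R := by
        by_contra hcon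
        push Not at hcon
        have h1 : R / 2 < dist w p := lt_of_le_of_ne hwK.1 (Ne.symm hcon.1)
        have h2 : dist w p < R := lt_of_le_of_ne hwK.2 hcon.2
        have h3 : w ∈ interior K := by
          rw [mem_interior]
          refine ⟨{w | R / 2 < dist w p ∧ dist w p < R}, fun q hq => ⟨hq.1.le, hq.2.le⟩,
            (isOpen_lt continuous_const hdc).inter (isOpen_lt hdc continuous_const), h1, h2⟩
        exact hw.2 h3
      rcases hcase with h | h
      · have h1 : m ≤ u w := hq0min (by rw [mem_sphere]; exact h)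
        have h2 : bar m α Cc p w ≤ m := by
          rw [hbar]
          have h3 : Real.exp (-α * dist w p ^ 2) ≤ 1 := by
            rw [Real.exp_le_one_iff]
            have : 0 ≤ α * dist w p ^ 2 := by positivity
            linarith
          have h5 := Real.exp_pos (-α * R ^ 2)
          nlinarith
        linarith
      · have h1 : bar m α Cc p w = 0 := by
          rw [hbar, h, sub_self, mul_zero]
        rw [h1, sub_zero]
        exact hpos w (hKB hwK))
  -- the derivative at `z1`
  have hfd : fderiv ℝ u z1 = 0 := by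
    have h1 : IsLocalMin u z1 := by
      filter_upwards [isOpen_ball.mem_nhds hz1B] with w hw
      have : u z1 = 0 := hz10
      rw [this]
      exact hpos w hw
    exact h1.fderiv_eq_zero
  have hder1 : HasDerivAt (fun s : ℝ => u (z1 + s • (p - z1))) 0 0 := by
    have h1 : HasFDerivAt u (fderiv ℝ u z1) (z1 + (0 : ℝ) • (p - z1)) := by
      have := ((hu z1 hz1B).differentiableAt (by simp)).hasFDerivAt
      simpa using this
    have h2 := h1.comp_hasDerivAt (0 : ℝ) (line_hasDeriv z1 (p - z1) 0)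
    rw [hfd] at h2
    exact h2
  have hder2 : HasDerivAt (fun s : ℝ => m * (Real.exp (-α * ((1 - s) * R) ^ 2) -
      Real.exp (-α * R ^ 2))) (m * (Real.exp (-α * R ^ 2) * (2 * α * R ^ 2))) 0 := by
    have h1 : HasDerivAt (fun s : ℝ => (1 - s) * R) (-1 * R) 0 :=
      ((hasDerivAt_id (0 : ℝ)).const_sub 1).mul_const R
    have h2 := ((((h1.pow 2).const_mul (-α)).exp).sub_const (Real.exp (-α * R ^ 2))).const_mul m
    refine h2.congr_deriv ?_
    simp only [Pi.pow_apply, sub_zero, one_mul, Nat.cast_ofNat]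
    rw [show (2 : ℕ) - 1 = 1 from rfl, pow_one]
    ring
  have hder := hder1.sub hder2
  have hsl := hder.tendsto_slope_zero_right
  have hnn : 0 ≤ 0 - m * (Real.exp (-α * R ^ 2) * (2 * α * R ^ 2)) := by
    refine ge_of_tendsto hsl ?_
    have h1 : ∀ᶠ s in 𝓝[>] (0 : ℝ), s ∈ Set.Ioo (0 : ℝ) (1 / 2) :=
      Ioo_mem_nhdsGT (by norm_num)
    filter_upwards [h1] with s hs
    have hw : dist (z1 + s • (p - z1)) p = (1 - s) * R := by
      have h2 : z1 + s • (p - z1) - p = (1 - s) • (z1 - p) := by module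
      rw [dist_eq_norm, h2, norm_smul, Real.norm_eq_abs, abs_of_pos (by linarith [hs.2]), hR,
        dist_eq_norm]
    have hK1 : z1 + s • (p - z1) ∈ K := by
      refine ⟨?_, ?_⟩
      · rw [hw]
        nlinarith [hs.1, hs.2]
      · rw [hw]
        nlinarith [hs.1, hs.2]
    have h3 : 0 ≤ u (z1 + s • (p - z1)) - bar m α Cc p (z1 + s • (p - z1)) := hmain _ hK1
    rw [hbar, hw] at h3
    refine smul_nonneg (inv_nonneg.2 hs.1.le) ?_
    simp only [Pi.sub_apply, zero_add, zero_smul, add_zero, sub_zero, one_mul, sub_self, mul_zero]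
    have h5 : u z1 = 0 := hz10
    rw [h5, sub_zero]
    exact h3
  have hpos' : 0 < m * (Real.exp (-α * R ^ 2) * (2 * α * R ^ 2)) := by positivity
  linarith

end Pool.Agent.Q73.NL
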